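import Pool.Agent.Helper46.HT.Weyl
import Pool.Agent.Helper32.HP.Joint

/-!
# HT-C8: the joint theorem, rates outside of a countable set

As Helper32/HP/Joint.lean and Lead.lean, with `b = exp 1`, `X` in place of `XX b T ξ` (globalizeS uses of `XX` only
`X_ne`), `weylT` in place of `weyl`; the terms `X v_ij(a n)` are leaders by the second alternative of `LeadS`
(`log β_i ∉ Z`, `β₀ = s₀ = 0`), so no index `Option (Fin d)` is needed.  If `φ x z = φ x p + (z - p) / b` on `[p, q]`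
for one `b > 1` then `Z` may be replaced by the multiples of `log b` by rational numbers (Helper32.HP.joint).
-/

set_option autoImplicit false

namespace Pool.Agent.Helper46.HT

open Finset MeasureTheory ProbabilityTheory Filter Topology
open Pool.Agent.Helper46.HR Pool.Agent.Helper46.HS
open Pool.Agent.Helper59.RE (e norm_e e_add e_sub conj_e continuous_e e_zero)
open Pool.Agent.Helper46.TK (TermAt HolAt LHol icc_of_abs mult_term pow_term fiber_countable)
open Pool.Agent.Helper32.HP (Gr LeadS LCS log_add inc_of_phase pow_termS pow_leadS alg_countable excE_countable tendsto_of_normS)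

variable {Ω : Type*} [MeasurableSpace Ω] {E : Type*} [MeasurableSpace E] {μ : Measure Ω} {p q : ℝ} {T : Ω ≃ᵐ Ω} {ξ : Ω → E}
    {φ φ' : E → ℝ → ℝ} {X : Ω → ℝ} {C r K ε : ℝ}

/-- from local to global -/
private theorem glob17 {Ω : Type*} [MeasurableSpace Ω] {μ : Measure Ω} {b : ℝ} {X : Ω → ℝ}
    (hna : ∀ x : ℝ, ∀ᵐ ω ∂μ, X ω ≠ x) (E : Set ℝ) (a : ℕ → ℕ) (c : ℕ → ℝ)
    (hW : ∀ (u v : ℝ) (F Df : ℕ → ℝ → ℝ), (∀ n, Measurable (F n)) → (∀ n, Measurable (Df n)) →
      ∀ δ K B₂ c₀ : ℝ, 0 < δ → 0 ≤ K → 1 ≤ B₂ → 0 < c₀ →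
        (∀ (n : ℕ) (x y : ℝ), x ∈ Set.Icc u v → y ∈ Set.Icc u v →
          |F n y - F n x - Df n x * (y - x)| ≤ K * B₂ ^ n * |y - x| ^ (1 + δ)) →
        Real.log B₂ < (1 + δ) * c₀ * Real.log b →
        (∀ᵐ ω ∂μ, X ω ∈ Set.Ioo u v → Gr b c₀ B₂ δ E 0 0 Df (X ω)) →
        ∀ᵐ ω ∂μ, X ω ∈ Set.Ioo u v →
          Tendsto (fun N : ℕ => ‖∑ i ∈ range N, e (F (a i) (X ω) + c i)‖ / N) atTop (𝓝 0))
    (F Df : ℕ → ℝ → ℝ) (hF : ∀ n, Measurable (F n)) (hDf : ∀ n, Measurable (Df n)) (N P : Set ℝ) (hN : N.Countable)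
    (h : ∀ x ∈ P, x ∉ N → ∃ u v : ℚ, x ∈ Set.Ioo (u : ℝ) v ∧ LCS b E N 0 0 F Df u v) :
    ∀ᵐ ω ∂μ, X ω ∈ P →
      Tendsto (fun N : ℕ => ‖∑ i ∈ range N, e (F (a i) (X ω) + c i)‖ / N) atTop (𝓝 0) := by
  have havoid : ∀ᵐ ω ∂μ, X ω ∉ N := by
    have h1 : ∀ᵐ ω ∂μ, ∀ x ∈ N, X ω ≠ x := (ae_ball_iff hN).2 fun x _ => hna x
    filter_upwards [h1] with ω hω hx
    exact hω _ hx rfl
  have h1 : ∀ᵐ ω ∂μ, ∀ (u v : ℚ), LCS b E N 0 0 F Df u v → X ω ∈ Set.Ioo (u : ℝ) v →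
      Tendsto (fun N : ℕ => ‖∑ i ∈ range N, e (F (a i) (X ω) + c i)‖ / N) atTop (𝓝 0) := by
    rw [ae_all_iff]
    intro u
    rw [ae_all_iff]
    intro v
    by_cases hLC : LCS b E N 0 0 F Df u v
    · obtain ⟨δ, K, B₂, c₀, hδ, hK, hB, hc₀, hlin, h1, hgr⟩ := hLC
      have h2 := hW u v F Df hF hDf δ K B₂ c₀ hδ hK hB hc₀ hlin h1 (by
          filter_upwards [havoid] with ω hω hX
          exact hgr _ hX hω)
      filter_upwards [h2] with ω hω _ hX
      exact hω hX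
    · exact Eventually.of_forall fun ω h => absurd h hLC
  filter_upwards [h1, havoid] with ω hω hωN hP
  obtain ⟨u, v, huv, hLC⟩ := h _ hP hωN
  exact hω u v hLC huv

/-- multiples of `x`: the leading term -/
private theorem mult17 (b : ℝ) (E N : Set ℝ) (x₀ δ : ℝ)
    (β γ K ρ : ℝ) (hβ : 1 < β) (hE : Real.log β / Real.log b ∉ E) (hγ0 : 0 ≤ γ) (hγ : γ < β)
    (hρ : ρ ≠ 0) (w : ℕ → ℝ) (hw : ∀ n, |w n - ρ * β ^ n| ≤ K * γ ^ n)
    (hT : TermAt (fun n x => x * w n) (fun n _ => w n) x₀ β δ) :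
    LeadS b E N 0 0 (fun n x => x * w n) (fun n _ => w n) x₀ β δ := by
  have hβ0 : 0 < β := by linarith
  have hρ0 : 0 < |ρ| := abs_pos.2 hρ
  refine ⟨hT, fun ε hε => ⟨1, one_pos, fun x _ _ => ⟨β, hβ, by linarith, ?_⟩⟩⟩
  have hA : ∀ n : ℕ, ρ * β ^ n ≠ 0 := fun n => mul_ne_zero hρ (pow_pos hβ0 n).ne'
  have hlogA : ∀ n : ℕ, Real.log |ρ * β ^ n| = n * Real.log β + Real.log |ρ| := by
    intro n
    rw [abs_mul, abs_of_pos (pow_pos hβ0 n), Real.log_mul hρ0.ne' (pow_pos hβ0 n).ne', Real.log_pow]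
    ring
  have hinc : Tendsto (fun n : ℕ => Real.log |ρ * β ^ (n + 1)| - Real.log |ρ * β ^ n|) atTop (𝓝 (Real.log β)) := by
    refine tendsto_const_nhds.congr fun n => ?_
    rw [hlogA, hlogA]
    push_cast
    ring
  obtain ⟨h1, h2⟩ := log_add (fun n => ρ * β ^ n) (fun n => w n - ρ * β ^ n) β γ K hβ hγ0 hγ
    (Eventually.of_forall hA) hinc hw
  constructor
  · filter_upwards [h1] with n hn
    rwa [add_sub_cancel] at hn
  · right
    refine ⟨hE, inc_of_phase (s₀ := Real.log |ρ|) (A := fun n => Real.log |w n|) ?_⟩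
    refine h2.congr fun n => ?_
    rw [add_sub_cancel, hlogA]

/-- joint exponential sums -/
private theorem joint17 {b : ℝ} (hb : 1 < b) (hna : ∀ x : ℝ, ∀ᵐ ω ∂μ, X ω ≠ x) (E : Set ℝ) (hEc : E.Countable)
    (a : ℕ → ℕ) (c : ℕ → ℝ)
    (hW : ∀ (u v : ℝ) (F Df : ℕ → ℝ → ℝ), (∀ n, Measurable (F n)) → (∀ n, Measurable (Df n)) →
      ∀ δ K B₂ c₀ : ℝ, 0 < δ → 0 ≤ K → 1 ≤ B₂ → 0 < c₀ →
        (∀ (n : ℕ) (x y : ℝ), x ∈ Set.Icc u v → y ∈ Set.Icc u v →
          |F n y - F n x - Df n x * (y - x)| ≤ K * B₂ ^ n * |y - x| ^ (1 + δ)) →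
        Real.log B₂ < (1 + δ) * c₀ * Real.log b →
        (∀ᵐ ω ∂μ, X ω ∈ Set.Ioo u v → Gr b c₀ B₂ δ E 0 0 Df (X ω)) →
        ∀ᵐ ω ∂μ, X ω ∈ Set.Ioo u v →
          Tendsto (fun N : ℕ => ‖∑ i ∈ range N, e (F (a i) (X ω) + c i)‖ / N) atTop (𝓝 0))
    {d k s : ℕ} (β γ K : Fin d → ℝ) (hinj : Function.Injective β) (hβ : ∀ i, 1 < β i)
    (hirr : ∀ i, Real.log (β i) / Real.log b ∉ E) (hγ0 : ∀ i, 0 ≤ γ i) (hγ : ∀ i, γ i < β i)
    (g : Fin s → ℝ → ℝ) (hg : ∀ l, LHol (g l)) (hgz : ∀ l, {x | deriv (g l) x = 0}.Countable)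
    (hgg : ∀ l m, l ≠ m → {x | g l x = g m x}.Countable)
    (P : Fin d → ℝ) (w : Fin d → ℕ → ℝ) (hw : ∀ i n, |w i n - P i * β i ^ n| ≤ K i * γ i ^ n)
    (hw0 : ∀ i, P i = 0 → ∀ n, w i n = 0) (σ : Fin s → ℝ) (hσ : ∀ l, σ l ≠ 0) (H : Fin s → Fin k → ℤ)
    (hPQ : (∃ i, P i ≠ 0) ∨ ∃ l, H l ≠ 0) :
    ∀ᵐ ω ∂μ, (∀ l, 1 < g l (X ω)) → Tendsto (fun N : ℕ => ‖∑ i ∈ range N,
      e ((∑ j, X ω * w j (a i)) + (∑ l, ∑ j : Fin k, σ l * (H l j : ℝ) * g l (X ω) ^ (a i + (j : ℕ))) + c i)‖ / N)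
        atTop (𝓝 0) := by
  classical
  -- the exceptional set
  set N : Set ℝ := (⋃ l, {x | deriv (g l) x = 0}) ∪
    (⋃ l, {x | 1 < g l x ∧ Real.log (g l x) / Real.log b ∈ E}) ∪ (⋃ l, ⋃ i, {x | g l x = β i}) ∪
    (⋃ l, ⋃ m, {x | l ≠ m ∧ g l x = g m x}) ∪
    (⋃ l, {x | H l ≠ 0 ∧ ∑ j : Fin k, (H l j : ℝ) * g l x ^ (j : ℕ) = 0}) with hN
  have hNc : N.Countable := by
    refine ((((Set.countable_iUnion hgz).union
      (Set.countable_iUnion fun l => excE_countable b hb E hEc (g l) (hg l).1 (hgz l))).union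
      (Set.countable_iUnion fun l => Set.countable_iUnion fun i => fiber_countable (g l) (hg l).1 (hgz l) _)).union
      (Set.countable_iUnion fun l => Set.countable_iUnion fun m => ?_)).union (Set.countable_iUnion fun l => ?_)
    · by_cases hlm : l = m
      · have : {x | l ≠ m ∧ g l x = g m x} = ∅ := by
          ext x
          simp [hlm]
        rw [this]
        exact Set.countable_empty
      · exact (hgg l m hlm).mono fun x hx => hx.2
    · by_cases hl : H l = 0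
      · have : {x | H l ≠ 0 ∧ ∑ j : Fin k, (H l j : ℝ) * g l x ^ (j : ℕ) = 0} = ∅ := by
          ext x
          simp [hl]
        rw [this]
        exact Set.countable_empty
      · exact (alg_countable (g l) (hg l).1 (hgz l) (H l) hl).mono fun x hx => hx.2
  have hN2 : ∀ x, x ∉ N → ∀ l, deriv (g l) x ≠ 0 := by
    intro x hx l h
    exact hx (Or.inl (Or.inl (Or.inl (Or.inl (Set.mem_iUnion.2 ⟨l, h⟩)))))
  have hN3 : ∀ x, x ∉ N → ∀ l, 1 < g l x → Real.log (g l x) / Real.log b ∉ E := by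
    intro x hx l h1 h
    exact hx (Or.inl (Or.inl (Or.inl (Or.inr (Set.mem_iUnion.2 ⟨l, h1, h⟩)))))
  have hN4 : ∀ x, x ∉ N → ∀ l i, g l x ≠ β i := by
    intro x hx l i h
    exact hx (Or.inl (Or.inl (Or.inr (Set.mem_iUnion.2 ⟨l, Set.mem_iUnion.2 ⟨i, h⟩⟩))))
  have hN5 : ∀ x, x ∉ N → ∀ l m, l ≠ m → g l x ≠ g m x := by
    intro x hx l m hlm h
    exact hx (Or.inl (Or.inr (Set.mem_iUnion.2 ⟨l, Set.mem_iUnion.2 ⟨m, hlm, h⟩⟩)))
  have hN6 : ∀ x, x ∉ N → ∀ l, H l ≠ 0 → ∑ j : Fin k, (H l j : ℝ) * g l x ^ (j : ℕ) ≠ 0 := by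
    intro x hx l hl h
    exact hx (Or.inr (Set.mem_iUnion.2 ⟨l, hl, h⟩))
  -- the terms
  set F : Fin d ⊕ Fin s → ℕ → ℝ → ℝ := fun t n x => Sum.elim (fun i => x * w i n)
    (fun l => ∑ j : Fin k, σ l * (H l j : ℝ) * g l x ^ (n + (j : ℕ))) t with hF
  set Df : Fin d ⊕ Fin s → ℕ → ℝ → ℝ := fun t n x => Sum.elim (fun i => w i n)
    (fun l => ∑ j : Fin k, σ l * (H l j : ℝ) * (((n + (j : ℕ) : ℕ) : ℝ) * g l x ^ (n + (j : ℕ) - 1) * deriv (g l) x)) t
    with hDf
  set act : Fin d ⊕ Fin s → Prop := Sum.elim (fun i => P i ≠ 0) (fun l => H l ≠ 0) with hact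
  set A : Finset (Fin d ⊕ Fin s) := univ.filter (fun t => act t) with hA
  have hAne : A.Nonempty := by
    rcases hPQ with ⟨i, hi⟩ | ⟨l, hl⟩
    · exact ⟨Sum.inl i, mem_filter.2 ⟨mem_univ _, hi⟩⟩
    · exact ⟨Sum.inr l, mem_filter.2 ⟨mem_univ _, hl⟩⟩
  have hFm : ∀ n, Measurable (fun x => ∑ t ∈ A, F t n x) := by
    intro n
    refine Finset.measurable_fun_sum _ fun t _ => ?_
    rcases t with i | l
    · exact measurable_id.mul_const _
    · exact Finset.measurable_fun_sum _ fun j _ => ((hg l).1.continuous.measurable.pow_const _).const_mul _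
  have hDfm : ∀ n, Measurable (fun x => ∑ t ∈ A, Df t n x) := by
    intro n
    refine Finset.measurable_fun_sum _ fun t _ => ?_
    rcases t with i | l
    · exact measurable_const
    · exact Finset.measurable_fun_sum _ fun j _ =>
        ((((hg l).1.continuous.measurable.pow_const _).const_mul _).mul (measurable_deriv _)).const_mul _
  have h1 := glob17 hna E a c hW
    (fun n x => ∑ t ∈ A, F t n x) (fun n x => ∑ t ∈ A, Df t n x)
    hFm hDfm N {x | ∀ l, 1 < g l x} hNc (by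
      intro x₀ hx₀ hx₀N
      rw [Set.mem_ofPred_eq] at hx₀
      -- the exponent
      have h2 : ∀ᶠ δ in 𝓝[>] (0 : ℝ), (∀ l, HolAt (g l) x₀ δ) ∧ δ < 1 ∧ 0 < δ := by
        refine Filter.Eventually.and (eventually_all.2 fun l => (hg l).eventually x₀)
          (Filter.Eventually.and ?_ self_mem_nhdsWithin)
        exact (eventually_lt_nhds one_pos).filter_mono nhdsWithin_le_nhds
      obtain ⟨δ, hδg, hδ1, hδ0⟩ := h2.exists
      -- the rates
      set rt : Fin d ⊕ Fin s → ℝ := Sum.elim β (fun l => g l x₀) with hrt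
      have hrt1 : ∀ t, 1 < rt t := by
        rintro (i | l)
        · exact hβ i
        · exact hx₀ l
      have hrtinj : Function.Injective rt := by
        rintro (i | l) (j | m) h
        · exact congrArg Sum.inl (hinj h)
        · exact absurd h.symm (hN4 x₀ hx₀N m i)
        · exact absurd h (hN4 x₀ hx₀N l j)
        · by_contra hne
          exact hN5 x₀ hx₀N l m (fun h => hne (congrArg Sum.inr h)) h
      have hmul : ∀ i, TermAt (fun n x => x * w i n) (fun n _ => w i n) x₀ (β i) δ := by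
        intro i
        have hβ0 : 0 < β i := zero_lt_one.trans (hβ i)
        have hK0 : 0 ≤ K i := by
          have := (abs_nonneg _).trans (hw i 0)
          simpa using this
        have hid : HolAt (fun x : ℝ => x) x₀ δ := by
          refine ⟨0, le_rfl, fun x y _ _ => ?_⟩
          simp
        have h5 := mult_term (fun x : ℝ => x) differentiable_id x₀ δ hδ0 hid (β i) (|P i| + K i) hβ0.le (by positivity)
          (w i) (fun n => by
            have h4 : |w i n| ≤ |w i n - P i * β i ^ n| + |P i * β i ^ n| := by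
              have := abs_add_le (w i n - P i * β i ^ n) (P i * β i ^ n)
              rwa [sub_add_cancel] at this
            have h5 : |P i * β i ^ n| = |P i| * β i ^ n := by rw [abs_mul, abs_of_pos (pow_pos hβ0 n)]
            have h6 : K i * γ i ^ n ≤ K i * β i ^ n := by
              have := hγ0 i
              have := (hγ i).le
              gcongr
            have h7 := hw i n
            rw [h5] at h4
            linarith)
        have h6 : (fun (n : ℕ) (x : ℝ) => deriv (fun x : ℝ => x) x * w i n) = fun n _ => w i n := by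
          funext n x
          simp
        rw [h6] at h5
        exact h5
      have hterm : ∀ t, TermAt (F t) (Df t) x₀ (rt t) δ := by
        rintro (i | l)
        · exact hmul i
        · exact pow_termS (g l) (hg l).1 x₀ δ hδ0 hδ1.le (hδg l) (hx₀ l) (fun j => σ l * (H l j : ℝ))
      have hlead : ∀ t, act t → LeadS b E N 0 0 (F t) (Df t) x₀ (rt t) δ := by
        rintro (i | l) ht
        · exact mult17 b E N x₀ δ (β i) (γ i) (K i) (P i) (hβ i) (hirr i) (hγ0 i) (hγ i) ht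
            (w i) (hw i) (hmul i)
        · refine pow_leadS b E N _ _ (g l) (hg l).1 x₀ δ hδ0 hδ1.le (hδg l) (hx₀ l) (fun j => σ l * (H l j : ℝ))
            (fun x hx => hN2 x hx l) (fun x hx h => ?_) (fun x hx h => hN3 x hx l h)
          have h3 : ∑ j : Fin k, σ l * (H l j : ℝ) * g l x ^ (j : ℕ) = σ l * ∑ j : Fin k, (H l j : ℝ) * g l x ^ (j : ℕ) := by
            rw [mul_sum]
            exact sum_congr rfl fun j _ => by ring
          rw [h3] at h
          exact mul_ne_zero (hσ l) (hN6 x hx l ht) h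
      -- the leader
      obtain ⟨t₀, ht₀, hmax⟩ := A.exists_max_image rt hAne
      have ht₀' : act t₀ := (mem_filter.1 ht₀).2
      have hlt : ∀ t ∈ A.erase t₀, rt t < rt t₀ := by
        intro t ht
        exact lt_of_le_of_ne (hmax t (mem_of_mem_erase ht)) (fun h => (ne_of_mem_erase ht) (hrtinj h))
      obtain ⟨r', hr'0, hr'1, hr'2⟩ : ∃ r' : ℝ, 0 ≤ r' ∧ r' < rt t₀ ∧ ∀ t ∈ A.erase t₀, rt t ≤ r' := by
        by_cases hne : (A.erase t₀).Nonempty
        · obtain ⟨t₁, ht₁, hmax₁⟩ := (A.erase t₀).exists_max_image rt hne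
          exact ⟨rt t₁, by linarith [hrt1 t₁], hlt t₁ ht₁, hmax₁⟩
        · rw [Finset.not_nonempty_iff_eq_empty] at hne
          exact ⟨0, le_rfl, by linarith [hrt1 t₀], fun t ht => by rw [hne] at ht; exact absurd ht (notMem_empty t)⟩
      have hrest : TermAt (fun n x => ∑ t ∈ A.erase t₀, F t n x) (fun n x => ∑ t ∈ A.erase t₀, Df t n x) x₀ r' δ :=
        TermAt.sum (A.erase t₀) F Df x₀ r' δ fun t ht => (hterm t).mono (by linarith [hrt1 t]) (hr'2 t ht)
      have ho := hlead t₀ ht₀'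
      have htot := ho.add hr'0 hr'1 hrest
      have e1 : (fun (n : ℕ) (x : ℝ) => F t₀ n x + ∑ t ∈ A.erase t₀, F t n x) = fun n x => ∑ t ∈ A, F t n x := by
        funext n x
        exact Finset.add_sum_erase A (fun t => F t n x) ht₀
      have e2 : (fun (n : ℕ) (x : ℝ) => Df t₀ n x + ∑ t ∈ A.erase t₀, Df t n x) = fun n x => ∑ t ∈ A, Df t n x := by
        funext n x
        exact Finset.add_sum_erase A (fun t => Df t n x) ht₀
      rw [e1, e2] at htot
      exact htot.lc hb hδ0 (hrt1 t₀))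
  filter_upwards [h1] with ω hω hXg
  refine (hω hXg).congr fun M => ?_
  congr 2
  refine Finset.sum_congr rfl fun i _ => ?_
  congr 2
  have h3 : ∑ t ∈ A, F t (a i) (X ω) = ∑ t, F t (a i) (X ω) := by
    apply Finset.sum_subset (Finset.subset_univ A)
    intro t _ ht
    have h4 : ¬ act t := fun h => ht (mem_filter.2 ⟨mem_univ _, h⟩)
    rcases t with j | l
    · have h5 : P j = 0 := not_not.1 h4
      simp [hF, hw0 j h5]
    · have h5 : H l = 0 := not_not.1 h4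
      simp [hF, h5]
  rw [h3, Fintype.sum_sum_type]
  rfl

theorem jointT (h : Con p q φ φ' C r K ε) (hS : Prc μ p q T ξ φ X) [IsProbabilityMeasure μ] (hE : Ergodic T μ)
    (hi : Integrable (fun ω => Real.log |φ' (ξ ω) (X (T ω))|) μ)
    (hX : ∀ f : (ℕ → E) → ℝ, Measurable f → ¬ (X =ᵐ[μ] fun ω => f (pst T ξ ω))) :
    ∃ Z : Set ℝ, Z.Countable ∧ (∀ t ∈ Z, ∃ m : ℤ, m ≠ 0 ∧ ∃ h : Ω → ℂ, Measurable h ∧ (∀ ω, ‖h ω‖ = 1) ∧
        ∀ᵐ ω ∂μ, h (T ω) = Pool.Agent.Helper59.HP.ex (m / t * tau p q T ξ φ ω) * h ω) ∧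
      ∀ (D : ℕ) (a : ℕ → ℕ), StrictMono a → (∀ n, a n ≤ D * (n + 1)) → ∀ (d k s : ℕ) (β γ K : Fin d → ℝ),
      Function.Injective β → (∀ i, 1 < β i) → (∀ i, Real.log (β i) ∉ Z) → (∀ i, 0 ≤ γ i) → (∀ i, γ i < β i) →
      ∀ (ρ : Fin d → Fin k → ℝ), (∀ i, LinearIndependent ℚ (ρ i)) → ∀ (v : Fin d → Fin k → ℕ → ℝ),
      (∀ i j n, |v i j n - ρ i j * β i ^ n| ≤ K i * γ i ^ n) →
      ∀ (g : Fin s → ℝ → ℝ), (∀ l, Differentiable ℝ (g l)) →
      (∀ l, ∀ M : ℝ, ∃ K δ : ℝ, 0 < δ ∧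
        ∀ x y : ℝ, |x| ≤ M → |y| ≤ M → |deriv (g l) x - deriv (g l) y| ≤ K * |x - y| ^ δ) →
      (∀ l, {x : ℝ | deriv (g l) x = 0}.Countable) → (∀ l m, l ≠ m → {x | g l x = g m x}.Countable) →
      ∀ (σ : Fin s → ℝ), (∀ l, σ l ≠ 0) → ∀ (c : ℕ → (Fin d × Fin k) ⊕ (Fin s × Fin k) → ℝ),
      ∀ᵐ ω ∂μ, (∀ l, 1 < g l (X ω)) → ∀ h : (Fin d × Fin k) ⊕ (Fin s × Fin k) → ℤ, h ≠ 0 →
        Tendsto (fun N : ℕ => (∑ n ∈ range N, e (∑ x, h x * (Sum.elim
          (fun y : Fin d × Fin k => X ω * v y.1 y.2 (a n))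
          (fun y : Fin s × Fin k => σ y.1 * g y.1 (X ω) ^ (a n + (y.2 : ℕ))) x + c n x))) / N)
          atTop (𝓝 0) := by
  obtain ⟨Z, hZc, hZe, hW⟩ := weylT h hS hE hi hX
  have hna := X_ne h hS hE hX
  refine ⟨Z, hZc, hZe, ?_⟩
  intro D a ha haD d k s β γ K hinj hβ hirr hγ0 hγ ρ hρ v hv g hg hg' hgz hgg σ hσ c
  have hirr' : ∀ i, Real.log (β i) / Real.log (Real.exp 1) ∉ Z := by
    intro i
    rw [Real.log_exp, div_one]
    exact hirr i
  have h1 : ∀ᵐ ω ∂μ, ∀ h : (Fin d × Fin k) ⊕ (Fin s × Fin k) → ℤ, h ≠ 0 → (∀ l, 1 < g l (X ω)) →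
      Tendsto (fun N : ℕ => (∑ n ∈ range N, e (∑ x, h x * (Sum.elim
        (fun y : Fin d × Fin k => X ω * v y.1 y.2 (a n))
        (fun y : Fin s × Fin k => σ y.1 * g y.1 (X ω) ^ (a n + (y.2 : ℕ))) x + c n x))) / N)
        atTop (𝓝 0) := by
    rw [ae_all_iff]
    intro h
    by_cases hh : h = 0
    · exact Eventually.of_forall fun ω hc => absurd hh hc
    have hPne : ∀ i, (∑ j : Fin k, (h (Sum.inl (i, j)) : ℝ) * ρ i j) = 0 → ∀ j, h (Sum.inl (i, j)) = 0 := by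
      intro i h0 j
      have h2 := Fintype.linearIndependent_iff.1 (hρ i) (fun j => ((h (Sum.inl (i, j)) : ℤ) : ℚ)) (by
        rw [← h0]
        refine Finset.sum_congr rfl fun j _ => ?_
        rw [Rat.smul_def]
        push_cast
        ring) j
      exact_mod_cast h2
    have hPQ : (∃ i, (∑ j : Fin k, (h (Sum.inl (i, j)) : ℝ) * ρ i j) ≠ 0) ∨
        ∃ l, (fun j : Fin k => h (Sum.inr (l, j))) ≠ 0 := by
      obtain ⟨t, ht⟩ := Function.ne_iff.mp hh
      rcases t with ⟨i, j⟩ | ⟨l, j⟩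
      · left
        exact ⟨i, fun h0 => ht (hPne i h0 j)⟩
      · right
        exact ⟨l, fun h0 => ht (congrFun h0 j)⟩
    have h2 := joint17 (lt_of_lt_of_le one_lt_two (by have := Real.add_one_le_exp 1; linarith)) hna Z hZc a
      (fun n => ∑ x, h x * c n x) (hW D a ha haD (fun n => ∑ x, h x * c n x)) β γ
      (fun i => (∑ j : Fin k, |(h (Sum.inl (i, j)) : ℝ)|) * K i) hinj hβ hirr' hγ0 hγ g
      (fun l => ⟨hg l, hg' l⟩) hgz hgg
      (fun i => ∑ j : Fin k, (h (Sum.inl (i, j)) : ℝ) * ρ i j)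
      (fun i n => ∑ j : Fin k, (h (Sum.inl (i, j)) : ℝ) * v i j n) (fun i n => by
        have h3 : (∑ j : Fin k, (h (Sum.inl (i, j)) : ℝ) * v i j n) - (∑ j : Fin k, (h (Sum.inl (i, j)) : ℝ) * ρ i j) * β i ^ n =
            ∑ j : Fin k, (h (Sum.inl (i, j)) : ℝ) * (v i j n - ρ i j * β i ^ n) := by
          rw [Finset.sum_mul, ← Finset.sum_sub_distrib]
          refine Finset.sum_congr rfl fun j _ => ?_
          ring
        rw [h3, mul_assoc, Finset.sum_mul]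
        refine (Finset.abs_sum_le_sum_abs _ _).trans (Finset.sum_le_sum fun j _ => ?_)
        rw [abs_mul]
        exact mul_le_mul_of_nonneg_left (hv i j n) (abs_nonneg _)) (fun i h0 n => by
        apply Finset.sum_eq_zero
        intro j _
        rw [hPne i h0 j, Int.cast_zero, zero_mul])
      σ hσ (fun l j => h (Sum.inr (l, j))) hPQ
    filter_upwards [h2] with ω hω _ hX
    apply tendsto_of_normS
    refine (hω hX).congr fun N => ?_
    congr 2
    refine Finset.sum_congr rfl fun n _ => ?_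
    congr 1
    have e1 : ∑ x, (h x : ℝ) * (Sum.elim
        (fun y : Fin d × Fin k => X ω * v y.1 y.2 (a n))
        (fun y : Fin s × Fin k => σ y.1 * g y.1 (X ω) ^ (a n + (y.2 : ℕ))) x + c n x) =
        (∑ x, (h x : ℝ) * (Sum.elim
        (fun y : Fin d × Fin k => X ω * v y.1 y.2 (a n))
        (fun y : Fin s × Fin k => σ y.1 * g y.1 (X ω) ^ (a n + (y.2 : ℕ))) x)) + ∑ x, h x * c n x := by
      rw [← Finset.sum_add_distrib]
      refine Finset.sum_congr rfl fun x _ => ?_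
      ring
    have e2 : ∑ x, (h x : ℝ) * (Sum.elim
        (fun y : Fin d × Fin k => X ω * v y.1 y.2 (a n))
        (fun y : Fin s × Fin k => σ y.1 * g y.1 (X ω) ^ (a n + (y.2 : ℕ))) x) =
        (∑ j, X ω * ∑ i : Fin k, (h (Sum.inl (j, i)) : ℝ) * v j i (a n)) +
          ∑ l, ∑ j : Fin k, σ l * (h (Sum.inr (l, j)) : ℝ) * g l (X ω) ^ (a n + (j : ℕ)) := by
      rw [Fintype.sum_sum_type, Fintype.sum_prod_type, Fintype.sum_prod_type]
      congr 1
      · refine Finset.sum_congr rfl fun i _ => ?_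
        rw [Finset.mul_sum]
        refine Finset.sum_congr rfl fun j _ => ?_
        rw [Sum.elim_inl]
        ring
      · refine Finset.sum_congr rfl fun l _ => ?_
        refine Finset.sum_congr rfl fun j _ => ?_
        rw [Sum.elim_inr]
        ring
    rw [e1, e2]
  filter_upwards [h1] with ω hω hX h hh
  exact hω h hh hX


end Pool.Agent.Helper46.HT
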