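import Pool.Agent.Helper46.HT.Bess
import Pool.Agent.Helper59.HP.Tm

/-!
# HT: block averages under a roof function
-/

set_option autoImplicit false

namespace Pool.Agent.Helper46.HT

open Finset MeasureTheory Filter Topology
open Pool.Agent.Helper59.HP (ex norm_ex ex_add ex_zero continuous_ex pr memLp_of_bdd fq fq_norm q_cont fq_meas fq_lip Bump
  per per_cont per_coeff per_add_one per_nonneg per_le per_lip kern int_ex erg_avg fq_zero_int JJ_bd ex_lip)
open Pool.Agent.Helper32.HP (IsQ JJ)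

variable {Ω : Type*} [MeasurableSpace Ω] {μ : Measure Ω} {T : Ω → Ω} {τ : Ω → ℝ} {q : Ω → ℝ → ℝ} {Λ A : ℝ}

theorem isq_bumpS (hq : IsQ q Λ A) (w : Ω) (s : ℝ) : Bump (fun u => q w (u - s)) Λ s A where
  l := fun y y' => by
    have := hq.l w (y - s) (y' - s)
    rwa [sub_sub_sub_cancel_right] at this
  nn := fun y => hq.nn _ _
  le1 := fun y => hq.le1 _ _
  s := fun y hy => hq.s w _ (by
    rcases hy with h | h
    · left; linarith
    · right; linarith)

omit [MeasurableSpace Ω] in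
/-- the integral of the shifted weight -/
theorem fq_shiftS (l : ℝ) (w : Ω) (s : ℝ) :
    ∫ u, ((q w (u - s) : ℝ) : ℂ) * ex (-(l * u)) = ex (-(l * s)) * fq q l w := by
  unfold fq
  have h := integral_sub_right_eq_self (μ := (volume : Measure ℝ))
    (fun u : ℝ => ((q w u : ℝ) : ℂ) * ex (-(l * (u + s)))) s
  simp only [sub_add_cancel] at h
  rw [h, ← integral_const_mul]
  congr 1
  ext u
  rw [show -(l * (u + s)) = -(l * s) + -(l * u) by ring, ex_add]
  ring

/-- the block average -/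
noncomputable def avS (T : Ω → Ω) (τ : Ω → ℝ) (q : Ω → ℝ → ℝ) (α : ℝ) (K : ℕ) (w : Ω) (x : ℝ) : ℝ :=
  (K : ℝ)⁻¹ * ∑ k ∈ range K, per α (fun u => q (T^[k] w) (u - Sm τ T k w)) x

theorem av_coeffS (hΛ : 0 ≤ Λ) (hA : 0 ≤ A) (hq : IsQ q Λ A) {α : ℝ} (hα : 0 < α) (K : ℕ) (w : Ω)
    (m : ℤ) : ∫ t in (0:ℝ)..1, (avS T τ q α K w t : ℂ) * ex (-(m * t))
      = (α:ℂ)⁻¹ * taS T τ (fq q (m / α)) (m / α) K w := by
  have hex := continuous_ex
  have h1 : ∀ t : ℝ, (avS T τ q α K w t : ℂ) * ex (-(m * t)) = ∑ k ∈ range K,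
      (K:ℂ)⁻¹ * ((per α (fun u => q (T^[k] w) (u - Sm τ T k w)) t : ℂ) * ex (-(m * t))) := by
    intro t
    unfold avS
    push_cast
    rw [mul_sum, sum_mul]
    exact sum_congr rfl fun k _ => by ring
  simp_rw [h1]
  rw [intervalIntegral.integral_finsetSum]
  · unfold taS
    rw [mul_sum, mul_sum]
    refine sum_congr rfl fun k _ => ?_
    rw [intervalIntegral.integral_const_mul, per_coeff hα hΛ (isq_bumpS hq _ _), fq_shiftS]
    ring
  · intro k _
    apply Continuous.intervalIntegrable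
    have := per_cont hα hA hΛ (isq_bumpS hq (T^[k] w) (Sm τ T k w))
    fun_prop

/-- the error functions -/
noncomputable def tmS (μ : Measure Ω) (T : Ω → Ω) (τ : Ω → ℝ) (q : Ω → ℝ → ℝ) (A l : ℝ) (K : ℕ) (w : Ω) : ℝ :=
  ‖taS T τ (fq q l) l K w - (if l = 0 then ((JJ μ q A : ℝ) : ℂ) else 0)‖

theorem avS_nonneg (hq : IsQ q Λ A) (α : ℝ) (K : ℕ) (w : Ω) (x : ℝ) : 0 ≤ avS T τ q α K w x := by
  unfold avS
  exact mul_nonneg (by positivity) (sum_nonneg fun k _ => per_nonneg (isq_bumpS hq _ _) _)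

theorem av_boundS (hΛ : 0 ≤ Λ) (hA : 0 ≤ A) (hq : IsQ q Λ A) {α : ℝ} (hα : 0 < α) {ε : ℝ}
    (hε : 0 < ε) : ∃ (F : Finset ℤ) (a : ℤ → ℝ), (∀ m, 0 ≤ a m) ∧ ∀ (K : ℕ) (w : Ω) (x : ℝ),
      0 < K → avS T τ q α K w x ≤ JJ μ q A / α + ε + ∑ m ∈ F, a m * tmS μ T τ q A (m / α) K w := by
  set I := JJ μ q A with hI
  obtain ⟨F, a, hF⟩ := kern (Λ := 2 * (A / α + 1) * (Λ * α)) (B := A / α + 1)
    (ε := ε / (1 + |I| / α)) (by positivity) (by positivity) (by positivity)
  refine ⟨F, fun m => ‖a m‖ * α⁻¹, fun m => by positivity, fun K w x hK => ?_⟩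
  have hK' : (0:ℝ) < K := by exact_mod_cast hK
  set ε' := ε / (1 + |I| / α) with hε'
  have hav := hF (avS T τ q α K w) (fun x => by
      unfold avS
      congr 1
      exact sum_congr rfl fun k _ => per_add_one _ _ _) (fun x => by
      unfold avS
      rw [abs_of_nonneg (mul_nonneg (inv_nonneg.2 hK'.le) (sum_nonneg fun k _ =>
        per_nonneg (isq_bumpS hq _ _) _))]
      calc (K:ℝ)⁻¹ * ∑ k ∈ range K, per α (fun u => q (T^[k] w) (u - Sm τ T k w)) x
          ≤ (K:ℝ)⁻¹ * ∑ k ∈ range K, (A / α + 1) := by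
            gcongr
            exact per_le hα hA (isq_bumpS hq _ _) _
        _ = A / α + 1 := by
            rw [sum_const, card_range, nsmul_eq_mul]; field_simp) (fun x y => by
      unfold avS
      rw [← mul_sub, ← sum_sub_distrib, abs_mul, abs_of_pos (inv_pos.2 hK')]
      calc (K:ℝ)⁻¹ * |∑ k ∈ range K, (per α (fun u => q (T^[k] w) (u - Sm τ T k w)) x -
            per α (fun u => q (T^[k] w) (u - Sm τ T k w)) y)|
          ≤ (K:ℝ)⁻¹ * ∑ k ∈ range K, 2 * (A / α + 1) * (Λ * α) * |x - y| := by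
            gcongr
            refine (abs_sum_le_sum_abs _ _).trans (sum_le_sum fun k _ => ?_)
            exact per_lip hα hA hΛ (isq_bumpS hq _ _) _ _
        _ = 2 * (A / α + 1) * (Λ * α) * |x - y| := by
            rw [sum_const, card_range, nsmul_eq_mul]; field_simp) x
  have h1 := hF (fun _ => 1) (fun _ => rfl) (fun _ => by
      rw [abs_one]; have : 0 ≤ A / α := by positivity
      linarith) (fun x y => by simp; positivity) x
  simp_rw [av_coeffS hΛ hA hq hα] at hav
  simp only [Complex.ofReal_one, one_mul, int_ex] at h1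
  have h2 : ((avS T τ q α K w x : ℂ) - ((I / α : ℝ) : ℂ)) =
      ((avS T τ q α K w x : ℂ) - ∑ m ∈ F, a m * (ex (m * x) * ((α:ℂ)⁻¹ *
        taS T τ (fq q (m / α)) (m / α) K w)))
      + (∑ m ∈ F, a m * (ex (m * x) * ((α:ℂ)⁻¹ * (taS T τ (fq q (m / α)) (m / α) K w -
        (if m = 0 then (I:ℂ) else 0)))))
      - ((I / α : ℝ) : ℂ) * (1 - ∑ m ∈ F, a m * (ex (m * x) * (if m = 0 then 1 else 0))) := by
    have h3 : (∑ m ∈ F, a m * (ex (m * x) * ((α:ℂ)⁻¹ * (taS T τ (fq q (m / α)) (m / α) K w -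
        (if m = 0 then (I:ℂ) else 0))))) = (∑ m ∈ F, a m * (ex (m * x) * ((α:ℂ)⁻¹ *
        taS T τ (fq q (m / α)) (m / α) K w))) -
        ((I / α : ℝ) : ℂ) * ∑ m ∈ F, a m * (ex (m * x) * (if m = 0 then 1 else 0)) := by
      rw [mul_sum, ← sum_sub_distrib]
      refine sum_congr rfl fun m _ => ?_
      split_ifs
      · push_cast; ring
      · ring
    rw [h3]; ring
  have h4 : avS T τ q α K w x - I / α ≤ ‖((avS T τ q α K w x : ℂ) - ((I / α : ℝ) : ℂ))‖ := by
    rw [← Complex.ofReal_sub, Complex.norm_real]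
    exact le_abs_self _
  have h5 : ‖((avS T τ q α K w x : ℂ) - ((I / α : ℝ) : ℂ))‖ ≤
      ε' + (∑ m ∈ F, ‖a m‖ * α⁻¹ * tmS μ T τ q A (m / α) K w) + |I| / α * ε' := by
    rw [h2]
    refine (norm_sub_le _ _).trans (add_le_add ((norm_add_le _ _).trans (add_le_add hav ?_)) ?_)
    · refine (norm_sum_le _ _).trans (sum_le_sum fun m _ => ?_)
      rw [norm_mul, norm_mul, norm_mul, norm_ex, one_mul, norm_inv, Complex.norm_real,
        Real.norm_eq_abs, abs_of_pos hα, mul_assoc]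
      unfold tmS
      have h6 : (m:ℝ) / α = 0 ↔ m = 0 := by
        rw [div_eq_zero_iff]
        simp [hα.ne']
      simp only [h6]
      exact le_refl _
    · rw [norm_mul, Complex.norm_real, Real.norm_eq_abs, abs_div, abs_of_pos hα]
      gcongr
  have h7 : ε' + |I| / α * ε' = ε := by
    rw [hε']; field_simp
  linarith

theorem tmS_meas (hT : Measurable T) (hτ : Measurable τ) (hΛ : 0 ≤ Λ) (hq : IsQ q Λ A) (l : ℝ) (K : ℕ) :
    Measurable (tmS μ T τ q A l K) := by
  unfold tmS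
  exact ((taS_meas hT hτ (fq_meas hΛ hq l) l K).sub_const _).norm

theorem tmS_bdd [IsProbabilityMeasure μ] (hA : 0 ≤ A) (hq : IsQ q Λ A) (l : ℝ) (K : ℕ) (w : Ω) :
    |tmS μ T τ q A l K w| ≤ 2 * A := by
  unfold tmS
  rw [abs_of_nonneg (norm_nonneg _)]
  refine (norm_sub_le _ _).trans ?_
  have h1 := taS_bdd (T := T) (τ := τ) hA (fq_norm hA hq l) l K w
  have h2 : ‖(if l = 0 then ((JJ μ q A : ℝ) : ℂ) else 0)‖ ≤ A := by
    split_ifs
    · rw [Complex.norm_real, Real.norm_eq_abs]; exact JJ_bd hA hq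
    · simpa using hA
  linarith

omit [MeasurableSpace Ω] in
theorem Sm_mono (hτ0 : ∀ ω, 0 ≤ τ ω) {j k : ℕ} (hjk : j ≤ k) (w : Ω) : Sm τ T j w ≤ Sm τ T k w := by
  unfold Sm
  exact sum_le_sum_of_subset_of_nonneg (range_mono hjk) fun i _ _ => hτ0 _

omit [MeasurableSpace Ω] in
theorem Sm_nonneg (hτ0 : ∀ ω, 0 ≤ τ ω) (k : ℕ) (w : Ω) : 0 ≤ Sm τ T k w := sum_nonneg fun _ _ => hτ0 _

theorem tmS_lip (hΛ : 0 ≤ Λ) (hA : 0 ≤ A) (hq : IsQ q Λ A) (hτ0 : ∀ ω, 0 ≤ τ ω) {l l' : ℝ} (hl : l ≠ 0) (hl' : l' ≠ 0)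
    (K : ℕ) (w : Ω) (M : ℝ) (hM : Sm τ T K w ≤ M) : |tmS μ T τ q A l K w - tmS μ T τ q A l' K w| ≤
      (2 * Real.pi * A * A + 2 * Real.pi * M * A) * |l - l'| := by
  have hM0 : 0 ≤ M := (Sm_nonneg hτ0 K w).trans hM
  unfold tmS
  rw [if_neg hl, if_neg hl', sub_zero, sub_zero]
  refine (abs_norm_sub_norm_le _ _).trans ?_
  unfold taS
  rcases Nat.eq_zero_or_pos K with h | hK
  · subst h; simp; positivity
  have hK' : (0:ℝ) < K := by exact_mod_cast hK
  rw [← mul_sub, ← sum_sub_distrib, norm_mul, norm_inv, Complex.norm_natCast]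
  calc (K:ℝ)⁻¹ * ‖∑ k ∈ range K, (ex (-(l * Sm τ T k w)) * fq q l (T^[k] w) -
        ex (-(l' * Sm τ T k w)) * fq q l' (T^[k] w))‖
      ≤ (K:ℝ)⁻¹ * ∑ k ∈ range K,
        ((2 * Real.pi * A * A + 2 * Real.pi * M * A) * |l - l'|) := by
        gcongr
        refine (norm_sum_le _ _).trans (sum_le_sum fun k hk => ?_)
        have h1 : ex (-(l * Sm τ T k w)) * fq q l (T^[k] w) - ex (-(l' * Sm τ T k w)) * fq q l' (T^[k] w)
            = ex (-(l * Sm τ T k w)) * (fq q l (T^[k] w) - fq q l' (T^[k] w)) +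
              (ex (-(l * Sm τ T k w)) - ex (-(l' * Sm τ T k w))) * fq q l' (T^[k] w) := by ring
        rw [h1, add_mul]
        refine (norm_add_le _ _).trans (add_le_add ?_ ?_)
        · rw [norm_mul, norm_ex, one_mul]
          exact fq_lip hΛ hA hq _ _ _
        · rw [norm_mul]
          calc ‖ex (-(l * Sm τ T k w)) - ex (-(l' * Sm τ T k w))‖ * ‖fq q l' (T^[k] w)‖
              ≤ (2 * Real.pi * |-(l * Sm τ T k w) - -(l' * Sm τ T k w)|) * A :=
                mul_le_mul (ex_lip _ _) (fq_norm hA hq _ _) (norm_nonneg _) (by positivity)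
            _ = 2 * Real.pi * Sm τ T k w * A * |l - l'| := by
                rw [show -(l * Sm τ T k w) - -(l' * Sm τ T k w) = -(Sm τ T k w * (l - l')) by ring, abs_neg, abs_mul,
                  abs_of_nonneg (Sm_nonneg hτ0 k w)]
                ring
            _ ≤ 2 * Real.pi * M * A * |l - l'| := by
                have : Sm τ T k w ≤ M := (Sm_mono hτ0 (mem_range.1 hk).le w).trans hM
                gcongr
    _ = _ := by
        rw [sum_const, card_range, nsmul_eq_mul]; field_simp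

/-- the mean of the error functions tends to zero outside of a countable set -/
theorem tmS_mean [IsProbabilityMeasure μ] (hT : Ergodic T μ) (hτm : Measurable τ) (hτ : Integrable τ μ) (hΛ : 0 ≤ Λ)
    (hA : 0 ≤ A) (hq : IsQ q Λ A) (k : ℕ) (hk : ∀ ω, A ≤ Sm τ T k ω) : ∃ S : Set ℝ, S.Countable ∧
      (∀ l ∈ S, ∃ h : Ω → ℂ, Measurable h ∧ (∀ ω, ‖h ω‖ = 1) ∧ ∀ᵐ ω ∂μ, h (T ω) = ex (l * τ ω) * h ω) ∧
      ∀ l : ℝ, l ∉ S ∨ l = 0 → Tendsto (fun K : ℕ => ∫ w, tmS μ T τ q A l K w ∂μ) atTop (𝓝 0) := by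
  refine ⟨_, bad_countable hT hτm hτ hΛ hA hq k hk, fun l hl => ?_, fun l hl => ?_⟩
  · obtain ⟨h, a, h1, h2, h3, -, -⟩ := eig_exists hT hτm (fq_meas hΛ hq l) (fq_norm hA hq l) hl
    exact ⟨h, h1, h2, h3⟩
  by_cases h0 : l = 0
  · subst h0
    have h1 := erg_avg hT (h := fun w => (fq q 0 w).re)
      (Complex.measurable_re.comp (fq_meas hΛ hq 0)) (C := A)
      (fun x => (Complex.abs_re_le_norm _).trans (fq_norm hA hq 0 x))
    have h2 := fq_zero_int (μ := μ) hA hq
    have h3 : ∀ᵐ w ∂μ, Tendsto (fun K : ℕ => tmS μ T τ q A 0 K w) atTop (𝓝 0) := by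
      filter_upwards [h1] with w hw
      rw [h2.1] at hw
      have h4 : ∀ K : ℕ, tmS μ T τ q A 0 K w =
          |(∑ k ∈ range K, (fq q 0 (T^[k] w)).re) / K - JJ μ q A| := by
        intro K
        unfold tmS taS
        rw [if_pos rfl]
        simp only [zero_mul, neg_zero, ex_zero, one_mul]
        have h5 : (K:ℂ)⁻¹ * ∑ k ∈ range K, fq q 0 (T^[k] w) =
            (((∑ k ∈ range K, (fq q 0 (T^[k] w)).re) / K : ℝ) : ℂ) := by
          push_cast
          rw [div_eq_inv_mul]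
          congr 1
          exact sum_congr rfl fun k _ => h2.2 _
        rw [h5, ← Complex.ofReal_sub, Complex.norm_real, Real.norm_eq_abs]
      simp_rw [h4]
      have h6 := (hw.sub_const (JJ μ q A)).abs
      simpa using h6
    have h7 := tendsto_integral_of_dominated_convergence (μ := μ) (fun _ => 2 * A)
      (F := fun K w => tmS μ T τ q A 0 K w) (f := fun _ => 0)
      (fun K => (tmS_meas hT.measurable hτm hΛ hq 0 K).aestronglyMeasurable)
      (integrable_const _) (fun K => Eventually.of_forall fun w => by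
        rw [Real.norm_eq_abs]; exact tmS_bdd hA hq 0 K w) h3
    simpa using h7
  · have h2 := hl.resolve_right h0
    rw [Set.mem_ofPred_eq, not_not] at h2
    have h1 := taS_tendsto hT.toMeasurePreserving hτm (fq_meas hΛ hq l) (fq_norm hA hq l) h2
    refine h1.congr fun K => ?_
    refine integral_congr_ae (Eventually.of_forall fun w => ?_)
    simp only [tmS, if_neg h0, sub_zero]

open Classical in
/-- long blocks -/
noncomputable def badf (T : Ω → Ω) (τ : Ω → ℝ) (M K : ℕ) (w : Ω) : ℝ := if (M : ℝ) < Sm τ T K w then 1 else 0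

omit [MeasurableSpace Ω] in
theorem badf_nonneg (M K : ℕ) (w : Ω) : 0 ≤ badf T τ M K w := by
  unfold badf
  split_ifs
  · exact zero_le_one
  · exact le_rfl

omit [MeasurableSpace Ω] in
theorem badf_le_one (M K : ℕ) (w : Ω) : badf T τ M K w ≤ 1 := by
  unfold badf
  split_ifs
  · exact le_rfl
  · exact zero_le_one

theorem badf_meas (hT : Measurable T) (hτ : Measurable τ) (M K : ℕ) : Measurable (badf T τ M K) := by
  unfold badf
  exact Measurable.ite (measurableSet_lt measurable_const (Sm_meas hT hτ K)) measurable_const measurable_const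

theorem badf_int [IsProbabilityMeasure μ] (hT : Measurable T) (hτ : Measurable τ) (M K : ℕ) : Integrable (badf T τ M K) μ :=
  (integrable_const (1 : ℝ)).mono' (badf_meas hT hτ M K).aestronglyMeasurable (Eventually.of_forall fun w => by
    rw [Real.norm_eq_abs, abs_of_nonneg (badf_nonneg M K w)]
    exact badf_le_one M K w)

theorem badf_tendsto [IsProbabilityMeasure μ] (hT : Measurable T) (hτ : Measurable τ) (K : ℕ) :
    Tendsto (fun M : ℕ => ∫ w, badf T τ M K w ∂μ) atTop (𝓝 0) := by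
  have := tendsto_integral_of_dominated_convergence (μ := μ) (F := fun (M : ℕ) w => badf T τ M K w) (f := fun _ => 0)
    (fun _ => 1) (fun M => (badf_meas hT hτ M K).aestronglyMeasurable) (integrable_const _)
    (fun M => Eventually.of_forall fun w => by
      rw [Real.norm_eq_abs, abs_of_nonneg (badf_nonneg M K w)]
      exact badf_le_one M K w) (Eventually.of_forall fun w => by
      obtain ⟨M₀, hM₀⟩ := exists_nat_ge (Sm τ T K w)
      apply tendsto_const_nhds.congr'
      filter_upwards [eventually_ge_atTop M₀] with M hM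
      have h1 : Sm τ T K w ≤ M := hM₀.trans (by exact_mod_cast hM)
      unfold badf
      rw [if_neg (not_lt.2 h1)])
  simpa using this

/-- the uniform ergodic theorem for the error functions -/
theorem tmS_birk [IsProbabilityMeasure μ] (hT : Ergodic T μ) (hτm : Measurable τ) (hτ0 : ∀ ω, 0 ≤ τ ω) (hΛ : 0 ≤ Λ)
    (hA : 0 ≤ A) (hq : IsQ q Λ A) : ∀ᵐ w ∂μ, (∀ (K M : ℕ), ∀ ε : ℝ, 0 < ε → ∀ᶠ N : ℕ in atTop,
      ∑ j ∈ range N, badf T τ M K (T^[j] w) ≤ N * ((∫ w, badf T τ M K w ∂μ) + ε)) ∧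
      ∀ (K : ℕ) (l : ℝ), ∀ ε : ℝ, 0 < ε → ∀ᶠ N : ℕ in atTop,
      ∑ j ∈ range N, tmS μ T τ q A l K (T^[j] w) ≤ N * ((∫ w, tmS μ T τ q A l K w ∂μ) + ε) := by
  have h1 : ∀ᵐ w ∂μ, ∀ (K : ℕ) (r : ℚ), Tendsto (fun n : ℕ =>
      (∑ k ∈ range n, tmS μ T τ q A r K (T^[k] w)) / n) atTop
      (𝓝 (∫ x, tmS μ T τ q A r K x ∂μ)) := by
    rw [ae_all_iff]; intro K
    rw [ae_all_iff]; intro r
    exact erg_avg hT (tmS_meas hT.measurable hτm hΛ hq r K) (tmS_bdd hA hq r K)
  have h2 : ∀ᵐ w ∂μ, ∀ (K M : ℕ), Tendsto (fun n : ℕ =>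
      (∑ k ∈ range n, badf T τ M K (T^[k] w)) / n) atTop (𝓝 (∫ x, badf T τ M K x ∂μ)) := by
    rw [ae_all_iff]; intro K
    rw [ae_all_iff]; intro M
    exact erg_avg hT (badf_meas hT.measurable hτm M K) (C := 1) fun x => by
      rw [abs_of_nonneg (badf_nonneg M K x)]
      exact badf_le_one M K x
  have hconv : ∀ {f : ℕ → ℝ} {L : ℝ}, Tendsto (fun n : ℕ => f n / n) atTop (𝓝 L) → ∀ ε : ℝ, 0 < ε →
      ∀ᶠ N : ℕ in atTop, f N ≤ N * (L + ε) := by
    intro f L h ε hε
    filter_upwards [h.eventually (gt_mem_nhds (show L < L + ε by linarith)), eventually_gt_atTop 0] with N h3 h4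
    have h5 : (0:ℝ) < N := by exact_mod_cast h4
    rw [div_lt_iff₀ h5] at h3
    linarith
  filter_upwards [h1, h2] with w hw1 hw2
  refine ⟨fun K M ε hε => hconv (hw2 K M) ε hε, fun K l ε hε => ?_⟩
  by_cases h0 : l = 0
  · subst h0
    have := hconv (hw1 K 0) ε hε
    simpa using this
  · obtain ⟨M, hM⟩ := ((badf_tendsto (μ := μ) hT.measurable hτm K).eventually
      (gt_mem_nhds (show (0 : ℝ) < ε / (16 * (A + 1)) by positivity))).exists
    set C := 2 * Real.pi * A * A + 2 * Real.pi * M * A with hC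
    have hC0 : 0 ≤ C := by positivity
    have hl0 : 0 < |l| := abs_pos.2 h0
    obtain ⟨r, hr1, hr2⟩ := exists_rat_btwn (show l < l + min (|l| / 2) (ε / (8 * (C + 1))) by
      have : 0 < min (|l| / 2) (ε / (8 * (C + 1))) := by positivity
      linarith)
    have hr3 : |l - r| ≤ min (|l| / 2) (ε / (8 * (C + 1))) := by
      rw [abs_le]; constructor <;> linarith
    have hr0 : (r:ℝ) ≠ 0 := by
      intro h
      rw [h, sub_zero] at hr3
      have := hr3.trans (min_le_left _ _)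
      linarith
    have hclose : ∀ x, |tmS μ T τ q A l K x - tmS μ T τ q A r K x| ≤ ε / 8 + 2 * A * badf T τ M K x := by
      intro x
      by_cases hx : (M : ℝ) < Sm τ T K x
      · have e1 : badf T τ M K x = 1 := by
          unfold badf
          rw [if_pos hx]
        rw [e1, mul_one]
        have a1 := tmS_bdd (μ := μ) (T := T) (τ := τ) hA hq l K x
        have a2 := tmS_bdd (μ := μ) (T := T) (τ := τ) hA hq r K x
        have a3 : 0 ≤ tmS μ T τ q A l K x := norm_nonneg _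
        have a4 : 0 ≤ tmS μ T τ q A r K x := norm_nonneg _
        rw [abs_of_nonneg a3] at a1
        rw [abs_of_nonneg a4] at a2
        rw [abs_le]
        constructor <;> linarith
      · have e1 : badf T τ M K x = 0 := by
          unfold badf
          rw [if_neg hx]
        rw [e1, mul_zero, add_zero]
        refine (tmS_lip hΛ hA hq hτ0 h0 hr0 K x M (not_lt.1 hx)).trans ?_
        calc C * |l - r| ≤ C * (ε / (8 * (C + 1))) := by
              gcongr; exact hr3.trans (min_le_right _ _)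
          _ ≤ ε / 8 := by
              rw [mul_div_assoc', div_le_div_iff₀ (by positivity) (by positivity)]
              nlinarith
    have hint : ∀ l : ℝ, Integrable (fun x => tmS μ T τ q A l K x) μ := fun l =>
      Integrable.of_bound (tmS_meas hT.measurable hτm hΛ hq l K).aestronglyMeasurable (2 * A)
        (Eventually.of_forall fun x => by rw [Real.norm_eq_abs]; exact tmS_bdd hA hq l K x)
    have hbi := badf_int (μ := μ) hT.measurable hτm M K
    have hI : (∫ x, tmS μ T τ q A r K x ∂μ) ≤ (∫ x, tmS μ T τ q A l K x ∂μ) + (ε / 8 + 2 * A * ∫ x, badf T τ M K x ∂μ) := by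
      have e1 : (∫ x, tmS μ T τ q A r K x ∂μ) ≤ ∫ x, (tmS μ T τ q A l K x + (ε / 8 + 2 * A * badf T τ M K x)) ∂μ := by
        refine integral_mono (hint _) ((hint _).add ((integrable_const _).add (hbi.const_mul _))) fun x => ?_
        have := hclose x
        rw [abs_le] at this
        simp only
        linarith [this.1]
      have e2 : ∫ x, (tmS μ T τ q A l K x + (ε / 8 + 2 * A * badf T τ M K x)) ∂μ =
          ∫ x, tmS μ T τ q A l K x ∂μ + (ε / 8 + 2 * A * ∫ x, badf T τ M K x ∂μ) := by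
        have e3 : Integrable (fun x => ε / 8 + 2 * A * badf T τ M K x) μ := (integrable_const _).add (hbi.const_mul _)
        rw [integral_add (hint l) e3, integral_add (integrable_const _) (hbi.const_mul _), integral_const_mul,
          integral_const, probReal_univ, one_smul]
      rw [e2] at e1
      exact e1
    have hA2 : 2 * A * (ε / (16 * (A + 1))) ≤ ε / 8 := by
      rw [mul_div_assoc', div_le_div_iff₀ (by positivity) (by positivity)]
      nlinarith
    have hA3 : 2 * A * ∫ x, badf T τ M K x ∂μ ≤ ε / 8 := (mul_le_mul_of_nonneg_left hM.le (by positivity)).trans hA2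
    filter_upwards [hconv (hw1 K r) (ε / 8) (by positivity), hconv (hw2 K M) (ε / (16 * (A + 1))) (by positivity)] with N hN hN'
    have hN0 : (0 : ℝ) ≤ N := Nat.cast_nonneg N
    have e3 : 2 * A * ∑ j ∈ range N, badf T τ M K (T^[j] w) ≤ N * (ε / 8 + ε / 8) := by
      calc 2 * A * ∑ j ∈ range N, badf T τ M K (T^[j] w) ≤ 2 * A * (N * ((∫ w, badf T τ M K w ∂μ) + ε / (16 * (A + 1)))) := by gcongr
        _ = N * (2 * A * (∫ w, badf T τ M K w ∂μ) + 2 * A * (ε / (16 * (A + 1)))) := by ring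
        _ ≤ N * (ε / 8 + ε / 8) := by gcongr
    calc ∑ j ∈ range N, tmS μ T τ q A l K (T^[j] w)
        ≤ ∑ j ∈ range N, (tmS μ T τ q A r K (T^[j] w) + (ε / 8 + 2 * A * badf T τ M K (T^[j] w))) := by
          refine sum_le_sum fun j _ => ?_
          have := hclose (T^[j] w)
          rw [abs_le] at this
          linarith [this.2]
      _ = ∑ j ∈ range N, tmS μ T τ q A r K (T^[j] w) + (N * (ε / 8) + 2 * A * ∑ j ∈ range N, badf T τ M K (T^[j] w)) := by
          rw [sum_add_distrib, sum_add_distrib, sum_const, card_range, nsmul_eq_mul, ← mul_sum]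
      _ ≤ N * ((∫ w, tmS μ T τ q A r K w ∂μ) + ε / 8) + (N * (ε / 8) + N * (ε / 8 + ε / 8)) := by linarith
      _ ≤ N * ((∫ w, tmS μ T τ q A l K w ∂μ) + ε) := by
          nlinarith

end Pool.Agent.Helper46.HT
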