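import Pool.Agent.Helper46.HT.Koop
import Pool.Agent.Helper59.HP.Block

/-!
# HT: orthogonality of the eigenfunctions of the suspension flow, Bessel's inequality
-/

set_option autoImplicit false

namespace Pool.Agent.Helper46.HT

open Finset MeasureTheory Filter Topology
open Pool.Agent.Helper59.HP (ex norm_ex ex_add ex_zero continuous_ex pr memLp_of_bdd fq fq_norm q_cont fq_meas fq_lip)
open Pool.Agent.Helper32.HP (IsQ)

variable {Ω : Type*} [MeasurableSpace Ω] {μ : Measure Ω} {T : Ω → Ω}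

theorem conj_ex (x : ℝ) : (starRingEnd ℂ) (ex x) = ex (-x) := by
  unfold ex
  rw [← Complex.exp_conj, map_mul, Complex.conj_ofReal, Complex.conj_I]
  congr 1
  push_cast
  ring

/-- the integral of an exponential -/
noncomputable def Ei (η S : ℝ) : ℂ := ∫ s in (0 : ℝ)..S, ex (η * s)

theorem Ei_zero (S : ℝ) : Ei 0 S = S := by
  unfold Ei
  simp [ex_zero]

theorem Ei_ne {η : ℝ} (hη : η ≠ 0) (S : ℝ) : Ei η S = ((2 * Real.pi * η : ℝ) * Complex.I)⁻¹ * (ex (η * S) - 1) := by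
  unfold Ei
  have hc : ((2 * Real.pi * η : ℝ) * Complex.I : ℂ) ≠ 0 := by
    apply mul_ne_zero _ Complex.I_ne_zero
    have : 2 * Real.pi * η ≠ 0 := mul_ne_zero (mul_ne_zero two_ne_zero Real.pi_ne_zero) hη
    exact_mod_cast this
  have h1 : ∀ s : ℝ, ex (η * s) = Complex.exp (((2 * Real.pi * η : ℝ) * Complex.I) * s) := by
    intro s
    unfold ex
    congr 1
    push_cast
    ring
  simp_rw [h1]
  rw [integral_exp_mul_complex hc, Complex.ofReal_zero, mul_zero, Complex.exp_zero, div_eq_inv_mul]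

theorem Ei_norm (η : ℝ) {S : ℝ} (hS : 0 ≤ S) : ‖Ei η S‖ ≤ S := by
  unfold Ei
  have h := intervalIntegral.norm_integral_le_of_norm_le_const (a := 0) (b := S) (C := 1)
    (f := fun s => ex (η * s)) (fun s _ => (norm_ex _).le)
  rw [sub_zero, abs_of_nonneg hS, one_mul] at h
  exact h

theorem Ei_meas {S : Ω → ℝ} (hS : Measurable S) (η : ℝ) : Measurable fun ω => Ei η (S ω) := by
  by_cases hη : η = 0
  · subst hη
    simp only [Ei_zero]
    exact Complex.measurable_ofReal.comp hS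
  · simp only [Ei_ne hη]
    exact ((continuous_ex.measurable.comp (hS.const_mul η)).sub_const 1).const_mul _

theorem iter_eig (hT : MeasurePreserving T μ μ) {τ : Ω → ℝ} {h : Ω → ℂ} {θ : ℝ}
    (hh : ∀ᵐ ω ∂μ, h (T ω) = ex (θ * τ ω) * h ω) (k : ℕ) :
    ∀ᵐ ω ∂μ, h (T^[k] ω) = ex (θ * Sm τ T k ω) * h ω := by
  induction k with
  | zero =>
    refine Eventually.of_forall fun ω => ?_
    rw [Sm_zero, mul_zero, ex_zero, one_mul]
    rfl
  | succ k ih =>
    filter_upwards [ih, (hT.iterate k).quasiMeasurePreserving.ae hh] with ω h1 h2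
    rw [Function.iterate_succ_apply', h2, h1, Sm_succ', mul_add, ex_add]
    ring

/-- eigenfunctions for different frequencies are orthogonal in the suspension -/
theorem orth [IsProbabilityMeasure μ] (hT : MeasurePreserving T μ μ) {τ : Ω → ℝ} (hτm : Measurable τ)
    {h h' : Ω → ℂ} {θ θ' : ℝ} (hm : Measurable h) (hm' : Measurable h') (h1 : ∀ ω, ‖h ω‖ = 1) (h1' : ∀ ω, ‖h' ω‖ = 1)
    (hh : ∀ᵐ ω ∂μ, h (T ω) = ex (θ * τ ω) * h ω) (hh' : ∀ᵐ ω ∂μ, h' (T ω) = ex (θ' * τ ω) * h' ω) (hne : θ ≠ θ') (k : ℕ) :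
    ∫ ω, h ω * (starRingEnd ℂ) (h' ω) * Ei (θ - θ') (Sm τ T k ω) ∂μ = 0 := by
  have hconj : Measurable (starRingEnd ℂ) := Complex.continuous_conj.measurable
  have hη : θ - θ' ≠ 0 := sub_ne_zero.2 hne
  obtain ⟨g, hg⟩ : ∃ g : Ω → ℂ, g = fun ω => h ω * (starRingEnd ℂ) (h' ω) := ⟨_, rfl⟩
  have hgm : Measurable g := by
    rw [hg]
    exact hm.mul (hconj.comp hm')
  have hg1 : ∀ ω, ‖g ω‖ = 1 := fun ω => by
    rw [hg]
    simp only
    rw [norm_mul, RCLike.norm_conj, h1, h1', one_mul]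
  have hgi : Integrable g μ := (integrable_const (1 : ℝ)).mono' hgm.aestronglyMeasurable
    (Eventually.of_forall fun ω => (hg1 ω).le)
  have hgT : ∀ᵐ ω ∂μ, g (T^[k] ω) = ex ((θ - θ') * Sm τ T k ω) * g ω := by
    filter_upwards [iter_eig hT hh k, iter_eig hT hh' k] with ω a1 a2
    rw [hg]
    simp only
    rw [a1, a2, map_mul, conj_ex, sub_mul, sub_eq_add_neg, ex_add]
    ring
  have hint : ∫ ω, g (T^[k] ω) ∂μ = ∫ ω, g ω ∂μ := by
    have h2 := integral_map (μ := μ) (φ := T^[k]) (f := g) (hT.iterate k).measurable.aemeasurable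
      (by rw [(hT.iterate k).map_eq]; exact hgm.aestronglyMeasurable)
    rw [(hT.iterate k).map_eq] at h2
    exact h2.symm
  have e1 : ∀ ω, h ω * (starRingEnd ℂ) (h' ω) * Ei (θ - θ') (Sm τ T k ω) =
      ((2 * Real.pi * (θ - θ') : ℝ) * Complex.I)⁻¹ * (ex ((θ - θ') * Sm τ T k ω) * g ω - g ω) := by
    intro ω
    rw [Ei_ne hη, hg]
    ring
  rw [integral_congr_ae (Eventually.of_forall e1), integral_const_mul]
  have i1 : Integrable (fun ω => ex ((θ - θ') * Sm τ T k ω) * g ω) μ :=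
    (integrable_const (1 : ℝ)).mono' ((continuous_ex.measurable.comp ((Sm_meas hT.measurable hτm k).const_mul _)).mul
      hgm).aestronglyMeasurable (Eventually.of_forall fun ω => by
        show ‖ex ((θ - θ') * Sm τ T k ω) * g ω‖ ≤ 1
        rw [norm_mul, norm_ex, hg1, one_mul])
  rw [integral_sub i1 hgi, ← hint, integral_congr_ae (hgT.mono fun ω hω => hω.symm), sub_self, mul_zero]

variable {q : Ω → ℝ → ℝ} {Λ A : ℝ}

omit [MeasurableSpace Ω] in
theorem fq_eqS [MeasurableSpace Ω] (hq : IsQ q Λ A) (l : ℝ) (w : Ω) {S : ℝ} (hS : A ≤ S) :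
    fq q l w = ∫ u in (0 : ℝ)..S, (q w u : ℂ) * ex (-(l * u)) := by
  unfold fq
  rw [intervalIntegral.integral_eq_integral_of_support_subset]
  intro u hu
  by_contra h
  rw [Set.mem_Ioc, not_and_or, not_lt, not_le] at h
  apply hu
  simp only
  rw [hq.s w u (h.imp id fun h => hS.trans h.le)]
  simp

/-- Bessel's inequality -/
theorem bessel [IsProbabilityMeasure μ] (hT : MeasurePreserving T μ μ) {τ : Ω → ℝ} (hτm : Measurable τ)
    (hτ : Integrable τ μ) (hΛ : 0 ≤ Λ) (hA : 0 ≤ A) (hq : IsQ q Λ A) (k : ℕ) (hk : ∀ ω, A ≤ Sm τ T k ω)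
    (Θ : Finset ℝ) (h : ℝ → Ω → ℂ) (a : ℝ → ℝ) (hm : ∀ θ ∈ Θ, Measurable (h θ)) (h1 : ∀ θ ∈ Θ, ∀ ω, ‖h θ ω‖ = 1)
    (hh : ∀ θ ∈ Θ, ∀ᵐ ω ∂μ, h θ (T ω) = ex (θ * τ ω) * h θ ω)
    (ha : ∀ θ ∈ Θ, ∫ ω, (starRingEnd ℂ) (h θ ω) * fq q θ ω ∂μ = a θ) :
    ∑ θ ∈ Θ, a θ ^ 2 ≤ (k * ∫ ω, τ ω ∂μ + 1) * A := by
  have hconj : Measurable (starRingEnd ℂ) := Complex.continuous_conj.measurable
  obtain ⟨S, hS⟩ : ∃ S : Ω → ℝ, S = Sm τ T k := ⟨_, rfl⟩
  have hSm : Measurable S := by rw [hS]; exact Sm_meas hT.measurable hτm k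
  have hSi : Integrable S μ := by rw [hS]; exact Sm_int hT hτ k
  have hSint : ∫ ω, S ω ∂μ = k * ∫ ω, τ ω ∂μ := by rw [hS]; exact Sm_integral hT hτm hτ k
  have hSA : ∀ ω, A ≤ S ω := by rw [hS]; exact hk
  have hS0 : ∀ ω, 0 ≤ S ω := fun ω => hA.trans (hSA ω)
  obtain ⟨R, hR⟩ : ∃ R : ℝ, R = ∫ ω, S ω ∂μ := ⟨_, rfl⟩
  have hR0 : 0 ≤ R := by rw [hR]; exact integral_nonneg hS0
  obtain ⟨F, hF⟩ : ∃ F : Ω → ℝ → ℂ, F = fun ω s => ∑ θ ∈ Θ, (a θ : ℂ) * h θ ω * ex (θ * s) := ⟨_, rfl⟩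
  have hFc : ∀ ω, Continuous (F ω) := fun ω => by
    rw [hF]
    have := continuous_ex
    fun_prop
  obtain ⟨I, hI⟩ : ∃ I : Ω → ℝ, I = fun ω => ∫ s in (0 : ℝ)..S ω, ‖F ω s‖ ^ 2 := ⟨_, rfl⟩
  -- the expansion
  have hexp : ∀ ω, ((I ω : ℝ) : ℂ) = ∑ θ ∈ Θ, ∑ θ' ∈ Θ,
      ((a θ : ℂ) * a θ') * (h θ ω * (starRingEnd ℂ) (h θ' ω) * Ei (θ - θ') (S ω)) := by
    intro ω
    rw [hI]
    simp only
    rw [← intervalIntegral.integral_ofReal]
    have e1 : ∀ s : ℝ, ((‖F ω s‖ ^ 2 : ℝ) : ℂ) = ∑ θ ∈ Θ, ∑ θ' ∈ Θ,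
        ((a θ : ℂ) * a θ') * (h θ ω * (starRingEnd ℂ) (h θ' ω)) * ex ((θ - θ') * s) := by
      intro s
      have e2 : ((‖F ω s‖ ^ 2 : ℝ) : ℂ) = F ω s * (starRingEnd ℂ) (F ω s) := by
        rw [Complex.mul_conj, Complex.normSq_eq_norm_sq]
      rw [e2, hF]
      simp only
      rw [map_sum, sum_mul_sum]
      refine sum_congr rfl fun θ _ => sum_congr rfl fun θ' _ => ?_
      rw [map_mul, map_mul, Complex.conj_ofReal, conj_ex, sub_mul, sub_eq_add_neg, ex_add]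
      ring
    simp_rw [e1]
    have hex := continuous_ex
    rw [intervalIntegral.integral_finsetSum]
    · refine sum_congr rfl fun θ _ => ?_
      rw [intervalIntegral.integral_finsetSum]
      · refine sum_congr rfl fun θ' _ => ?_
        rw [intervalIntegral.integral_const_mul]
        unfold Ei
        ring
      · intro θ' _
        apply Continuous.intervalIntegrable
        fun_prop
    · intro θ _
      apply Continuous.intervalIntegrable
      fun_prop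
  have hterm_int : ∀ θ ∈ Θ, ∀ θ' ∈ Θ, Integrable (fun ω => ((a θ : ℂ) * a θ') *
      (h θ ω * (starRingEnd ℂ) (h θ' ω) * Ei (θ - θ') (S ω))) μ := by
    intro θ hθ θ' hθ'
    apply Integrable.const_mul
    refine hSi.mono' (((hm θ hθ).mul (hconj.comp (hm θ' hθ'))).mul (Ei_meas hSm _)).aestronglyMeasurable
      (Eventually.of_forall fun ω => ?_)
    show ‖h θ ω * (starRingEnd ℂ) (h θ' ω) * Ei (θ - θ') (S ω)‖ ≤ S ω
    rw [norm_mul, norm_mul, RCLike.norm_conj, h1 θ hθ, h1 θ' hθ', one_mul, one_mul]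
    exact Ei_norm _ (hS0 ω)
  have hIc : Integrable (fun ω => ((I ω : ℝ) : ℂ)) μ := by
    rw [show (fun ω => ((I ω : ℝ) : ℂ)) = fun ω => ∑ θ ∈ Θ, ∑ θ' ∈ Θ,
      ((a θ : ℂ) * a θ') * (h θ ω * (starRingEnd ℂ) (h θ' ω) * Ei (θ - θ') (S ω)) from funext hexp]
    exact integrable_finsetSum _ fun θ hθ => integrable_finsetSum _ fun θ' hθ' => hterm_int θ hθ θ' hθ'
  have hIi : Integrable I μ := by
    have := hIc.re
    simpa using this
  have hIint : ∫ ω, I ω ∂μ = (∑ θ ∈ Θ, a θ ^ 2) * R := by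
    have e1 : ((∫ ω, I ω ∂μ : ℝ) : ℂ) = (((∑ θ ∈ Θ, a θ ^ 2) * R : ℝ) : ℂ) := by
      rw [← integral_complex_ofReal, integral_congr_ae (Eventually.of_forall hexp),
        integral_finsetSum _ fun θ hθ => integrable_finsetSum _ fun θ' hθ' => hterm_int θ hθ θ' hθ']
      push_cast
      rw [sum_mul]
      refine sum_congr rfl fun θ hθ => ?_
      rw [integral_finsetSum _ fun θ' hθ' => hterm_int θ hθ θ' hθ', sum_eq_single θ]
      · rw [integral_const_mul]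
        have e2 : ∀ ω, h θ ω * (starRingEnd ℂ) (h θ ω) * Ei (θ - θ) (S ω) = ((S ω : ℝ) : ℂ) := by
          intro ω
          rw [sub_self, Ei_zero, Complex.mul_conj, Complex.normSq_eq_norm_sq, h1 θ hθ]
          norm_num
        rw [integral_congr_ae (Eventually.of_forall e2), integral_complex_ofReal, ← hR]
        ring
      · intro θ' hθ' hne
        rw [integral_const_mul, hS, orth hT hτm (hm θ hθ) (hm θ' hθ') (h1 θ hθ) (h1 θ' hθ') (hh θ hθ) (hh θ' hθ') hne.symm k,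
          mul_zero]
      · intro hn
        exact absurd hθ hn
    exact_mod_cast e1
  -- the correlation
  have hcor : ∀ ω, (∑ θ ∈ Θ, (a θ : ℂ) * ((starRingEnd ℂ) (h θ ω) * fq q θ ω)).re ≤ (R + 1) / 2 * A + I ω / (2 * (R + 1)) := by
    intro ω
    have hqc := q_cont hΛ hq ω
    have hex := continuous_ex
    have e1 : ∑ θ ∈ Θ, (a θ : ℂ) * ((starRingEnd ℂ) (h θ ω) * fq q θ ω) =
        ∫ s in (0 : ℝ)..S ω, (q ω s : ℂ) * (starRingEnd ℂ) (F ω s) := by
      have e2 : ∀ s : ℝ, (q ω s : ℂ) * (starRingEnd ℂ) (F ω s) =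
          ∑ θ ∈ Θ, ((a θ : ℂ) * (starRingEnd ℂ) (h θ ω)) * ((q ω s : ℂ) * ex (-(θ * s))) := by
        intro s
        rw [hF]
        simp only
        rw [map_sum, mul_sum]
        refine sum_congr rfl fun θ _ => ?_
        rw [map_mul, map_mul, Complex.conj_ofReal, conj_ex]
        ring
      simp_rw [e2]
      rw [intervalIntegral.integral_finsetSum]
      · refine sum_congr rfl fun θ _ => ?_
        rw [intervalIntegral.integral_const_mul, fq_eqS hq θ ω (hSA ω)]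
        ring
      · intro θ _
        apply Continuous.intervalIntegrable
        fun_prop
    rw [e1]
    have hcF : Continuous fun s => (starRingEnd ℂ) (F ω s) := Complex.continuous_conj.comp (hFc ω)
    have e3 : (∫ s in (0 : ℝ)..S ω, (q ω s : ℂ) * (starRingEnd ℂ) (F ω s)).re ≤
        ∫ s in (0 : ℝ)..S ω, ((R + 1) / 2 * q ω s ^ 2 + ‖F ω s‖ ^ 2 / (2 * (R + 1))) := by
      refine (Complex.re_le_norm _).trans ?_
      refine intervalIntegral.norm_integral_le_of_norm_le (hS0 ω) (Eventually.of_forall fun s _ => ?_) ?_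
      · rw [norm_mul, RCLike.norm_conj, Complex.norm_real, Real.norm_eq_abs, abs_of_nonneg (hq.nn ω s)]
        have h2 : 0 ≤ ((R + 1) * q ω s - ‖F ω s‖) ^ 2 / (2 * (R + 1)) := by positivity
        have h3 : ((R + 1) * q ω s - ‖F ω s‖) ^ 2 / (2 * (R + 1)) =
            ((R + 1) / 2 * q ω s ^ 2 + ‖F ω s‖ ^ 2 / (2 * (R + 1))) - q ω s * ‖F ω s‖ := by
          field_simp
          ring
        linarith
      · apply Continuous.intervalIntegrable
        have := hFc ω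
        fun_prop
    have e4 : ∫ s in (0 : ℝ)..S ω, ((R + 1) / 2 * q ω s ^ 2 + ‖F ω s‖ ^ 2 / (2 * (R + 1))) =
        (R + 1) / 2 * (∫ s in (0 : ℝ)..S ω, q ω s ^ 2) + I ω / (2 * (R + 1)) := by
      rw [intervalIntegral.integral_add, intervalIntegral.integral_const_mul, intervalIntegral.integral_div, hI]
      · apply Continuous.intervalIntegrable
        fun_prop
      · apply Continuous.intervalIntegrable
        have := hFc ω
        fun_prop
    have e5 : ∫ s in (0 : ℝ)..S ω, q ω s ^ 2 ≤ A := by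
      have e6 : ∫ s in (0 : ℝ)..S ω, q ω s ^ 2 = ∫ s in (0 : ℝ)..A, q ω s ^ 2 := by
        rw [intervalIntegral.integral_eq_integral_of_support_subset, intervalIntegral.integral_eq_integral_of_support_subset]
        · intro u hu
          by_contra h'
          rw [Set.mem_Ioc, not_and_or, not_lt, not_le] at h'
          apply hu
          simp only
          rw [hq.s ω u (h'.imp id fun h => h.le)]
          norm_num
        · intro u hu
          by_contra h'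
          rw [Set.mem_Ioc, not_and_or, not_lt, not_le] at h'
          apply hu
          simp only
          rw [hq.s ω u (h'.imp id fun h => (hSA ω).trans h.le)]
          norm_num
      rw [e6]
      have e7 : ∫ s in (0 : ℝ)..A, q ω s ^ 2 ≤ ∫ s in (0 : ℝ)..A, (1 : ℝ) := by
        apply intervalIntegral.integral_mono_on hA
        · apply Continuous.intervalIntegrable
          fun_prop
        · exact intervalIntegrable_const
        · intro s _
          exact pow_le_one₀ (hq.nn ω s) (hq.le1 ω s)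
      refine e7.trans (le_of_eq ?_)
      rw [intervalIntegral.integral_const, sub_zero, smul_eq_mul, mul_one]
    rw [e4] at e3
    have e8 : (R + 1) / 2 * (∫ s in (0 : ℝ)..S ω, q ω s ^ 2) ≤ (R + 1) / 2 * A := mul_le_mul_of_nonneg_left e5 (by linarith)
    linarith
  -- integrate
  have hti : ∀ θ ∈ Θ, Integrable (fun ω => (a θ : ℂ) * ((starRingEnd ℂ) (h θ ω) * fq q θ ω)) μ := by
    intro θ hθ
    apply Integrable.const_mul
    refine (integrable_const A).mono' ((hconj.comp (hm θ hθ)).mul (fq_meas hΛ hq θ)).aestronglyMeasurable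
      (Eventually.of_forall fun ω => ?_)
    show ‖(starRingEnd ℂ) (h θ ω) * fq q θ ω‖ ≤ A
    rw [norm_mul, RCLike.norm_conj, h1 θ hθ, one_mul]
    exact fq_norm hA hq θ ω
  have hPi : Integrable (fun ω => ∑ θ ∈ Θ, (a θ : ℂ) * ((starRingEnd ℂ) (h θ ω) * fq q θ ω)) μ := integrable_finsetSum _ hti
  have hP : ∫ ω, (∑ θ ∈ Θ, (a θ : ℂ) * ((starRingEnd ℂ) (h θ ω) * fq q θ ω)).re ∂μ = ∑ θ ∈ Θ, a θ ^ 2 := by
    have e1 : ∫ ω, (∑ θ ∈ Θ, (a θ : ℂ) * ((starRingEnd ℂ) (h θ ω) * fq q θ ω)).re ∂μ =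
        (∫ ω, (∑ θ ∈ Θ, (a θ : ℂ) * ((starRingEnd ℂ) (h θ ω) * fq q θ ω)) ∂μ).re := by
      have := integral_re hPi
      simpa using this
    rw [e1, integral_finsetSum _ hti]
    have e2 : ∑ θ ∈ Θ, ∫ ω, (a θ : ℂ) * ((starRingEnd ℂ) (h θ ω) * fq q θ ω) ∂μ = ((∑ θ ∈ Θ, a θ ^ 2 : ℝ) : ℂ) := by
      push_cast
      refine sum_congr rfl fun θ hθ => ?_
      rw [integral_const_mul, ha θ hθ]
      ring
    rw [e2, Complex.ofReal_re]
  have hle := integral_mono (μ := μ) (f := fun ω => (∑ θ ∈ Θ, (a θ : ℂ) * ((starRingEnd ℂ) (h θ ω) * fq q θ ω)).re)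
    (g := fun ω => (R + 1) / 2 * A + I ω / (2 * (R + 1))) (by simpa using hPi.re)
    ((integrable_const _).add (hIi.div_const _)) hcor
  rw [hP, integral_add (integrable_const _) (hIi.div_const _), integral_const, probReal_univ, one_smul, integral_div, hIint] at hle
  rw [← hSint, ← hR]
  obtain ⟨V, hV⟩ : ∃ V : ℝ, V = ∑ θ ∈ Θ, a θ ^ 2 := ⟨_, rfl⟩
  have hV0 : 0 ≤ V := by rw [hV]; exact sum_nonneg fun θ _ => sq_nonneg _
  rw [← hV] at hle ⊢
  have h5 : V * R / (2 * (R + 1)) ≤ V / 2 := by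
    rw [div_le_div_iff₀ (by positivity) (by positivity)]
    nlinarith
  nlinarith

/-- the set of the bad frequencies is countable -/
theorem bad_countable [IsProbabilityMeasure μ] (hT : Ergodic T μ) {τ : Ω → ℝ} (hτm : Measurable τ)
    (hτ : Integrable τ μ) (hΛ : 0 ≤ Λ) (hA : 0 ≤ A) (hq : IsQ q Λ A) (k : ℕ) (hk : ∀ ω, A ≤ Sm τ T k ω) :
    {θ : ℝ | pr (US hT.toMeasurePreserving hτm θ) 1
      ((memLp_of_bdd (μ := μ) (fq_meas hΛ hq θ) (fq_norm hA hq θ)).toLp (fq q θ)) ≠ 0}.Countable := by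
  classical
  obtain ⟨B, hB⟩ : ∃ B : Set ℝ, B = {θ : ℝ | pr (US hT.toMeasurePreserving hτm θ) 1
      ((memLp_of_bdd (μ := μ) (fq_meas hΛ hq θ) (fq_norm hA hq θ)).toLp (fq q θ)) ≠ 0} := ⟨_, rfl⟩
  rw [← hB]
  have h0 : ∀ θ : ℝ, ∃ (h : Ω → ℂ) (a : ℝ), θ ∈ B → Measurable h ∧ (∀ ω, ‖h ω‖ = 1) ∧
      (∀ᵐ ω ∂μ, h (T ω) = ex (θ * τ ω) * h ω) ∧ 0 < a ∧ ∫ ω, (starRingEnd ℂ) (h ω) * fq q θ ω ∂μ = a := by
    intro θ
    by_cases hθ : θ ∈ B
    · rw [hB] at hθ
      obtain ⟨h, a, h1⟩ := eig_exists hT hτm (fq_meas hΛ hq θ) (fq_norm hA hq θ) hθ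
      exact ⟨h, a, fun _ => h1⟩
    · exact ⟨fun _ => 1, 1, fun h => absurd h hθ⟩
  choose h a hha using h0
  obtain ⟨V, hV⟩ : ∃ V : ℝ, V = (k * ∫ ω, τ ω ∂μ + 1) * A := ⟨_, rfl⟩
  have hfin : ∀ i : ℕ, {θ : ℝ | θ ∈ B ∧ 1 / ((i : ℝ) + 1) < a θ ^ 2}.Finite := by
    intro i
    by_contra hinf
    obtain ⟨n, hn⟩ := exists_nat_gt (V * ((i : ℝ) + 1))
    obtain ⟨Θ, hΘ1, hΘ2⟩ := Set.Infinite.exists_subset_card_eq (hinf) n
    have hb := bessel hT.toMeasurePreserving hτm hτ hΛ hA hq k hk Θ h a (fun θ hθ => (hha θ (hΘ1 hθ).1).1)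
      (fun θ hθ => (hha θ (hΘ1 hθ).1).2.1) (fun θ hθ => (hha θ (hΘ1 hθ).1).2.2.1) (fun θ hθ => (hha θ (hΘ1 hθ).1).2.2.2.2)
    rw [← hV] at hb
    have h1 : (n : ℝ) * (1 / ((i : ℝ) + 1)) ≤ ∑ θ ∈ Θ, a θ ^ 2 := by
      have : ∑ θ ∈ Θ, (1 / ((i : ℝ) + 1)) ≤ ∑ θ ∈ Θ, a θ ^ 2 := sum_le_sum fun θ hθ => (hΘ1 hθ).2.le
      rwa [sum_const, hΘ2, nsmul_eq_mul] at this
    have h2 : V < (n : ℝ) * (1 / ((i : ℝ) + 1)) := by
      rw [mul_one_div, lt_div_iff₀ (by positivity)]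
      exact hn
    linarith
  have hsub : B ⊆ ⋃ i : ℕ, {θ : ℝ | θ ∈ B ∧ 1 / ((i : ℝ) + 1) < a θ ^ 2} := by
    intro θ hθ
    have h1 : 0 < a θ := (hha θ hθ).2.2.2.1
    obtain ⟨i, hi⟩ := exists_nat_one_div_lt (show 0 < a θ ^ 2 by positivity)
    exact Set.mem_iUnion.2 ⟨i, hθ, hi⟩
  exact (Set.countable_iUnion fun i => (hfin i).countable).mono hsub

end Pool.Agent.Helper46.HT
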