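import Pool.Agent.Helper59.HP.Tm

/-!
# HT: the pointwise ergodic theorem for integrable functions and ergodic maps

The bounded case is `erg_avg`; the tails are controlled by the maximal inequality.
-/

set_option autoImplicit false

namespace Pool.Agent.Helper46.HT

open Finset MeasureTheory Filter Topology

variable {Ω : Type*} [MeasurableSpace Ω] {μ : Measure Ω} {T : Ω → Ω}

/-- the Birkhoff sums -/
noncomputable def Sm (f : Ω → ℝ) (T : Ω → Ω) (k : ℕ) (ω : Ω) : ℝ := ∑ j ∈ range k, f (T^[j] ω)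

omit [MeasurableSpace Ω] in
theorem Sm_zero (f : Ω → ℝ) (ω : Ω) : Sm f T 0 ω = 0 := by
  unfold Sm
  simp

omit [MeasurableSpace Ω] in
theorem Sm_succ (f : Ω → ℝ) (k : ℕ) (ω : Ω) : Sm f T (k + 1) ω = f ω + Sm f T k (T ω) := by
  unfold Sm
  rw [sum_range_succ']
  simp only [Function.iterate_succ_apply, Function.iterate_zero, id]
  rw [add_comm]

omit [MeasurableSpace Ω] in
theorem Sm_succ' (f : Ω → ℝ) (k : ℕ) (ω : Ω) : Sm f T (k + 1) ω = Sm f T k ω + f (T^[k] ω) := by
  unfold Sm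
  rw [sum_range_succ]

omit [MeasurableSpace Ω] in
theorem Sm_add (f : Ω → ℝ) (k l : ℕ) (ω : Ω) : Sm f T (k + l) ω = Sm f T k ω + Sm f T l (T^[k] ω) := by
  unfold Sm
  rw [sum_range_add]
  congr 1
  refine sum_congr rfl fun j _ => ?_
  rw [← Function.iterate_add_apply, add_comm j k]

theorem Sm_meas (hT : Measurable T) {f : Ω → ℝ} (hf : Measurable f) (k : ℕ) : Measurable (Sm f T k) := by
  unfold Sm
  exact Finset.measurable_fun_sum _ fun j _ => hf.comp (hT.iterate j)

theorem Sm_int (hT : MeasurePreserving T μ μ) {f : Ω → ℝ} (hf : Integrable f μ) (k : ℕ) : Integrable (Sm f T k) μ := by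
  unfold Sm
  exact integrable_finsetSum _ fun j _ => (hT.iterate j).integrable_comp_of_integrable hf

theorem Sm_integral (hT : MeasurePreserving T μ μ) {f : Ω → ℝ} (hfm : Measurable f) (hf : Integrable f μ) (k : ℕ) :
    ∫ ω, Sm f T k ω ∂μ = k * ∫ ω, f ω ∂μ := by
  unfold Sm
  rw [integral_finsetSum (range k) (f := fun j ω => f (T^[j] ω)) fun j _ => (hT.iterate j).integrable_comp_of_integrable hf]
  have h1 : ∀ j ∈ range k, ∫ ω, f (T^[j] ω) ∂μ = ∫ ω, f ω ∂μ := by
    intro j _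
    have h2 := integral_map (μ := μ) (φ := T^[j]) (f := f) (hT.iterate j).measurable.aemeasurable
      (by rw [(hT.iterate j).map_eq]; exact hfm.aestronglyMeasurable)
    rw [(hT.iterate j).map_eq] at h2
    exact h2.symm
  rw [sum_congr rfl h1, sum_const, card_range, nsmul_eq_mul]

/-- the maximum of `0` and the first `N` sums -/
noncomputable def Mx (h : Ω → ℝ) (T : Ω → Ω) : ℕ → Ω → ℝ
  | 0, _ => 0
  | N + 1, ω => max 0 (h ω + Mx h T N (T ω))

omit [MeasurableSpace Ω] in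
theorem Mx_nonneg (h : Ω → ℝ) (N : ℕ) (ω : Ω) : 0 ≤ Mx h T N ω := by
  cases N with
  | zero => exact le_rfl
  | succ N => exact le_max_left _ _

omit [MeasurableSpace Ω] in
theorem Mx_succ (h : Ω → ℝ) (N : ℕ) : ∀ ω, Mx h T N ω ≤ Mx h T (N + 1) ω := by
  induction N with
  | zero => exact fun ω => Mx_nonneg h 1 ω
  | succ N ih =>
    intro ω
    show max 0 (h ω + Mx h T N (T ω)) ≤ max 0 (h ω + Mx h T (N + 1) (T ω))
    exact max_le_max le_rfl (by linarith [ih (T ω)])

omit [MeasurableSpace Ω] in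
theorem Sm_le_Mx (h : Ω → ℝ) (n : ℕ) : ∀ ω, Sm h T n ω ≤ Mx h T n ω := by
  induction n with
  | zero => exact fun ω => le_of_eq (Sm_zero h ω)
  | succ n ih =>
    intro ω
    rw [Sm_succ]
    show _ ≤ max 0 (h ω + Mx h T n (T ω))
    exact le_max_of_le_right (by linarith [ih (T ω)])

omit [MeasurableSpace Ω] in
theorem Mx_mono (h : Ω → ℝ) {m n : ℕ} (hmn : m ≤ n) (ω : Ω) : Mx h T m ω ≤ Mx h T n ω :=
  monotone_nat_of_le_succ (f := fun n => Mx h T n ω) (fun n => Mx_succ h n ω) hmn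

theorem Mx_meas (hT : Measurable T) {h : Ω → ℝ} (hh : Measurable h) (N : ℕ) : Measurable (Mx h T N) := by
  induction N with
  | zero => exact measurable_const
  | succ N ih => exact measurable_const.max (hh.add (ih.comp hT))

theorem Mx_int (hT : MeasurePreserving T μ μ) [IsProbabilityMeasure μ] {h : Ω → ℝ} (hh : Integrable h μ) (N : ℕ) :
    Integrable (Mx h T N) μ := by
  induction N with
  | zero => exact integrable_const (0 : ℝ)
  | succ N ih =>
    exact (integrable_const (0 : ℝ)).sup (hh.add (hT.integrable_comp_of_integrable ih))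

/-- the maximal inequality -/
theorem maxi (hT : MeasurePreserving T μ μ) [IsProbabilityMeasure μ] {g : Ω → ℝ} (hgm : Measurable g) (hg0 : ∀ ω, 0 ≤ g ω)
    (hg : Integrable g μ) {c : ℝ} (hc : 0 < c) :
    μ.real {ω | ∃ n, 0 < n ∧ c * n < Sm g T n ω} ≤ (∫ ω, g ω ∂μ) / c := by
  obtain ⟨h, hh⟩ : ∃ h : Ω → ℝ, h = fun ω => g ω - c := ⟨_, rfl⟩
  have hhm : Measurable h := by rw [hh]; exact hgm.sub_const c
  have hhi : Integrable h μ := by rw [hh]; exact hg.sub (integrable_const c)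
  have hMm := Mx_meas hT.measurable hhm
  have hMi := Mx_int hT hhi
  have hcomp : ∀ N, ∫ ω, Mx h T N (T ω) ∂μ = ∫ ω, Mx h T N ω ∂μ := by
    intro N
    have h2 := integral_map (μ := μ) (φ := T) (f := Mx h T N) hT.measurable.aemeasurable
      (by rw [hT.map_eq]; exact (hMm N).aestronglyMeasurable)
    rw [hT.map_eq] at h2
    exact h2.symm
  have key : ∀ N, c * μ.real {ω | 0 < Mx h T N ω} ≤ ∫ ω, g ω ∂μ := by
    intro N
    rcases N with _ | N
    · have : {ω | 0 < Mx h T 0 ω} = ∅ := by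
        ext ω
        rw [Set.mem_ofPred_eq]
        simp [Mx]
      rw [this, measureReal_empty, mul_zero]
      exact integral_nonneg hg0
    obtain ⟨B, hB⟩ : ∃ B : Set Ω, B = {ω | 0 < Mx h T (N + 1) ω} := ⟨_, rfl⟩
    have hBm : MeasurableSet B := by
      rw [hB]
      exact measurableSet_lt measurable_const (hMm (N + 1))
    rw [← hB]
    have hMT : Integrable (fun ω => Mx h T (N + 1) (T ω)) μ := hT.integrable_comp_of_integrable (hMi (N + 1))
    have h1 : ∫ ω, Mx h T (N + 1) ω ∂μ ≤ ∫ ω in B, h ω ∂μ + ∫ ω, Mx h T (N + 1) ω ∂μ := by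
      have h2 : ∫ ω, Mx h T (N + 1) ω ∂μ = ∫ ω in B, Mx h T (N + 1) ω ∂μ := by
        rw [eq_comm]
        apply setIntegral_eq_integral_of_forall_compl_eq_zero
        intro ω hω
        rw [hB, Set.mem_ofPred_eq, not_lt] at hω
        exact le_antisymm hω (Mx_nonneg _ _ _)
      have h3 : ∫ ω in B, Mx h T (N + 1) ω ∂μ ≤ ∫ ω in B, (h ω + Mx h T (N + 1) (T ω)) ∂μ := by
        apply setIntegral_mono_on (hMi (N + 1)).integrableOn (hhi.add hMT).integrableOn hBm
        intro ω hω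
        rw [hB, Set.mem_ofPred_eq] at hω
        have h4 : Mx h T (N + 1) ω = max 0 (h ω + Mx h T N (T ω)) := rfl
        have h5 := Mx_succ (T := T) h N (T ω)
        rw [h4] at hω ⊢
        show max 0 (h ω + Mx h T N (T ω)) ≤ h ω + Mx h T (N + 1) (T ω)
        rcases le_total 0 (h ω + Mx h T N (T ω)) with h6 | h6
        · rw [max_eq_right h6]
          linarith
        · rw [max_eq_left h6] at hω
          exact absurd hω (lt_irrefl _)
      rw [integral_add hhi.integrableOn hMT.integrableOn] at h3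
      have h4 : ∫ ω in B, Mx h T (N + 1) (T ω) ∂μ ≤ ∫ ω, Mx h T (N + 1) (T ω) ∂μ :=
        setIntegral_le_integral hMT (Eventually.of_forall fun ω => Mx_nonneg _ _ _)
      rw [hcomp] at h4
      linarith
    have h2 : ∫ ω in B, h ω ∂μ = ∫ ω in B, g ω ∂μ - c * μ.real B := by
      rw [hh, integral_sub hg.integrableOn (integrable_const c).integrableOn, setIntegral_const, smul_eq_mul, mul_comm c]
    have h3 : ∫ ω in B, g ω ∂μ ≤ ∫ ω, g ω ∂μ := setIntegral_le_integral hg (Eventually.of_forall hg0)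
    linarith
  have hmono : Monotone fun N => {ω | 0 < Mx h T N ω} := fun m n hmn ω hω => by
    rw [Set.mem_ofPred_eq] at hω ⊢
    exact hω.trans_le (Mx_mono h hmn ω)
  have hU : {ω | ∃ n, 0 < n ∧ c * n < Sm g T n ω} ⊆ ⋃ N, {ω | 0 < Mx h T N ω} := by
    rintro ω ⟨n, hn, hω⟩
    rw [Set.mem_iUnion]
    refine ⟨n, ?_⟩
    rw [Set.mem_ofPred_eq]
    have h1 := Sm_le_Mx (T := T) h n ω
    have h2 : Sm h T n ω = Sm g T n ω - c * n := by
      rw [hh]
      unfold Sm
      rw [sum_sub_distrib, sum_const, card_range, nsmul_eq_mul, mul_comm c]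
    linarith
  refine (measureReal_mono hU (measure_ne_top _ _)).trans ?_
  have hlim := tendsto_measure_iUnion_atTop (μ := μ) hmono
  have hlim' : Tendsto (fun N => μ.real {ω | 0 < Mx h T N ω}) atTop (𝓝 (μ.real (⋃ N, {ω | 0 < Mx h T N ω}))) :=
    (ENNReal.tendsto_toReal (measure_ne_top _ _)).comp hlim
  refine le_of_tendsto' hlim' fun N => ?_
  rw [le_div_iff₀ hc, mul_comm]
  exact key N

/-- functions with a small integral have small averages -/
theorem small_avg [IsProbabilityMeasure μ] (hT : Ergodic T μ) {g : Ω → ℝ} (hgm : Measurable g) (hg0 : ∀ ω, 0 ≤ g ω)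
    (hg : Integrable g μ) {ε : ℝ} (hε : ∫ ω, g ω ∂μ < ε) :
    ∀ᵐ ω ∂μ, ∀ᶠ N : ℕ in atTop, Sm g T N ω ≤ ε * N := by
  have hI : 0 ≤ ∫ ω, g ω ∂μ := integral_nonneg hg0
  obtain ⟨c, hc1, hc2⟩ := exists_between hε
  have hc0 : 0 < c := lt_of_le_of_lt hI hc1
  obtain ⟨P, hP⟩ : ∃ P : ℕ → Set Ω, P = fun i : ℕ => {ω | ∃ᶠ N : ℕ in atTop, (c + 1 / ((i : ℝ) + 1)) * N < Sm g T N ω} := ⟨_, rfl⟩
  have hSm := Sm_meas hT.measurable hgm
  have hPm : ∀ i, MeasurableSet (P i) := by
    intro i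
    rw [hP]
    have : {ω | ∃ᶠ N : ℕ in atTop, (c + 1 / ((i : ℝ) + 1)) * N < Sm g T N ω} =
        limsup (fun N : ℕ => {ω | (c + 1 / ((i : ℝ) + 1)) * N < Sm g T N ω}) atTop := by
      ext ω
      rw [Filter.mem_limsup_iff_frequently_mem]
      rfl
    simp only [this]
    exact MeasurableSet.measurableSet_limsup fun N => measurableSet_lt measurable_const (hSm N)
  have hinv : T ⁻¹' (⋃ i, P i) ⊆ ⋃ i, P i := by
    intro ω hω
    rw [Set.mem_preimage, Set.mem_iUnion] at hω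
    obtain ⟨i, hi⟩ := hω
    rw [Set.mem_iUnion]
    refine ⟨i + 1, ?_⟩
    rw [hP] at hi ⊢
    simp only [Set.mem_ofPred_eq] at hi ⊢
    obtain ⟨a, ha⟩ : ∃ a : ℝ, a = c + 1 / ((i : ℝ) + 1) := ⟨_, rfl⟩
    obtain ⟨b, hb⟩ : ∃ b : ℝ, b = c + 1 / (((i + 1 : ℕ) : ℝ) + 1) := ⟨_, rfl⟩
    have hab : b < a := by
      rw [ha, hb]
      push_cast
      have : 1 / ((i : ℝ) + 1 + 1) < 1 / ((i : ℝ) + 1) := one_div_lt_one_div_of_lt (by positivity) (by linarith)
      linarith
    rw [← ha] at hi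
    rw [← hb]
    have h1 : ∀ᶠ N : ℕ in atTop, b * (((N + 1 : ℕ) : ℝ)) ≤ a * N := by
      filter_upwards [eventually_ge_atTop ⌈b / (a - b)⌉₊] with N hN
      have h2 := Nat.ceil_le.1 hN
      rw [div_le_iff₀ (sub_pos.2 hab)] at h2
      push_cast
      linarith
    have h2 := hi.and_eventually h1
    have h3 : ∃ᶠ N : ℕ in atTop, b * (((N + 1 : ℕ) : ℝ)) < Sm g T (N + 1) ω := by
      refine h2.mono fun N hN => ?_
      rw [Sm_succ]
      linarith [hg0 ω, hN.1, hN.2]
    rw [Filter.frequently_atTop] at h3 ⊢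
    intro M
    obtain ⟨N, hN1, hN2⟩ := h3 M
    exact ⟨N + 1, by omega, hN2⟩
  have hUm : MeasurableSet (⋃ i, P i) := MeasurableSet.iUnion hPm
  have hUle : μ.real (⋃ i, P i) ≤ (∫ ω, g ω ∂μ) / c := by
    refine (measureReal_mono ?_ (measure_ne_top _ _)).trans (maxi hT.toMeasurePreserving hgm hg0 hg hc0)
    intro ω hω
    rw [Set.mem_iUnion] at hω
    obtain ⟨i, hi⟩ := hω
    rw [hP] at hi
    simp only [Set.mem_ofPred_eq] at hi
    obtain ⟨n, hn1, hn2⟩ := (hi.and_eventually (eventually_gt_atTop 0)).exists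
    refine ⟨n, hn2, lt_of_le_of_lt ?_ hn1⟩
    have : (0 : ℝ) ≤ 1 / ((i : ℝ) + 1) * n := by positivity
    linarith
  have hlt : (∫ ω, g ω ∂μ) / c < 1 := (div_lt_one hc0).2 hc1
  have h0 : μ (⋃ i, P i) = 0 := by
    rcases hT.ae_empty_or_univ_of_preimage_ae_le hUm.nullMeasurableSet (Eventually.of_forall fun ω hω => hinv hω) with h | h
    · exact measure_mono_null (subset_refl _) (by rw [measure_congr h, measure_empty])
    · exfalso
      have h1 : μ.real (⋃ i, P i) = 1 := by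
        rw [measureReal_def, measure_congr h, measure_univ]
        simp
      linarith
  have h1 : ∀ᵐ ω ∂μ, ω ∉ ⋃ i, P i := measure_eq_zero_iff_ae_notMem.1 h0
  filter_upwards [h1] with ω hω
  rw [Set.mem_iUnion, not_exists] at hω
  obtain ⟨i, hi⟩ := exists_nat_one_div_lt (sub_pos.2 hc2)
  have h2 := hω i
  rw [hP] at h2
  simp only [Set.mem_ofPred_eq, Filter.not_frequently, not_lt] at h2
  filter_upwards [h2] with N hN
  refine hN.trans ?_
  gcongr
  linarith

/-- the pointwise ergodic theorem for nonnegative integrable functions -/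
theorem birk [IsProbabilityMeasure μ] (hT : Ergodic T μ) {f : Ω → ℝ} (hfm : Measurable f) (hf0 : ∀ ω, 0 ≤ f ω)
    (hf : Integrable f μ) :
    ∀ᵐ ω ∂μ, ∀ ε : ℝ, 0 < ε → ∀ᶠ N : ℕ in atTop,
      Sm f T N ω ≤ N * (∫ ω, f ω ∂μ + ε) ∧ N * (∫ ω, f ω ∂μ - ε) ≤ Sm f T N ω := by
  have hm : ∀ M : ℕ, Measurable fun ω => min (f ω) M := fun M => hfm.min measurable_const
  have hmi : ∀ M : ℕ, Integrable (fun ω => min (f ω) M) μ := fun M => hf.inf (integrable_const _)
  have ht : ∀ M : ℕ, Measurable fun ω => f ω - min (f ω) M := fun M => hfm.sub (hm M)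
  have hti : ∀ M : ℕ, Integrable (fun ω => f ω - min (f ω) M) μ := fun M => hf.sub (hmi M)
  have ht0 : ∀ (M : ℕ) ω, 0 ≤ f ω - min (f ω) M := fun M ω => sub_nonneg.2 (min_le_left _ _)
  have hlim : Tendsto (fun M : ℕ => ∫ ω, (f ω - min (f ω) M) ∂μ) atTop (𝓝 0) := by
    have := tendsto_integral_of_dominated_convergence (μ := μ) (F := fun (M : ℕ) ω => f ω - min (f ω) M) (f := fun _ => 0)
      f (fun M => (ht M).aestronglyMeasurable) hf (fun M => Eventually.of_forall fun ω => by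
        rw [Real.norm_eq_abs, abs_of_nonneg (ht0 M ω)]
        have : 0 ≤ min (f ω) M := le_min (hf0 ω) (Nat.cast_nonneg M)
        linarith) (Eventually.of_forall fun ω => by
        obtain ⟨M₀, hM₀⟩ := exists_nat_ge (f ω)
        apply tendsto_const_nhds.congr'
        filter_upwards [eventually_ge_atTop M₀] with M hM
        have : f ω ≤ M := hM₀.trans (by exact_mod_cast hM)
        rw [min_eq_left this, sub_self])
    simpa using this
  have hA : ∀ᵐ ω ∂μ, ∀ M : ℕ, Tendsto (fun n : ℕ => (∑ k ∈ range n, min (f (T^[k] ω)) M) / n) atTop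
      (𝓝 (∫ x, min (f x) M ∂μ)) := by
    rw [ae_all_iff]
    intro M
    exact Pool.Agent.Helper59.HP.erg_avg hT (hm M) (C := M) fun x => by
      rw [abs_of_nonneg (le_min (hf0 x) (Nat.cast_nonneg M))]
      exact min_le_right _ _
  have hB : ∀ᵐ ω ∂μ, ∀ M i : ℕ, ∫ x, (f x - min (f x) M) ∂μ < 1 / ((i : ℝ) + 1) →
      ∀ᶠ N : ℕ in atTop, Sm (fun x => f x - min (f x) M) T N ω ≤ 1 / ((i : ℝ) + 1) * N := by
    rw [ae_all_iff]
    intro M
    rw [ae_all_iff]
    intro i
    by_cases h : ∫ x, (f x - min (f x) M) ∂μ < 1 / ((i : ℝ) + 1)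
    · filter_upwards [small_avg hT (ht M) (ht0 M) (hti M) h] with ω hω _
      exact hω
    · exact Eventually.of_forall fun ω h' => absurd h' h
  filter_upwards [hA, hB] with ω hω1 hω2 ε hε
  obtain ⟨i, hi⟩ := exists_nat_one_div_lt (show 0 < ε / 2 by positivity)
  obtain ⟨M, hM⟩ := (hlim.eventually (gt_mem_nhds (show (0 : ℝ) < 1 / ((i : ℝ) + 1) by positivity))).exists
  have h1 := hω2 M i hM
  have hsplit : ∫ x, (f x - min (f x) M) ∂μ = ∫ x, f x ∂μ - ∫ x, min (f x) M ∂μ := integral_sub hf (hmi M)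
  have h0 : 0 ≤ ∫ x, (f x - min (f x) M) ∂μ := integral_nonneg (ht0 M)
  rw [hsplit] at hM h0
  have h2 := (hω1 M).eventually (Ioo_mem_nhds (show ∫ x, min (f x) M ∂μ - ε / 2 < ∫ x, min (f x) M ∂μ by linarith)
    (show ∫ x, min (f x) M ∂μ < ∫ x, min (f x) M ∂μ + ε / 2 by linarith))
  filter_upwards [h1, h2, eventually_gt_atTop 0] with N hN1 hN2 hN0
  have hN0' : (0 : ℝ) < N := by exact_mod_cast hN0
  have h3 : Sm f T N ω = Sm (fun x => f x - min (f x) M) T N ω + ∑ k ∈ range N, min (f (T^[k] ω)) M := by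
    unfold Sm
    rw [← sum_add_distrib]
    exact sum_congr rfl fun k _ => by ring
  have h4 : 0 ≤ Sm (fun x => f x - min (f x) M) T N ω := sum_nonneg fun k _ => ht0 M _
  rw [lt_div_iff₀ hN0', div_lt_iff₀ hN0'] at hN2
  obtain ⟨h5, h6⟩ := hN2
  have h7 : 1 / ((i : ℝ) + 1) * N ≤ ε / 2 * N := mul_le_mul_of_nonneg_right hi.le hN0'.le
  constructor
  · rw [h3]
    have h8 : (∫ x, min (f x) M ∂μ + ε / 2) * N ≤ (∫ x, f x ∂μ + ε / 2) * N :=
      mul_le_mul_of_nonneg_right (by linarith) hN0'.le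
    nlinarith
  · rw [h3]
    have h8 : (∫ x, f x ∂μ - ε) * N ≤ (∫ x, min (f x) M ∂μ - ε / 2) * N :=
      mul_le_mul_of_nonneg_right (by linarith) hN0'.le
    nlinarith

end Pool.Agent.Helper46.HT
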