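import Pool.Agent.Helper46.HT.Birk

/-!
# HT-C2' (helper17): few points are in the long jumps

Let `S k = Sm τ T k ω`, `s k - S k → σ`.  For large `n` the points `y n` with `s k + d < y n < s (k+1) + d - M` satisfy
`τ(T^k ω) > M - 1`; their number for a given `k` is at most `2 τ(T^k ω) / δ + 2`; only `k ≤ J`,
`J ≈ N δ / λ`, occur (`λ = ∫ τ`, `birk`).  So the number is at most
`∑_(k < J) (2/δ + 2/(M-1)) (τ 1_(τ > M-1))(T^k ω) + O(1)`, and `birk` for `τ 1_(τ > M-1)`.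
-/

set_option autoImplicit false

namespace Pool.Agent.Helper46.HT

open Finset MeasureTheory Filter Topology

variable {Ω : Type*} [MeasurableSpace Ω] {μ : Measure Ω} {T : Ω → Ω}

private theorem gap_lin {y : ℕ → ℝ} {n₀ : ℕ} {c : ℝ} (h : ∀ n, n₀ ≤ n → c ≤ y (n + 1) - y n) {n : ℕ} (hn : n₀ ≤ n) (l : ℕ) :
    c * l ≤ y (n + l) - y n := by
  induction l with
  | zero => simp
  | succ l ih =>
    have h1 := h (n + l) (by omega)
    have e1 : y (n + (l + 1)) = y (n + l + 1) := rfl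
    rw [e1]
    push_cast
    linarith

private theorem gap_lin' {y : ℕ → ℝ} {n₀ : ℕ} {c : ℝ} (h : ∀ n, n₀ ≤ n → y (n + 1) - y n ≤ c) {n : ℕ} (hn : n₀ ≤ n) (l : ℕ) :
    y (n + l) - y n ≤ c * l := by
  induction l with
  | zero => simp
  | succ l ih =>
    have h1 := h (n + l) (by omega)
    have e1 : y (n + (l + 1)) = y (n + l + 1) := rfl
    rw [e1]
    push_cast
    linarith

private theorem card_gap {y : ℕ → ℝ} {n₀ : ℕ} {c : ℝ} (hc : 0 < c) (h : ∀ n, n₀ ≤ n → c ≤ y (n + 1) - y n)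
    (B : Finset ℕ) (hB : B.Nonempty) {a b : ℝ} (h1 : ∀ n ∈ B, n₀ ≤ n ∧ a < y n ∧ y n < b) :
    (B.card : ℝ) ≤ (b - a) / c + 1 := by
  have hm1 := B.min'_mem hB
  have hm2 := B.max'_mem hB
  obtain ⟨n1, hn1⟩ : ∃ n1, n1 = B.min' hB := ⟨_, rfl⟩
  obtain ⟨n2, hn2⟩ : ∃ n2, n2 = B.max' hB := ⟨_, rfl⟩
  rw [← hn1] at hm1
  rw [← hn2] at hm2
  have hsub : B ⊆ Finset.Icc n1 n2 := by
    intro n hn
    rw [Finset.mem_Icc, hn1, hn2]
    exact ⟨B.min'_le n hn, B.le_max' n hn⟩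
  have hle : n1 ≤ n2 := (Finset.mem_Icc.1 (hsub hm1)).2
  have hcard : B.card ≤ n2 + 1 - n1 := by
    have := Finset.card_le_card hsub
    rwa [Nat.card_Icc] at this
  obtain ⟨l, hl⟩ := Nat.exists_eq_add_of_le hle
  have h2 := gap_lin h (h1 n1 hm1).1 l
  rw [← hl] at h2
  have h3 := (h1 n1 hm1).2.1
  have h4 := (h1 n2 hm2).2.2
  have h5 : (l : ℝ) ≤ (b - a) / c := by
    rw [le_div_iff₀ hc]
    linarith
  have h6 : B.card ≤ l + 1 := by omega
  have h7 : (B.card : ℝ) ≤ l + 1 := by exact_mod_cast h6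
  linarith

open Classical in
theorem cross [IsProbabilityMeasure μ] (hT : Ergodic T μ) {τ : Ω → ℝ} (hτm : Measurable τ) (hτ0 : ∀ ω, 0 ≤ τ ω)
    (hτ : Integrable τ μ) (hpos : 0 < ∫ ω, τ ω ∂μ) :
    ∀ᵐ ω ∂μ, ∀ κ : ℝ, 0 < κ → ∀ δ : ℝ, 0 < δ → ∃ M₀ : ℝ, ∀ M : ℝ, M₀ ≤ M → ∀ (s : ℕ → ℝ) (σ : ℝ),
      Tendsto (fun k => s k - Sm τ T k ω) atTop (𝓝 σ) → ∀ y : ℕ → ℝ,
      Tendsto (fun n : ℕ => y (n + 1) - y n) atTop (𝓝 δ) → ∀ d : ℝ, ∀ᶠ N : ℕ in atTop,
        (((range N).filter fun n => ∃ k, s k + d < y n ∧ y n < s (k + 1) + (d - M)).card : ℝ) ≤ κ * N := by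
  -- truncations
  obtain ⟨g, hg⟩ : ∃ g : ℕ → Ω → ℝ, g = fun (m : ℕ) ω => if (m : ℝ) < τ ω then τ ω else 0 := ⟨_, rfl⟩
  have hgm : ∀ m, Measurable (g m) := by
    intro m
    rw [hg]
    exact Measurable.ite (measurableSet_lt measurable_const hτm) hτm measurable_const
  have hg0 : ∀ m ω, 0 ≤ g m ω := by
    intro m ω
    rw [hg]
    simp only
    split_ifs
    · exact hτ0 ω
    · exact le_rfl
  have hgle : ∀ m ω, g m ω ≤ τ ω := by
    intro m ω
    rw [hg]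
    simp only
    split_ifs
    · exact le_rfl
    · exact hτ0 ω
  have hgi : ∀ m, Integrable (g m) μ := fun m => hτ.mono' (hgm m).aestronglyMeasurable (Eventually.of_forall fun ω => by
    rw [Real.norm_eq_abs, abs_of_nonneg (hg0 m ω)]
    exact hgle m ω)
  have hlim : Tendsto (fun m : ℕ => ∫ ω, g m ω ∂μ) atTop (𝓝 0) := by
    have := tendsto_integral_of_dominated_convergence (μ := μ) (F := g) (f := fun _ => 0) τ
      (fun m => (hgm m).aestronglyMeasurable) hτ (fun m => Eventually.of_forall fun ω => by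
        rw [Real.norm_eq_abs, abs_of_nonneg (hg0 m ω)]
        exact hgle m ω) (Eventually.of_forall fun ω => by
        obtain ⟨M₀, hM₀⟩ := exists_nat_ge (τ ω)
        apply tendsto_const_nhds.congr'
        filter_upwards [eventually_ge_atTop M₀] with M hM
        have h1 : τ ω ≤ M := hM₀.trans (by exact_mod_cast hM)
        rw [hg]
        simp only
        rw [if_neg (not_lt.2 h1)])
    simpa using this
  have hA : ∀ᵐ ω ∂μ, ∀ m : ℕ, ∀ ε : ℝ, 0 < ε → ∀ᶠ N : ℕ in atTop,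
      Sm (g m) T N ω ≤ N * (∫ ω, g m ω ∂μ + ε) ∧ N * (∫ ω, g m ω ∂μ - ε) ≤ Sm (g m) T N ω :=
    ae_all_iff.2 fun m => birk hT (hgm m) (hg0 m) (hgi m)
  obtain ⟨lam, hlam⟩ : ∃ lam : ℝ, lam = ∫ ω, τ ω ∂μ := ⟨_, rfl⟩
  have hB := birk hT hτm hτ0 hτ
  rw [← hlam] at hB hpos
  filter_upwards [hA, hB] with ω h1 h2 κ hκ δ hδ
  obtain ⟨L, hL⟩ := exists_nat_ge (5 * δ / lam)
  have hL0 : (0 : ℝ) < L := lt_of_lt_of_le (by positivity) hL
  obtain ⟨c₁, hc₁⟩ : ∃ c₁ : ℝ, c₁ = (2 / δ + 1) * L := ⟨_, rfl⟩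
  have hc₁0 : 0 < c₁ := by rw [hc₁]; positivity
  obtain ⟨ε, hε⟩ : ∃ ε : ℝ, ε = κ / (4 * c₁) := ⟨_, rfl⟩
  have hε0 : 0 < ε := by rw [hε]; positivity
  obtain ⟨m, hm1, hm2⟩ := ((hlim.eventually (gt_mem_nhds hε0)).and (eventually_ge_atTop 1)).exists
  have hm2' : (1 : ℝ) ≤ m := by exact_mod_cast hm2
  refine ⟨m + 1, fun M hM s σ hs y hy d => ?_⟩
  -- the gaps
  obtain ⟨n₀, hn₀⟩ := eventually_atTop.1 (hy.eventually (Ioo_mem_nhds (show δ / 2 < δ by linarith) (show δ < 2 * δ by linarith)))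
  have hgap1 : ∀ n, n₀ ≤ n → δ / 2 ≤ y (n + 1) - y n := fun n hn => (hn₀ n hn).1.le
  have hgap2 : ∀ n, n₀ ≤ n → y (n + 1) - y n ≤ 2 * δ := fun n hn => (hn₀ n hn).2.le
  -- the scales
  obtain ⟨k₀, hk₀⟩ := eventually_atTop.1 ((hs.eventually (Ioo_mem_nhds (show σ - 1 / 4 < σ by linarith) (show σ < σ + 1 / 4 by linarith))).and
    (h2 (lam / 2) (by linarith)))
  obtain ⟨R, hR⟩ := ((range k₀).image fun k => s (k + 1) + (d - M)).exists_le
  have hR' : ∀ k, k < k₀ → s (k + 1) + (d - M) ≤ R := fun k hk =>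
    hR _ (mem_image_of_mem _ (mem_range.2 hk))
  obtain ⟨l₁, hl₁⟩ := exists_nat_ge ((R - y n₀) / (δ / 2))
  obtain ⟨n₁, hn₁⟩ : ∃ n₁, n₁ = n₀ + l₁ := ⟨_, rfl⟩
  have hbig : ∀ n, n₁ ≤ n → R ≤ y n := by
    intro n hn
    obtain ⟨l, rfl⟩ := Nat.exists_eq_add_of_le (show n₀ ≤ n by omega)
    have h3 := gap_lin hgap1 le_rfl l
    have h4 : (l₁ : ℝ) ≤ l := by exact_mod_cast (by omega : l₁ ≤ l)
    rw [div_le_iff₀ (by linarith)] at hl₁
    have h5 : (l₁ : ℝ) * (δ / 2) ≤ l * (δ / 2) := by gcongr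
    linarith
  -- the times which occur
  obtain ⟨C₂, hC₂⟩ : ∃ C₂ : ℝ, C₂ = y n₀ - d - σ + 1 / 4 := ⟨_, rfl⟩
  have hLN : Tendsto (fun N : ℕ => L * N) atTop atTop := by
    refine tendsto_atTop_mono (fun N => ?_) tendsto_id
    have h3 : 0 < L := by exact_mod_cast hL0
    exact Nat.le_mul_of_pos_left N h3
  have h3 := hLN.eventually (h1 m ε hε0)
  obtain ⟨N₁, hN₁⟩ := exists_nat_ge (C₂ / (δ / 2))
  obtain ⟨N₂, hN₂⟩ := exists_nat_ge (n₁ / (κ / 2))
  filter_upwards [h3, eventually_ge_atTop N₁, eventually_ge_atTop N₂] with N hN3 hN4 hN5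
  have hN4' : (N₁ : ℝ) ≤ N := by exact_mod_cast hN4
  have hN5' : (N₂ : ℝ) ≤ N := by exact_mod_cast hN5
  have hN0 : (0 : ℝ) ≤ N := Nat.cast_nonneg N
  obtain ⟨B, hBd⟩ : ∃ B : ℕ → Finset ℕ, B = fun k => (range N).filter fun n => n₁ ≤ n ∧ k₀ ≤ k ∧ s k + d < y n ∧ y n < s (k + 1) + (d - M) :=
    ⟨_, rfl⟩
  have hsub : ((range N).filter fun n => ∃ k, s k + d < y n ∧ y n < s (k + 1) + (d - M)) ⊆ range n₁ ∪ (range (L * N)).biUnion B := by
    intro n hn
    rw [mem_filter, mem_range] at hn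
    obtain ⟨hnN, k, hk1, hk2⟩ := hn
    rw [mem_union, mem_range, mem_biUnion]
    rcases lt_or_ge n n₁ with h4 | h4
    · exact Or.inl h4
    · right
      have hk : k₀ ≤ k := by
        by_contra h5
        have h6 := hR' k (by omega)
        have h7 := hbig n h4
        linarith
      refine ⟨k, ?_, ?_⟩
      · rw [mem_range]
        obtain ⟨l, hl⟩ := Nat.exists_eq_add_of_le (show n₀ ≤ n by omega)
        have h5 := gap_lin' hgap2 le_rfl l
        rw [← hl] at h5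
        have h6 : (l : ℝ) ≤ N := by exact_mod_cast (by omega : l ≤ N)
        have h7 : 2 * δ * l ≤ 2 * δ * N := by gcongr
        obtain ⟨⟨h8, _⟩, _, h9⟩ := hk₀ k hk
        have h10 : (k : ℝ) * (lam / 2) < C₂ + 2 * δ * N := by
          rw [hC₂]
          linarith
        have h11 : C₂ ≤ δ / 2 * N := by
          rw [div_le_iff₀ (by linarith)] at hN₁
          have : (N₁ : ℝ) * (δ / 2) ≤ N * (δ / 2) := by gcongr
          linarith
        have h12 : (k : ℝ) < (5 * δ / lam) * N := by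
          rw [div_mul_eq_mul_div, lt_div_iff₀ hpos]
          linarith
        have h13 : (5 * δ / lam) * N ≤ L * N := by gcongr
        have h14 : (k : ℝ) < ((L * N : ℕ) : ℝ) := by
          push_cast
          linarith
        exact_mod_cast h14
      · rw [hBd]
        simp only
        rw [mem_filter, mem_range]
        exact ⟨hnN, h4, hk, hk1, hk2⟩
  have hcard : ∀ k, ((B k).card : ℝ) ≤ (2 / δ + 1) * g m (T^[k] ω) := by
    intro k
    rcases (B k).eq_empty_or_nonempty with h4 | h4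
    · rw [h4, card_empty, Nat.cast_zero]
      exact mul_nonneg (by positivity) (hg0 _ _)
    · have hmem : ∀ n ∈ B k, n₁ ≤ n ∧ k₀ ≤ k ∧ s k + d < y n ∧ y n < s (k + 1) + (d - M) := by
        intro n hn
        rw [hBd] at hn
        simp only at hn
        exact (mem_filter.1 hn).2
      obtain ⟨n, hn⟩ := h4
      obtain ⟨_, hk, h6, h7⟩ := hmem n hn
      have h8 := (hk₀ k hk).1
      have h9 := (hk₀ (k + 1) (by omega)).1
      rw [Sm_succ'] at h9
      obtain ⟨t, ht⟩ : ∃ t : ℝ, t = τ (T^[k] ω) := ⟨_, rfl⟩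
      rw [← ht] at h9
      have h10 : s (k + 1) - s k ≤ t + 1 / 2 := by linarith [h8.1, h9.2]
      have h11 : (m : ℝ) < t := by linarith
      have h12 := card_gap (y := y) (n₀ := n₀) (c := δ / 2) (by linarith) hgap1 (B k) ⟨n, hn⟩ (a := s k + d) (b := s (k + 1) + (d - M))
        (fun n' hn' => ⟨by have := (hmem n' hn').1; omega, (hmem n' hn').2.2.1, (hmem n' hn').2.2.2⟩)
      refine h12.trans ?_
      have h13 : g m (T^[k] ω) = t := by
        rw [hg]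
        simp only
        rw [← ht, if_pos h11]
      rw [h13]
      have h14 : (s (k + 1) + (d - M) - (s k + d)) / (δ / 2) ≤ t / (δ / 2) :=
        div_le_div_of_nonneg_right (by linarith) (by linarith)
      have h15 : t / (δ / 2) = 2 / δ * t := by field_simp
      rw [h15] at h14
      linarith
  have h4 : ((((range N).filter fun n => ∃ k, s k + d < y n ∧ y n < s (k + 1) + (d - M)).card : ℕ) : ℝ) ≤
      n₁ + ∑ k ∈ range (L * N), ((B k).card : ℝ) := by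
    have h5 := (card_le_card hsub).trans ((card_union_le _ _).trans (add_le_add le_rfl card_biUnion_le))
    rw [card_range] at h5
    exact_mod_cast h5
  refine h4.trans ?_
  have h5 : ∑ k ∈ range (L * N), ((B k).card : ℝ) ≤ (2 / δ + 1) * Sm (g m) T (L * N) ω := by
    unfold Sm
    rw [mul_sum]
    exact sum_le_sum fun k _ => hcard k
  have h6 := hN3.1
  have h7 : (2 / δ + 1) * Sm (g m) T (L * N) ω ≤ (2 / δ + 1) * (((L * N : ℕ) : ℝ) * (2 * ε)) := by
    apply mul_le_mul_of_nonneg_left _ (by positivity)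
    refine h6.trans ?_
    apply mul_le_mul_of_nonneg_left _ (Nat.cast_nonneg _)
    linarith
  have h8 : (2 / δ + 1) * (((L * N : ℕ) : ℝ) * (2 * ε)) = κ / 2 * N := by
    push_cast
    have h9 : (2 / δ + 1) * ((L : ℝ) * N * (2 * ε)) = c₁ * (2 * ε) * N := by rw [hc₁]; ring
    rw [h9, hε]
    have h10 : c₁ * (2 * (κ / (4 * c₁))) = κ / 2 := by
      field_simp
      norm_num
    rw [h10]
  have h9 : (n₁ : ℝ) ≤ κ / 2 * N := by
    rw [div_le_iff₀ (by linarith)] at hN₂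
    have : (N₂ : ℝ) * (κ / 2) ≤ N * (κ / 2) := by gcongr
    linarith
  linarith

end Pool.Agent.Helper46.HT
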