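import Pool.Agent.Helper46.HS.Tau
import Pool.Agent.Helper46.HT.Birk

/-!
# HT (theorem H3): definitions for the last blocks
-/

set_option autoImplicit false

namespace Pool.Agent.Helper46.HT

open Finset MeasureTheory ProbabilityTheory Filter Topology
open Pool.Agent.Helper46.HR Pool.Agent.Helper46.HS

/-- the sum along the orbit, under the roof function `τ` -/
noncomputable def Gf {Ω : Type*} (T : Ω → Ω) (τ : Ω → ℝ) (q : Ω → ℝ → ℝ) (ω : Ω) (Y : ℝ) : ℝ :=
  ∑' k : ℕ, q (T^[k] ω) (Y - Sm τ T k ω)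

variable {Ω : Type*} [MeasurableSpace Ω] {E : Type*} [MeasurableSpace E]

/-- the conditional characteristic function of `X` in the chart given by the last `m` maps, in logarithmic
scale, in the window `[u, v]` -/
noncomputable def qS (μ : Measure Ω) [IsFiniteMeasure μ] (p q : ℝ) (T : Ω ≃ᵐ Ω) (ξ : Ω → E) (φ : E → ℝ → ℝ) (X : Ω → ℝ)
    (m : ℕ) (u v : ℝ) (ω : Ω) (y : ℝ) : ℝ := bump u v y * ‖psi μ p q T ξ φ X m (pst T ξ ω) (Real.exp y)‖ ^ 2

end Pool.Agent.Helper46.HT
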