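import Pool.Agent.Helper46.HT.Defs
import Pool.Agent.Helper82.HS.Atom

/-!
# HT-C5 (helper82): the dichotomy

`W ω = kap (pst ω) {X ω}`; `P(X = x | GG n)(ω)` is `kap (pst (T^n ω))` of the point `X(T^n ω)` if `X ω = x`, since the
maps `φ ..` are injective on `[p,q]`.  It tends to `1` on `{X = x}` if it is positive; stationarity: `W` is `0` or `1`
almost everywhere; ergodicity: `W = 0` a.e. (no atoms) or `W = 1` a.e. (then `X` is a function of the past).  `X` is
measurable with respect to `⨆ n, GG n` since `|X - pcm φ (pst (T^n ω)) n p| ≤ C r^n`.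
-/

set_option autoImplicit false

namespace Pool.Agent.Helper46.HT

open Finset MeasureTheory ProbabilityTheory Filter Topology
open Pool.Agent.Helper46.HR Pool.Agent.Helper46.HS

variable {Ω : Type*} [MeasurableSpace Ω] {E : Type*} [MeasurableSpace E] {μ : Measure Ω} {p q : ℝ} {T : Ω ≃ᵐ Ω} {ξ : Ω → E}
    {φ φ' : E → ℝ → ℝ} {X : Ω → ℝ} {C r K ε : ℝ}

theorem dichotomy (h : Con p q φ φ' C r K ε) (hS : Prc μ p q T ξ φ X) [IsProbabilityMeasure μ] (hE : Ergodic T μ)
    (hX : ∀ f : (ℕ → E) → ℝ, Measurable f → ¬ (X =ᵐ[μ] fun ω => f (pst T ξ ω))) :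
    ∀ᵐ ω ∂μ, ∀ z : ℝ, kap μ T ξ X (pst T ξ ω) {z} = 0 :=
  Pool.Agent.Helper82.HS.noAtoms h hS hE hX

end Pool.Agent.Helper46.HT
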