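import Pool.Agent.Helper46.HT.FlowA

/-!
# HT-C2 (helper46): arbitrary phases under a roof function
-/

set_option autoImplicit false

namespace Pool.Agent.Helper46.HT

open Finset MeasureTheory ProbabilityTheory Filter Topology
open Pool.Agent.Helper32.HP (IsQ JJ)
open Pool.Agent.Helper59.HP (cesaro JJ_bd ex)

theorem free_flow {Ω : Type*} [MeasurableSpace Ω] {μ : Measure Ω} [IsProbabilityMeasure μ] {T : Ω → Ω}
    (hT : Ergodic T μ) {τ : Ω → ℝ} (hτm : Measurable τ) (hτ0 : ∀ ω, 0 ≤ τ ω) (hτ : Integrable τ μ) {c D : ℝ} (hc : 0 < c)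
    (hgr : ∀ (k : ℕ) ω, c * k - D ≤ Sm τ T k ω) {q : Ω → ℝ → ℝ} {Λ A : ℝ} (hΛ : 0 ≤ Λ) (hA : 0 ≤ A) (hq : IsQ q Λ A) :
    ∃ Z : Set ℝ, Z.Countable ∧ (∀ t ∈ Z, ∃ m : ℤ, m ≠ 0 ∧ ∃ h : Ω → ℂ, Measurable h ∧ (∀ ω, ‖h ω‖ = 1) ∧
        ∀ᵐ ω ∂μ, h (T ω) = ex (m / t * τ ω) * h ω) ∧
      ∀ᵐ ω ∂μ, ∀ δ : ℝ, 0 < δ → δ ∉ Z → ∀ y : ℕ → ℝ,
      Tendsto (fun n : ℕ => y (n + 1) - y n) atTop (𝓝 δ) →
        ∀ ε : ℝ, 0 < ε → ∀ᶠ N : ℕ in atTop, ∑ n ∈ range N, Gf T τ q ω (y n) ≤ N * (JJ μ q A / (∫ ω, τ ω ∂μ) + ε) := by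
  classical
  have : Nonempty Ω := nonempty_of_isProbabilityMeasure μ
  have hD : 0 ≤ D := by
    have := hgr 0 (Classical.arbitrary Ω)
    rw [Sm_zero] at this
    simp at this
    linarith
  -- the mean of the roof function is positive
  have hlm : 0 < ∫ ω, τ ω ∂μ := by
    obtain ⟨k, hk⟩ := exists_nat_gt (D / c)
    rw [div_lt_iff₀ hc] at hk
    have h1 := Sm_integral hT.toMeasurePreserving hτm hτ k
    have h2 : ∫ ω, (c * k - D) ∂μ ≤ ∫ ω, Sm τ T k ω ∂μ :=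
      integral_mono (integrable_const _) (Sm_int hT.toMeasurePreserving hτ k) fun ω => hgr k ω
    rw [h1, integral_const, probReal_univ, one_smul] at h2
    have h3 : 0 < (k : ℝ) * ∫ ω, τ ω ∂μ := by linarith
    exact (pos_iff_pos_of_mul_pos h3).1 (by
      have : 0 < (k : ℝ) * c := by linarith
      exact (pos_iff_pos_of_mul_pos this).2 hc)
  obtain ⟨k₀, hk₀⟩ : ∃ k₀ : ℕ, ∀ ω, A ≤ Sm τ T k₀ ω := by
    obtain ⟨k, hk⟩ := exists_nat_ge ((A + D) / c)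
    rw [div_le_iff₀ hc] at hk
    exact ⟨k, fun ω => by linarith [hgr k ω]⟩
  obtain ⟨S, hS1, hS3, hS2⟩ := tmS_mean hT hτm hτ hΛ hA hq k₀ hk₀
  obtain ⟨lam, hlam⟩ : ∃ lam : ℝ, lam = ∫ ω, τ ω ∂μ := ⟨_, rfl⟩
  rw [← hlam] at hlm ⊢
  obtain ⟨I, hI⟩ : ∃ I : ℝ, I = JJ μ q A := ⟨_, rfl⟩
  rw [← hI]
  have hI0 : 0 ≤ I := by
    rw [hI]; unfold JJ
    refine integral_nonneg fun w => ?_
    exact intervalIntegral.integral_nonneg hA fun u _ => hq.nn _ _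
  refine ⟨((fun p : ℤ × ℝ => (p.1 : ℝ) / p.2) '' (Set.univ ×ˢ S)) \ {0},
    ((Set.countable_univ.prod hS1).image _).mono Set.sdiff_subset, ?_, ?_⟩
  · rintro t ⟨⟨⟨m, l⟩, ⟨-, hl⟩, hml⟩, ht⟩
    simp only at hml
    rw [Set.mem_singleton_iff] at ht
    have hl0 : l ≠ 0 := by
      rintro rfl
      rw [div_zero] at hml
      exact ht hml.symm
    have hm0 : m ≠ 0 := by
      rintro rfl
      rw [Int.cast_zero, zero_div] at hml
      exact ht hml.symm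
    obtain ⟨h, h1, h2, h3⟩ := hS3 l hl
    refine ⟨m, hm0, h, h1, h2, ?_⟩
    have hm0' : (m : ℝ) ≠ 0 := by exact_mod_cast hm0
    have e1 : (m : ℝ) / t = l := by
      rw [← hml]
      field_simp
    rw [e1]
    exact h3
  filter_upwards [tmS_birk hT hτm hτ0 hΛ hA hq, birk hT hτm hτ0 hτ] with w ⟨hbad, htm⟩ hbk δ hδ hδE y hy ε hε
  rw [← hlam] at hbk
  have hgood : ∀ m : ℤ, (m:ℝ) / δ ∉ S ∨ (m:ℝ) / δ = 0 := by
    intro m
    by_cases hm : (m:ℝ) / δ = 0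
    · exact Or.inr hm
    · left
      intro hmS
      apply hδE
      refine ⟨⟨(m, (m:ℝ) / δ), ⟨Set.mem_univ _, hmS⟩, ?_⟩, hδ.ne'⟩
      simp only
      have : (m:ℝ) ≠ 0 := fun h => hm (by rw [h, zero_div])
      field_simp
  -- constants
  obtain ⟨ε₁, hε₁, hε₁'⟩ : ∃ ε₁ : ℝ, 0 < ε₁ ∧ δ / lam * (5 * ε₁) ≤ ε / 4 := ⟨ε * lam / (20 * δ), by positivity, by
    apply le_of_eq
    field_simp
    ring⟩
  obtain ⟨V, hV⟩ : ∃ V : ℝ, V = I / δ + 5 * ε₁ := ⟨_, rfl⟩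
  have hV0 : 0 ≤ V := by rw [hV]; positivity
  have hVb : δ / lam * V ≤ I / lam + ε / 4 := by
    rw [hV, mul_add]
    have : δ / lam * (I / δ) = I / lam := by field_simp
    linarith
  obtain ⟨t, ht0, ht1, ht2⟩ : ∃ t : ℝ, 0 < t ∧ t < lam ∧ (δ + t) / (lam - t) * V ≤ I / lam + ε / 2 := by
    have hcont : ContinuousAt (fun t : ℝ => (δ + t) / (lam - t) * V) 0 := by
      apply ContinuousAt.mul _ continuousAt_const
      apply ContinuousAt.div (by fun_prop) (by fun_prop)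
      rw [sub_zero]
      exact hlm.ne'
    have h1 : (fun t : ℝ => (δ + t) / (lam - t) * V) 0 < I / lam + ε / 2 := by
      simp only [add_zero, sub_zero]
      linarith
    have h2 := hcont.eventually (gt_mem_nhds h1)
    have h3 : ∀ᶠ t : ℝ in 𝓝[>] 0, 0 < t ∧ t < lam ∧ (δ + t) / (lam - t) * V < I / lam + ε / 2 := by
      filter_upwards [self_mem_nhdsWithin, (gt_mem_nhds hlm).filter_mono nhdsWithin_le_nhds,
        h2.filter_mono nhdsWithin_le_nhds] with t a1 a2 a3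
      exact ⟨a1, a2, a3⟩
    obtain ⟨t, a1, a2, a3⟩ := h3.exists
    exact ⟨t, a1, a2, a3.le⟩
  obtain ⟨F, a, ha0, hF⟩ := av_boundS (μ := μ) (T := T) (τ := τ) hΛ hA hq hδ hε₁
  -- the length of the blocks
  have hEB : Tendsto (fun K : ℕ => ∑ m ∈ F, a m * ∫ w, tmS μ T τ q A (m / δ) K w ∂μ) atTop (𝓝 0) := by
    have : Tendsto (fun K : ℕ => ∑ m ∈ F, a m * ∫ w, tmS μ T τ q A (m / δ) K w ∂μ) atTop
        (𝓝 (∑ m ∈ F, a m * 0)) :=
      tendsto_finsetSum _ fun m _ => (hS2 _ (hgood m)).const_mul _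
    simpa using this
  obtain ⟨K, hK1, hK0⟩ := ((hEB.eventually (gt_mem_nhds (show 0 < ε₁ / 2 by positivity))).and (eventually_gt_atTop 0)).exists
  have hK0' : (0 : ℝ) < K := by exact_mod_cast hK0
  obtain ⟨Rm, hRm⟩ : ∃ Rm : ℝ, Rm = 2 * A / δ + 1 := ⟨_, rfl⟩
  have hRm0 : 0 < Rm := by rw [hRm]; positivity
  obtain ⟨Gm, hGm⟩ : ∃ Gm : ℝ, Gm = (A + D) / c + 1 := ⟨_, rfl⟩
  have hGm0 : 0 < Gm := by rw [hGm]; positivity
  -- the cutoff
  obtain ⟨M, hM⟩ := ((badf_tendsto (μ := μ) (τ := τ) hT.measurable hτm K).eventually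
      (gt_mem_nhds (show (0 : ℝ) < ε₁ / (2 * Rm) by positivity))).exists
  -- the drift
  obtain ⟨η, hη0, hη1, hη2⟩ : ∃ η : ℝ, 0 < η ∧ η ≤ δ / 2 ∧
      (2 * ((M : ℝ) + A) / δ + 1) * (Λ * (2 * ((M : ℝ) + A) / δ * η)) ≤ ε₁ := by
    obtain ⟨U, hU⟩ : ∃ U : ℝ, U = (2 * ((M : ℝ) + A) / δ + 1) * (Λ * (2 * ((M : ℝ) + A) / δ)) := ⟨_, rfl⟩
    have hU0 : 0 ≤ U := by rw [hU]; positivity
    refine ⟨min (δ / 2) (ε₁ / (U + 1)), lt_min (by positivity) (by positivity), min_le_left _ _, ?_⟩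
    have h1 : min (δ / 2) (ε₁ / (U + 1)) ≤ ε₁ / (U + 1) := min_le_right _ _
    calc (2 * ((M : ℝ) + A) / δ + 1) * (Λ * (2 * ((M : ℝ) + A) / δ * min (δ / 2) (ε₁ / (U + 1)))) =
        U * min (δ / 2) (ε₁ / (U + 1)) := by rw [hU]; ring
      _ ≤ U * (ε₁ / (U + 1)) := by gcongr
      _ ≤ ε₁ := by
        rw [mul_div_assoc', div_le_iff₀ (by positivity)]
        nlinarith
  have hev3 : ∀ᶠ n : ℕ in atTop, |y (n + 1) - y n - δ| ≤ η := by
    have h1 : Tendsto (fun n : ℕ => |y (n + 1) - y n - δ|) atTop (𝓝 0) := by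
      have := (hy.sub_const δ).abs
      simpa using this
    exact (h1.eventually (gt_mem_nhds hη0)).mono fun _ h => h.le
  obtain ⟨n₀, hn₀⟩ := eventually_atTop.1 hev3
  obtain ⟨C₀, hC₀, hC₀'⟩ := seq_upper hy ht0 hδ
  -- Birkhoff sums
  have hBj : ∀ᶠ J : ℕ in atTop, ∑ j ∈ range J, (∑ m ∈ F, a m * tmS μ T τ q A (m / δ) K (T^[j] w)) ≤ J * ε₁ := by
    obtain ⟨ρ, hρ, hρ'⟩ : ∃ ρ : ℝ, 0 < ρ ∧ (∑ m ∈ F, a m) * ρ ≤ ε₁ / 2 := by
      have h0 : 0 ≤ ∑ m ∈ F, a m := sum_nonneg fun m _ => ha0 m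
      refine ⟨ε₁ / 2 / ((∑ m ∈ F, a m) + 1), by positivity, ?_⟩
      rw [mul_div_assoc', div_le_iff₀ (by positivity)]
      nlinarith
    have h1 : ∀ᶠ J : ℕ in atTop, ∀ m ∈ F, ∑ j ∈ range J, tmS μ T τ q A (m / δ) K (T^[j] w) ≤
        J * ((∫ w, tmS μ T τ q A (m / δ) K w ∂μ) + ρ) := by
      rw [Filter.eventually_all_finset]
      intro m _
      exact htm K (m / δ) ρ hρ
    filter_upwards [h1] with J hJ
    rw [sum_comm]
    calc ∑ m ∈ F, ∑ j ∈ range J, a m * tmS μ T τ q A (m / δ) K (T^[j] w)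
        = ∑ m ∈ F, a m * ∑ j ∈ range J, tmS μ T τ q A (m / δ) K (T^[j] w) := sum_congr rfl fun m _ => by rw [mul_sum]
      _ ≤ ∑ m ∈ F, a m * (J * ((∫ w, tmS μ T τ q A (m / δ) K w ∂μ) + ρ)) :=
          sum_le_sum fun m hm => mul_le_mul_of_nonneg_left (hJ m hm) (ha0 m)
      _ = J * ((∑ m ∈ F, a m * ∫ w, tmS μ T τ q A (m / δ) K w ∂μ) + (∑ m ∈ F, a m) * ρ) := by
          rw [sum_mul, ← sum_add_distrib, mul_sum]
          exact sum_congr rfl fun m _ => by ring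
      _ ≤ J * ε₁ := by
          have : (0 : ℝ) ≤ J := Nat.cast_nonneg J
          apply mul_le_mul_of_nonneg_left _ this
          linarith
  have hbJ : ∀ᶠ J : ℕ in atTop, Rm * ∑ j ∈ range J, badf T τ M K (T^[j] w) ≤ J * ε₁ := by
    filter_upwards [hbad K M (ε₁ / (2 * Rm)) (by positivity)] with J hJ
    have h0 : (0 : ℝ) ≤ J := Nat.cast_nonneg J
    calc Rm * ∑ j ∈ range J, badf T τ M K (T^[j] w) ≤ Rm * (J * ((∫ w, badf T τ M K w ∂μ) + ε₁ / (2 * Rm))) := by gcongr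
      _ ≤ Rm * (J * (ε₁ / (2 * Rm) + ε₁ / (2 * Rm))) := by gcongr
      _ = J * ε₁ := by
        field_simp
        ring
  have hSJ : ∀ᶠ J : ℕ in atTop, J * (lam - t) ≤ Sm τ T J w := by
    filter_upwards [hbk t ht0] with J hJ
    exact hJ.2
  -- the number of steps
  have hlt : 0 < lam - t := by linarith
  obtain ⟨Jf, hJf⟩ : ∃ Jf : ℕ → ℕ, Jf = fun N : ℕ => ⌈(C₀ + (δ + t) * N) / (lam - t)⌉₊ := ⟨_, rfl⟩
  have hJt : Tendsto Jf atTop atTop := by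
    rw [hJf]
    apply tendsto_nat_ceil_atTop.comp
    apply Tendsto.atTop_div_const hlt
    apply tendsto_atTop_add_const_left
    exact tendsto_natCast_atTop_atTop.const_mul_atTop (by positivity)
  obtain ⟨Cc, hCc⟩ : ∃ Cc : ℝ, Cc = n₀ * Gm + K * Rm + (C₀ / (lam - t) + 1) * V := ⟨_, rfl⟩
  have hev5 : ∀ᶠ N : ℕ in atTop, Cc * (2 / ε) ≤ N := tendsto_natCast_atTop_atTop.eventually_ge_atTop _
  filter_upwards [hJt.eventually hBj, hJt.eventually hbJ, hJt.eventually hSJ, hev5, eventually_ge_atTop n₀] with N h1 h2 h3 h4 h5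
  obtain ⟨J, hJ⟩ : ∃ J, J = Jf N := ⟨_, rfl⟩
  rw [← hJ] at h1 h2 h3
  have hN0 : (0 : ℝ) ≤ N := Nat.cast_nonneg N
  have hJ0 : (0 : ℝ) ≤ J := Nat.cast_nonneg J
  have hJge : (C₀ + (δ + t) * N) / (lam - t) ≤ J := by
    rw [hJ, hJf]
    exact Nat.le_ceil _
  have hJle : (J : ℝ) ≤ (C₀ + (δ + t) * N) / (lam - t) + 1 := by
    rw [hJ, hJf]
    exact (Nat.ceil_lt_add_one (by positivity)).le
  have hyS : ∀ n, n < N → y n ≤ Sm τ T J w := by
    intro n hn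
    rw [div_le_iff₀ hlt] at hJge
    have : (n : ℝ) ≤ N := by exact_mod_cast hn.le
    have h6 : (δ + t) * n ≤ (δ + t) * N := by gcongr
    linarith [hC₀' n]
  -- rows
  obtain ⟨R, hR⟩ : ∃ R : ℕ → ℝ, R = fun k => ∑ n ∈ Ico n₀ N, q (T^[k] w) (y n - Sm τ T k w) := ⟨_, rfl⟩
  have hR0 : ∀ k, 0 ≤ R k := fun k => by
    rw [hR]
    exact sum_nonneg fun n _ => hq.nn _ _
  have hRle : ∀ k, R k ≤ Rm := fun k => by
    rw [hR, hRm]
    exact row_le hδ hn₀ hη1 hA hq N (T^[k] w) (Sm τ T k w)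
  have hsplit : ∑ n ∈ range N, Gf T τ q w (y n) ≤ n₀ * Gm + ∑ k ∈ range J, R k := by
    rw [← sum_range_add_sum_Ico _ h5]
    apply add_le_add
    · refine (sum_le_sum (g := fun _ => Gm) fun n _ => ?_).trans (by simp)
      rw [hGm]
      exact Gf_le hτ0 hA hq hc hgr w _
    · rw [hR]
      simp only
      rw [sum_comm]
      exact sum_le_sum fun n hn => le_of_eq (Gf_eq hτ0 hq w (hyS n (mem_Ico.1 hn).2))
  have hblock : ∀ j, ∑ i ∈ range K, R (j + i) ≤ K * (I / δ + ε₁ + ∑ m ∈ F, a m * tmS μ T τ q A (m / δ) K (T^[j] w)) +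
      K * ε₁ + K * (Rm * badf T τ M K (T^[j] w)) := by
    intro j
    have hb0 := badf_nonneg (T := T) (τ := τ) M K (T^[j] w)
    have hsum0 : 0 ≤ ∑ m ∈ F, a m * tmS μ T τ q A (m / δ) K (T^[j] w) := sum_nonneg fun m _ => mul_nonneg (ha0 m) (norm_nonneg _)
    by_cases hbj : (M : ℝ) < Sm τ T K (T^[j] w)
    · have e1 : badf T τ M K (T^[j] w) = 1 := by
        unfold badf
        rw [if_pos hbj]
      rw [e1, mul_one]
      have e2 : ∑ i ∈ range K, R (j + i) ≤ K * Rm := by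
        refine (sum_le_sum (g := fun _ => Rm) fun i _ => hRle (j + i)).trans ?_
        rw [sum_const, card_range, nsmul_eq_mul]
      have e3 : 0 ≤ K * (I / δ + ε₁ + ∑ m ∈ F, a m * tmS μ T τ q A (m / δ) K (T^[j] w)) := by positivity
      have e4 : 0 ≤ K * ε₁ := by positivity
      linarith
    · obtain ⟨x, hx⟩ := block hΛ hA hq hτ0 hδ hn₀ hη1 N j K hK0 w M (not_lt.1 hbj)
      have e1 := hF K (T^[j] w) x hK0
      rw [← hI] at e1
      have e2 := mul_le_mul_of_nonneg_left e1 hK0'.le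
      have e3 := mul_le_mul_of_nonneg_left hη2 hK0'.le
      have e4 : 0 ≤ K * (Rm * badf T τ M K (T^[j] w)) := by positivity
      have e5 : ∑ i ∈ range K, R (j + i) = ∑ i ∈ range K, ∑ n ∈ Ico n₀ N, q (T^[j + i] w) (y n - Sm τ T (j + i) w) := by rw [hR]
      rw [e5]
      linarith
  have hces := cesaro hR0 hRle K J
  have htot : (K : ℝ) * ∑ k ∈ range J, R k ≤ K * (J * V + K * Rm) := by
    refine hces.trans ?_
    have e1 : ∑ j ∈ range J, ∑ i ∈ range K, R (j + i) ≤ ∑ j ∈ range J, (K * (I / δ + ε₁ + ∑ m ∈ F, a m * tmS μ T τ q A (m / δ) K (T^[j] w)) +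
      K * ε₁ + K * (Rm * badf T τ M K (T^[j] w))) := sum_le_sum fun j _ => hblock j
    have e2 : ∑ j ∈ range J, (K * (I / δ + ε₁ + ∑ m ∈ F, a m * tmS μ T τ q A (m / δ) K (T^[j] w)) +
      K * ε₁ + K * (Rm * badf T τ M K (T^[j] w))) = K * (J * (I / δ + ε₁) + ∑ j ∈ range J, (∑ m ∈ F, a m * tmS μ T τ q A (m / δ) K (T^[j] w)) +
        J * ε₁ + Rm * ∑ j ∈ range J, badf T τ M K (T^[j] w)) := by
      rw [sum_add_distrib, sum_add_distrib, ← mul_sum, ← mul_sum, sum_add_distrib, sum_const, sum_const, card_range,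
        nsmul_eq_mul, nsmul_eq_mul, ← mul_sum, ← mul_sum]
      ring
    rw [e2] at e1
    have e3 : K * (J * (I / δ + ε₁) + ∑ j ∈ range J, (∑ m ∈ F, a m * tmS μ T τ q A (m / δ) K (T^[j] w)) +
        J * ε₁ + Rm * ∑ j ∈ range J, badf T τ M K (T^[j] w)) ≤ K * (J * V) := by
      apply mul_le_mul_of_nonneg_left _ hK0'.le
      rw [hV]
      have e4 : 0 ≤ J * ε₁ := by positivity
      linarith
    linarith
  have htot' : ∑ k ∈ range J, R k ≤ J * V + K * Rm := le_of_mul_le_mul_left htot hK0'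
  have hJV : J * V ≤ ((C₀ + (δ + t) * N) / (lam - t) + 1) * V := mul_le_mul_of_nonneg_right hJle hV0
  have hJV' : ((C₀ + (δ + t) * N) / (lam - t) + 1) * V = N * ((δ + t) / (lam - t) * V) + (C₀ / (lam - t) + 1) * V := by
    field_simp
    ring
  have hmain : N * ((δ + t) / (lam - t) * V) ≤ N * (I / lam + ε / 2) := mul_le_mul_of_nonneg_left ht2 hN0
  have hCN : Cc ≤ N * (ε / 2) := by
    have := mul_le_mul_of_nonneg_right h4 (show 0 ≤ ε / 2 by positivity)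
    have e1 : Cc * (2 / ε) * (ε / 2) = Cc := by field_simp
    linarith
  rw [hCc] at hCN
  have hfin : (N : ℝ) * (I / lam + ε) = N * (I / lam + ε / 2) + N * (ε / 2) := by ring
  rw [hfin]
  linarith

end Pool.Agent.Helper46.HT
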