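import Pool.Agent.Helper46.HT.AvS
import Pool.Agent.Helper46.HT.Defs
import Pool.Agent.Helper59.HP.Fin

/-!
# HT-C2: the block estimate
-/

set_option autoImplicit false

namespace Pool.Agent.Helper46.HT

open Finset MeasureTheory Filter Topology
open Pool.Agent.Helper59.HP (Bump per per_eq per_nonneg pf drift)
open Pool.Agent.Helper32.HP (IsQ JJ)

variable {Ω : Type*} [MeasurableSpace Ω] {T : Ω → Ω} {τ : Ω → ℝ} {q : Ω → ℝ → ℝ} {Λ A : ℝ}

theorem card_le_of_gap (P : Finset ℕ) (B : ℝ) (hB : 0 ≤ B) (h : ∀ i ∈ P, ∀ j ∈ P, i ≤ j → (j : ℝ) - i ≤ B) :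
    (P.card : ℝ) ≤ B + 1 := by
  rcases P.eq_empty_or_nonempty with he | hne
  · rw [he, card_empty, Nat.cast_zero]
    linarith
  have h1 := h _ (P.min'_mem hne) _ (P.max'_mem hne) (P.min'_le _ (P.max'_mem hne))
  have h2 : P ⊆ Icc (P.min' hne) (P.max' hne) := fun k hk => mem_Icc.2 ⟨P.min'_le k hk, P.le_max' k hk⟩
  have h3 := card_le_card h2
  rw [Nat.card_Icc] at h3
  have h4 : P.min' hne ≤ P.max' hne := P.min'_le _ (P.max'_mem hne)
  have h5 : ((P.max' hne + 1 - P.min' hne : ℕ) : ℝ) = P.max' hne + 1 - P.min' hne := by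
    rw [Nat.cast_sub (by omega)]
    push_cast
    ring
  have h6 : (P.card : ℝ) ≤ ((P.max' hne + 1 - P.min' hne : ℕ) : ℝ) := by exact_mod_cast h3
  linarith

theorem Gf_eq (hτ0 : ∀ ω, 0 ≤ τ ω) (hq : IsQ q Λ A) (w : Ω) {Y : ℝ} {J : ℕ} (hJ : Y ≤ Sm τ T J w) :
    Gf T τ q w Y = ∑ k ∈ range J, q (T^[k] w) (Y - Sm τ T k w) := by
  unfold Gf
  apply tsum_eq_sum
  intro k hk
  rw [mem_range, not_lt] at hk
  apply hq.s
  left
  have := Sm_mono (T := T) hτ0 hk w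
  linarith

omit [MeasurableSpace Ω] in
theorem growth_gap {c D : ℝ} (hgr : ∀ (k : ℕ) ω, c * k - D ≤ Sm τ T k ω) {j k : ℕ} (hjk : j ≤ k) (w : Ω) :
    c * ((k : ℝ) - j) - D ≤ Sm τ T k w - Sm τ T j w := by
  obtain ⟨l, rfl⟩ := Nat.exists_eq_add_of_le hjk
  rw [Sm_add]
  have := hgr l (T^[j] w)
  push_cast
  linarith

theorem Gf_le (hτ0 : ∀ ω, 0 ≤ τ ω) (hA : 0 ≤ A) (hq : IsQ q Λ A) {c D : ℝ} (hc : 0 < c)
    (hgr : ∀ (k : ℕ) ω, c * k - D ≤ Sm τ T k ω) (w : Ω) (Y : ℝ) : Gf T τ q w Y ≤ (A + D) / c + 1 := by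
  classical
  have hD : 0 ≤ D := by
    have := hgr 0 w
    rw [Sm_zero] at this
    simp at this
    linarith
  obtain ⟨J, hJ⟩ := exists_nat_ge ((Y + D) / c)
  rw [div_le_iff₀ hc] at hJ
  have hJ' : Y ≤ Sm τ T J w := by linarith [hgr J w]
  rw [Gf_eq hτ0 hq w hJ']
  obtain ⟨P, hP⟩ : ∃ P : Finset ℕ, P = (range J).filter fun k => 0 < Y - Sm τ T k w ∧ Y - Sm τ T k w < A := ⟨_, rfl⟩
  have h1 : ∑ k ∈ range J, q (T^[k] w) (Y - Sm τ T k w) = ∑ k ∈ P, q (T^[k] w) (Y - Sm τ T k w) := by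
    rw [hP]
    symm
    apply sum_filter_of_ne
    intro k _ hne
    by_contra h
    rw [not_and_or, not_lt, not_lt] at h
    exact hne (hq.s _ _ h)
  rw [h1]
  have h2 : ∑ k ∈ P, q (T^[k] w) (Y - Sm τ T k w) ≤ P.card := by
    refine (sum_le_sum (g := fun _ => (1 : ℝ)) fun k _ => hq.le1 _ _).trans ?_
    simp
  refine h2.trans (card_le_of_gap P _ (by positivity) fun i hi j hj hij => ?_)
  rw [hP, mem_filter] at hi hj
  have h3 := growth_gap hgr hij w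
  rw [le_div_iff₀ hc]
  linarith [hi.2.2, hj.2.1]

theorem Gf_nonneg (hq : IsQ q Λ A) (w : Ω) (Y : ℝ) : 0 ≤ Gf T τ q w Y := tsum_nonneg fun _ => hq.nn _ _

theorem inc_lower {y : ℕ → ℝ} {δ η : ℝ} {n₀ : ℕ} (hy : ∀ n, n₀ ≤ n → |y (n + 1) - y n - δ| ≤ η) (hη : η ≤ δ / 2)
    {i j : ℕ} (hi : n₀ ≤ i) (hij : i ≤ j) : ((j : ℝ) - i) * (δ / 2) ≤ y j - y i := by
  induction j, hij using Nat.le_induction with
  | base => simp
  | succ j hij ih =>
    have h1 := (abs_le.1 (hy j (hi.trans hij))).1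
    push_cast
    linarith

/-- the number of points in an interval -/
theorem card_pts {y : ℕ → ℝ} {δ η : ℝ} (hδ : 0 < δ) {n₀ : ℕ} (hy : ∀ n, n₀ ≤ n → |y (n + 1) - y n - δ| ≤ η) (hη : η ≤ δ / 2)
    (P : Finset ℕ) (s L : ℝ) (hL : 0 ≤ L) (hP : ∀ n ∈ P, n₀ ≤ n ∧ s < y n ∧ y n < s + L) : (P.card : ℝ) ≤ 2 * L / δ + 1 := by
  refine card_le_of_gap P _ (by positivity) fun i hi j hj hij => ?_
  have h1 := inc_lower hy hη (hP i hi).1 hij
  rw [le_div_iff₀ hδ]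
  linarith [(hP i hi).2.1, (hP j hj).2.2]

theorem row_le {y : ℕ → ℝ} {δ η : ℝ} (hδ : 0 < δ) {n₀ : ℕ} (hy : ∀ n, n₀ ≤ n → |y (n + 1) - y n - δ| ≤ η) (hη : η ≤ δ / 2)
    (hA : 0 ≤ A) (hq : IsQ q Λ A) (N : ℕ) (w : Ω) (s : ℝ) : ∑ n ∈ Ico n₀ N, q w (y n - s) ≤ 2 * A / δ + 1 := by
  classical
  obtain ⟨P, hP⟩ : ∃ P : Finset ℕ, P = (Ico n₀ N).filter fun n => 0 < y n - s ∧ y n - s < A := ⟨_, rfl⟩
  have h1 : ∑ n ∈ Ico n₀ N, q w (y n - s) = ∑ n ∈ P, q w (y n - s) := by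
    rw [hP]
    symm
    apply sum_filter_of_ne
    intro k _ hne
    by_contra h
    rw [not_and_or, not_lt, not_lt] at h
    exact hne (hq.s _ _ h)
  rw [h1]
  have h2 : ∑ n ∈ P, q w (y n - s) ≤ P.card := by
    refine (sum_le_sum (g := fun _ => (1 : ℝ)) fun k _ => hq.le1 _ _).trans ?_
    simp
  refine h2.trans (card_pts hδ hy hη P s A hA fun n hn => ?_)
  rw [hP, mem_filter, mem_Ico] at hn
  exact ⟨hn.1.1, by linarith [hn.2.1], by linarith [hn.2.2]⟩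

/-- the block estimate -/
theorem block (hΛ : 0 ≤ Λ) (hA : 0 ≤ A) (hq : IsQ q Λ A) (hτ0 : ∀ ω, 0 ≤ τ ω) {y : ℕ → ℝ} {δ η : ℝ} (hδ : 0 < δ) {n₀ : ℕ}
    (hy : ∀ n, n₀ ≤ n → |y (n + 1) - y n - δ| ≤ η) (hη : η ≤ δ / 2) (N j K : ℕ) (hK : 0 < K) (w : Ω) (M : ℝ)
    (hM : Sm τ T K (T^[j] w) ≤ M) : ∃ x : ℝ,
    ∑ i ∈ range K, ∑ n ∈ Ico n₀ N, q (T^[j + i] w) (y n - Sm τ T (j + i) w) ≤
      K * avS T τ q δ K (T^[j] w) x + K * ((2 * (M + A) / δ + 1) * (Λ * (2 * (M + A) / δ * η))) := by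
  classical
  have hM0 : 0 ≤ M := (Sm_nonneg hτ0 K _).trans hM
  have hη0 : 0 ≤ η := (abs_nonneg _).trans (hy n₀ le_rfl)
  have hK0 : (0 : ℝ) < K := by exact_mod_cast hK
  obtain ⟨S, hS⟩ : ∃ S, S = Sm τ T j w := ⟨_, rfl⟩
  have hadd : ∀ i, Sm τ T (j + i) w = S + Sm τ T i (T^[j] w) := fun i => by rw [hS, Sm_add]
  have hit : ∀ i, T^[j + i] w = T^[i] (T^[j] w) := fun i => by rw [← Function.iterate_add_apply, add_comm]
  obtain ⟨P, hP⟩ : ∃ P : Finset ℕ, P = (Ico n₀ N).filter fun n => S < y n ∧ y n < S + (M + A) := ⟨_, rfl⟩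
  have hPcard : (P.card : ℝ) ≤ 2 * (M + A) / δ + 1 := by
    refine card_pts hδ hy hη P S (M + A) (by positivity) fun n hn => ?_
    rw [hP, mem_filter, mem_Ico] at hn
    exact ⟨hn.1.1, hn.2.1, hn.2.2⟩
  have hrow : ∀ i ∈ range K, ∑ n ∈ Ico n₀ N, q (T^[j + i] w) (y n - Sm τ T (j + i) w) =
      ∑ n ∈ P, q (T^[j + i] w) (y n - Sm τ T (j + i) w) := by
    intro i hi
    rw [hP]
    symm
    apply sum_filter_of_ne
    intro n _ hne
    by_contra h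
    apply hne
    apply hq.s
    rw [hadd]
    have h1 := Sm_nonneg (T := T) hτ0 i (T^[j] w)
    have h2 := Sm_mono (T := T) hτ0 (mem_range.1 hi).le (T^[j] w)
    rw [not_and_or, not_lt, not_lt] at h
    rcases h with h | h
    · left
      linarith
    · right
      linarith
  rcases P.eq_empty_or_nonempty with he | hne
  · refine ⟨0, ?_⟩
    rw [sum_congr rfl hrow, he]
    simp only [sum_empty, sum_const_zero]
    have := avS_nonneg (T := T) (τ := τ) hq δ K (T^[j] w) 0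
    positivity
  obtain ⟨n₁, hn₁⟩ : ∃ n₁, n₁ = P.min' hne := ⟨_, rfl⟩
  have hn₁P : n₁ ∈ P := by rw [hn₁]; exact P.min'_mem hne
  have hmin : ∀ n ∈ P, n₁ ≤ n := fun n hn => by rw [hn₁]; exact P.min'_le n hn
  have hPm : ∀ n ∈ P, n₀ ≤ n ∧ S < y n ∧ y n < S + (M + A) := fun n hn => by
    rw [hP, mem_filter, mem_Ico] at hn
    exact ⟨hn.1.1, hn.2.1, hn.2.2⟩
  obtain ⟨x, hx⟩ : ∃ x : ℝ, x = (y n₁ - S) / δ := ⟨_, rfl⟩
  refine ⟨x, ?_⟩
  have hδx : ∀ n : ℤ, δ * (x + n) = y n₁ - S + n * δ := by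
    intro n
    rw [hx]
    field_simp
  -- one row
  have hone : ∀ i ∈ range K, ∑ n ∈ P, q (T^[j + i] w) (y n - Sm τ T (j + i) w) ≤
      per δ (fun u => q (T^[i] (T^[j] w)) (u - Sm τ T i (T^[j] w))) x +
        (2 * (M + A) / δ + 1) * (Λ * (2 * (M + A) / δ * η)) := by
    intro i _
    have hterm : ∀ n ∈ P, q (T^[j + i] w) (y n - Sm τ T (j + i) w) ≤
        q (T^[i] (T^[j] w)) (δ * (x + (((n : ℤ) - n₁ : ℤ) : ℝ)) - Sm τ T i (T^[j] w)) + Λ * (2 * (M + A) / δ * η) := by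
      intro n hn
      obtain ⟨h1, h2, h3⟩ := hPm n hn
      obtain ⟨g1, g2, g3⟩ := hPm n₁ hn₁P
      obtain ⟨l, hl⟩ := Nat.exists_eq_add_of_le (hmin n hn)
      have h4 := inc_lower hy hη g1 (hmin n hn)
      have h5 : (l : ℝ) ≤ 2 * (M + A) / δ := by
        rw [le_div_iff₀ hδ]
        have : (n : ℝ) = n₁ + l := by rw [hl]; push_cast; ring
        rw [this] at h4
        linarith
      have h6 := drift hy n₁ g1 l
      rw [← hl] at h6
      rw [hit, hadd, hδx]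
      have h7 : (((n : ℤ) - n₁ : ℤ) : ℝ) = l := by
        rw [hl]
        push_cast
        ring
      rw [h7]
      have h8 := hq.l (T^[i] (T^[j] w)) (y n - (S + Sm τ T i (T^[j] w))) (y n₁ - S + l * δ - Sm τ T i (T^[j] w))
      have h9 : y n - (S + Sm τ T i (T^[j] w)) - (y n₁ - S + l * δ - Sm τ T i (T^[j] w)) = y n - (y n₁ + l * δ) := by ring
      rw [h9] at h8
      have h10 : Λ * |y n - (y n₁ + l * δ)| ≤ Λ * (2 * (M + A) / δ * η) := by
        apply mul_le_mul_of_nonneg_left _ hΛ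
        exact h6.trans (mul_le_mul_of_nonneg_right h5 hη0)
      linarith [(abs_le.1 h8).2]
    refine (sum_le_sum hterm).trans ?_
    rw [sum_add_distrib, sum_const, nsmul_eq_mul]
    apply add_le_add
    · -- part of the periodisation
      obtain ⟨f, hf⟩ : ∃ f : ℝ → ℝ, f = fun u => q (T^[i] (T^[j] w)) (u - Sm τ T i (T^[j] w)) := ⟨_, rfl⟩
      have hB : Bump f Λ (Sm τ T i (T^[j] w)) A := by
        rw [hf]
        exact isq_bumpS hq _ _
      have h1 : ∑ n ∈ P, q (T^[i] (T^[j] w)) (δ * (x + (((n : ℤ) - n₁ : ℤ) : ℝ)) - Sm τ T i (T^[j] w)) =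
          ∑ m ∈ P.image (fun n : ℕ => (n : ℤ) - n₁), f (δ * (x + m)) := by
        rw [sum_image]
        · rw [hf]
        · intro a _ b _ hab
          simp only at hab
          omega
      rw [h1, ← hf, per_eq hδ hB x (pf δ (Sm τ T i (T^[j] w)) A x ∪ P.image (fun n : ℕ => (n : ℤ) - n₁)) subset_union_left]
      exact sum_le_sum_of_subset_of_nonneg subset_union_right fun m _ _ => hB.nn _
    · exact mul_le_mul_of_nonneg_right hPcard (by positivity)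
  rw [sum_congr rfl hrow]
  refine (sum_le_sum hone).trans (le_of_eq ?_)
  rw [sum_add_distrib, sum_const, card_range, nsmul_eq_mul]
  unfold avS
  rw [mul_inv_cancel_left₀ hK0.ne']

/-- an upper bound for the sequence -/
theorem seq_upper {y : ℕ → ℝ} {δ : ℝ} (hy : Tendsto (fun n : ℕ => y (n + 1) - y n) atTop (𝓝 δ)) {t : ℝ} (ht : 0 < t)
    (hδ : 0 < δ) : ∃ C₀ : ℝ, 0 ≤ C₀ ∧ ∀ n, y n ≤ C₀ + (δ + t) * n := by
  obtain ⟨n₀, hn₀⟩ := eventually_atTop.1 (hy.eventually (gt_mem_nhds (show δ < δ + t by linarith)))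
  refine ⟨∑ n ∈ range (n₀ + 1), |y n|, sum_nonneg fun _ _ => abs_nonneg _, fun n => ?_⟩
  have hsmall : ∀ n, n ≤ n₀ → y n ≤ ∑ n ∈ range (n₀ + 1), |y n| := by
    intro n hn
    refine (le_abs_self _).trans ?_
    exact single_le_sum (f := fun n => |y n|) (fun i _ => abs_nonneg _) (mem_range.2 (Nat.lt_succ_of_le hn))
  rcases le_total n n₀ with h | h
  · have : 0 ≤ (δ + t) * n := by positivity
    linarith [hsmall n h]
  · induction n, h using Nat.le_induction with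
    | base =>
      have : 0 ≤ (δ + t) * n₀ := by positivity
      linarith [hsmall n₀ le_rfl]
    | succ n hn ih =>
      have := hn₀ n hn
      push_cast
      linarith

end Pool.Agent.Helper46.HT
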