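import Pool.Agent.Helper46.HT.Birk

/-!
# HT: twisted averages `(1/K) ∑_(k<K) e(-θ S_k) f ∘ T^k`
-/

set_option autoImplicit false

namespace Pool.Agent.Helper46.HT

open Finset MeasureTheory Filter Topology
open scoped InnerProductSpace ENNReal
open Pool.Agent.Helper59.HP (ex norm_ex ex_add ex_zero continuous_ex pr tendsto_pr pr_fix pr_inner memLp_of_bdd)

variable {Ω : Type*} [MeasurableSpace Ω] {μ : Measure Ω} {T : Ω → Ω}

theorem mul_memLp {u : Ω → ℂ} (hu : Measurable u) (h1 : ∀ ω, ‖u ω‖ = 1) (f : Lp ℂ 2 μ) :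
    MemLp (fun ω => u ω * f ω) 2 μ := by
  refine (Lp.memLp f).of_le (hu.aestronglyMeasurable.mul (Lp.aestronglyMeasurable f)) (Eventually.of_forall fun ω => ?_)
  rw [norm_mul, h1, one_mul]

/-- multiplication by a function with absolute value one -/
noncomputable def mulU (μ : Measure Ω) (u : Ω → ℂ) (hu : Measurable u) (h1 : ∀ ω, ‖u ω‖ = 1) : Lp ℂ 2 μ →ₗᵢ[ℂ] Lp ℂ 2 μ where
  toFun f := (mul_memLp hu h1 f).toLp _
  map_add' f g := by
    rw [← MemLp.toLp_add]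
    apply (MemLp.toLp_eq_toLp_iff _ _).2
    filter_upwards [Lp.coeFn_add f g] with ω hω
    rw [hω]
    simp only [Pi.add_apply]
    ring
  map_smul' c f := by
    rw [RingHom.id_apply, ← MemLp.toLp_const_smul]
    apply (MemLp.toLp_eq_toLp_iff _ _).2
    filter_upwards [Lp.coeFn_smul c f] with ω hω
    rw [hω]
    simp only [Pi.smul_apply, smul_eq_mul]
    ring
  norm_map' f := by
    show ‖(mul_memLp hu h1 f).toLp _‖ = ‖f‖
    rw [Lp.norm_toLp, Lp.norm_def]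
    congr 1
    apply eLpNorm_congr_norm_ae
    exact Eventually.of_forall fun ω => by rw [norm_mul, h1, one_mul]

theorem mulU_ae {u : Ω → ℂ} (hu : Measurable u) (h1 : ∀ ω, ‖u ω‖ = 1) (f : Lp ℂ 2 μ) :
    (mulU μ u hu h1 f : Ω → ℂ) =ᵐ[μ] fun ω => u ω * f ω := (mul_memLp hu h1 f).coeFn_toLp

theorem tw_meas {τ : Ω → ℝ} (hτ : Measurable τ) (θ : ℝ) : Measurable fun ω => ex (-(θ * τ ω)) :=
  continuous_ex.measurable.comp (hτ.const_mul θ).neg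

/-- the twisted Koopman operator -/
noncomputable def US (hT : MeasurePreserving T μ μ) {τ : Ω → ℝ} (hτ : Measurable τ) (θ : ℝ) : Lp ℂ 2 μ →ₗᵢ[ℂ] Lp ℂ 2 μ :=
  (mulU μ (fun ω => ex (-(θ * τ ω))) (tw_meas hτ θ) fun _ => norm_ex _).comp (Lp.compMeasurePreservingₗᵢ ℂ T hT)

theorem US_ae (hT : MeasurePreserving T μ μ) {τ : Ω → ℝ} (hτ : Measurable τ) (θ : ℝ) (f : Lp ℂ 2 μ) :
    (US hT hτ θ f : Ω → ℂ) =ᵐ[μ] fun ω => ex (-(θ * τ ω)) * f (T ω) := by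
  have h1 := mulU_ae (tw_meas hτ θ) (fun _ => norm_ex _) (Lp.compMeasurePreservingₗᵢ ℂ T hT f)
  have h2 := Lp.coeFn_compMeasurePreserving f hT
  filter_upwards [h1, h2] with ω h3 h4
  show (mulU μ (fun ω => ex (-(θ * τ ω))) (tw_meas hτ θ) (fun _ => norm_ex _) (Lp.compMeasurePreservingₗᵢ ℂ T hT f)) ω = _
  rw [h3]
  congr 1

theorem US_iter (hT : MeasurePreserving T μ μ) {τ : Ω → ℝ} (hτ : Measurable τ) (θ : ℝ) {f : Ω → ℂ} (hf : MemLp f 2 μ)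
    (k : ℕ) : ((US hT hτ θ)^[k] (hf.toLp f) : Lp ℂ 2 μ) =ᵐ[μ] fun ω => ex (-(θ * Sm τ T k ω)) * f (T^[k] ω) := by
  induction k with
  | zero =>
    filter_upwards [hf.coeFn_toLp] with ω hω
    rw [Function.iterate_zero, id, hω, Sm_zero, mul_zero, neg_zero, ex_zero, one_mul]
    rfl
  | succ k ih =>
    rw [Function.iterate_succ_apply']
    have h1 := US_ae hT hτ θ ((US hT hτ θ)^[k] (hf.toLp f))
    have h2 := hT.quasiMeasurePreserving.ae_eq_comp ih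
    filter_upwards [h1, h2] with ω h3 h4
    rw [h3]
    simp only [Function.comp_apply] at h4
    rw [h4, Sm_succ, Function.iterate_succ_apply, ← mul_assoc, ← ex_add]
    congr 2
    ring

/-- the twisted averages -/
noncomputable def taS (T : Ω → Ω) (τ : Ω → ℝ) (f : Ω → ℂ) (θ : ℝ) (K : ℕ) (w : Ω) : ℂ :=
  (K : ℂ)⁻¹ * ∑ k ∈ range K, ex (-(θ * Sm τ T k w)) * f (T^[k] w)

theorem taS_ae (hT : MeasurePreserving T μ μ) {τ : Ω → ℝ} (hτ : Measurable τ) (θ : ℝ) {f : Ω → ℂ} (hf : MemLp f 2 μ)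
    (K : ℕ) : (((K : ℂ)⁻¹ • ∑ k ∈ range K, (1 : ℂ) ^ k • ((US hT hτ θ)^[k] (hf.toLp f)) : Lp ℂ 2 μ) : Ω → ℂ)
      =ᵐ[μ] taS T τ f θ K := by
  have h1 := Lp.coeFn_smul (K : ℂ)⁻¹ (∑ k ∈ range K, (1 : ℂ) ^ k • ((US hT hτ θ)^[k] (hf.toLp f)) : Lp ℂ 2 μ)
  have h2 := Lp.coeFn_finsetSum (range K) (fun k => (1 : ℂ) ^ k • ((US hT hτ θ)^[k] (hf.toLp f)) : ℕ → Lp ℂ 2 μ)
  have h3 : ∀ᵐ w ∂μ, ∀ k : ℕ, (((1 : ℂ) ^ k • ((US hT hτ θ)^[k] (hf.toLp f)) : Lp ℂ 2 μ) : Ω → ℂ) w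
      = ex (-(θ * Sm τ T k w)) * f (T^[k] w) := by
    rw [ae_all_iff]
    intro k
    rw [one_pow, one_smul]
    exact US_iter hT hτ θ hf k
  filter_upwards [h1, h2, h3] with w h1 h2 h3
  rw [h1, Pi.smul_apply, h2]
  simp only [Finset.sum_apply]
  rw [smul_eq_mul, taS]
  congr 1
  exact Finset.sum_congr rfl fun k _ => h3 k

theorem taS_meas (hT : Measurable T) {τ : Ω → ℝ} (hτ : Measurable τ) {f : Ω → ℂ} (hf : Measurable f) (θ : ℝ)
    (K : ℕ) : Measurable (taS T τ f θ K) := by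
  unfold taS
  refine Measurable.const_mul ?_ _
  exact Finset.measurable_fun_sum _ fun k _ =>
    (continuous_ex.measurable.comp ((Sm_meas hT hτ k).const_mul θ).neg).mul (hf.comp (hT.iterate k))

omit [MeasurableSpace Ω] in
theorem taS_bdd {τ : Ω → ℝ} {f : Ω → ℂ} {C : ℝ} (h0 : 0 ≤ C) (hC : ∀ w, ‖f w‖ ≤ C) (θ : ℝ)
    (K : ℕ) (w : Ω) : ‖taS T τ f θ K w‖ ≤ C := by
  unfold taS
  rcases Nat.eq_zero_or_pos K with h | h
  · subst h; simpa using h0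
  rw [norm_mul, norm_inv, Complex.norm_natCast]
  have h1 : ‖∑ k ∈ range K, ex (-(θ * Sm τ T k w)) * f (T^[k] w)‖ ≤ K * C := by
    refine (norm_sum_le _ _).trans ?_
    refine (sum_le_sum (g := fun _ => C) fun k _ => ?_).trans (by simp)
    rw [norm_mul, norm_ex, one_mul]; exact hC _
  have h2 : (0 : ℝ) < K := by exact_mod_cast h
  calc (K : ℝ)⁻¹ * ‖∑ k ∈ range K, ex (-(θ * Sm τ T k w)) * f (T^[k] w)‖ ≤ (K : ℝ)⁻¹ * (K * C) := by
        gcongr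
    _ = C := by field_simp

/-- convergence in mean when the projection vanishes -/
theorem taS_tendsto [IsProbabilityMeasure μ] (hT : MeasurePreserving T μ μ) {τ : Ω → ℝ} (hτ : Measurable τ)
    {f : Ω → ℂ} (hf : Measurable f) {C : ℝ} (hC : ∀ w, ‖f w‖ ≤ C) {θ : ℝ}
    (hl : pr (US hT hτ θ) 1 ((memLp_of_bdd (μ := μ) hf hC).toLp f) = 0) :
    Tendsto (fun K : ℕ => ∫ w, ‖taS T τ f θ K w‖ ∂μ) atTop (𝓝 0) := by
  have h1 := tendsto_pr (US hT hτ θ) (norm_one) ((memLp_of_bdd (μ := μ) hf hC).toLp f)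
  rw [hl] at h1
  have h3 := h1.norm
  rw [norm_zero] at h3
  refine squeeze_zero (fun K => integral_nonneg fun w => norm_nonneg _) (fun K => ?_) h3
  have h4 := taS_ae hT hτ θ (memLp_of_bdd (μ := μ) hf hC) K
  have hm := taS_meas hT.measurable hτ hf θ K
  rw [Lp.norm_def, eLpNorm_congr_ae h4]
  have h5 : ∫ w, ‖taS T τ f θ K w‖ ∂μ = (eLpNorm (taS T τ f θ K) 1 μ).toReal := by
    rw [eLpNorm_one_eq_lintegral_enorm, integral_norm_eq_lintegral_enorm hm.aestronglyMeasurable]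
  rw [h5]
  refine ENNReal.toReal_mono ?_ ?_
  · have h6 : MemLp (taS T τ f θ K) 2 μ := by
      refine memLp_of_bdd hm (C := max C 0) fun w => ?_
      exact taS_bdd (le_max_right _ _) (fun w => (hC w).trans (le_max_left _ _)) θ K w
    exact h6.2.ne
  · exact eLpNorm_le_eLpNorm_of_exponent_le (by norm_num) hm.aestronglyMeasurable

/-- otherwise there is an eigenfunction which is correlated with `f` -/
theorem eig_exists [IsProbabilityMeasure μ] (hT : Ergodic T μ) {τ : Ω → ℝ} (hτ : Measurable τ)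
    {f : Ω → ℂ} (hf : Measurable f) {C : ℝ} (hC : ∀ w, ‖f w‖ ≤ C) {θ : ℝ}
    (hl : pr (US hT.toMeasurePreserving hτ θ) 1 ((memLp_of_bdd (μ := μ) hf hC).toLp f) ≠ 0) :
    ∃ (h : Ω → ℂ) (a : ℝ), Measurable h ∧ (∀ ω, ‖h ω‖ = 1) ∧ (∀ᵐ ω ∂μ, h (T ω) = ex (θ * τ ω) * h ω) ∧ 0 < a ∧
      ∫ ω, (starRingEnd ℂ) (h ω) * f ω ∂μ = a := by
  obtain ⟨x, hx⟩ : ∃ x, x = (memLp_of_bdd (μ := μ) hf hC).toLp f := ⟨_, rfl⟩
  obtain ⟨y, hy⟩ : ∃ y, y = pr (US hT.toMeasurePreserving hτ θ) 1 x := ⟨_, rfl⟩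
  rw [← hx, ← hy] at hl
  have hfix := pr_fix (US hT.toMeasurePreserving hτ θ) 1 x
  rw [one_smul, ← hy] at hfix
  have hinn := pr_inner (US hT.toMeasurePreserving hτ θ) 1 x
  rw [← hy] at hinn
  have hym : Measurable (y : Ω → ℂ) := (Lp.stronglyMeasurable y).measurable
  -- the equation
  have h1 : ∀ᵐ ω ∂μ, (y : Ω → ℂ) (T ω) = ex (θ * τ ω) * y ω := by
    have h2 := US_ae hT.toMeasurePreserving hτ θ y
    rw [hfix] at h2
    filter_upwards [h2] with ω hω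
    rw [hω, ← mul_assoc, ← ex_add, add_neg_cancel, ex_zero, one_mul]
  have h2 : ∀ᵐ ω ∂μ, ‖(y : Ω → ℂ) (T ω)‖ = ‖(y : Ω → ℂ) ω‖ := by
    filter_upwards [h1] with ω hω
    rw [hω, norm_mul, norm_ex, one_mul]
  obtain ⟨a, ha⟩ := hT.ae_eq_const_of_ae_eq_comp_ae (g := fun ω => ‖(y : Ω → ℂ) ω‖) hym.norm.aestronglyMeasurable
    (show (fun ω => ‖(y : Ω → ℂ) ω‖) ∘ T =ᵐ[μ] fun ω => ‖(y : Ω → ℂ) ω‖ from h2)
  have hnorm : ‖y‖ ^ 2 = a ^ 2 := by
    have h3 : ((‖y‖ : ℂ)) ^ 2 = ∫ ω, ((‖(y : Ω → ℂ) ω‖ : ℂ)) ^ 2 ∂μ := by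
      have h5 : ⟪y, y⟫_ℂ = ((‖y‖ : ℂ)) ^ 2 := inner_self_eq_norm_sq_to_K y
      rw [← h5, L2.inner_def]
      refine integral_congr_ae (Eventually.of_forall fun ω => ?_)
      exact inner_self_eq_norm_sq_to_K ((y : Ω → ℂ) ω)
    have h4 : ∫ ω, ((‖(y : Ω → ℂ) ω‖ : ℂ)) ^ 2 ∂μ = ((a : ℂ)) ^ 2 := by
      rw [integral_congr_ae (g := fun _ => ((a : ℂ)) ^ 2) (by
        filter_upwards [ha] with ω hω
        have hω' : ‖(y : Ω → ℂ) ω‖ = a := hω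
        rw [hω'])]
      simp
    rw [h4] at h3
    exact_mod_cast h3
  have hy0 : 0 < ‖y‖ := norm_pos_iff.2 hl
  have ha0 : 0 < a := by
    have h3 : 0 ≤ a := by
      obtain ⟨ω, hω⟩ := ha.exists
      have hω' : ‖(y : Ω → ℂ) ω‖ = a := hω
      rw [← hω']
      exact norm_nonneg _
    rcases eq_or_lt_of_le h3 with h4 | h4
    · rw [← h4] at hnorm
      have : 0 < ‖y‖ ^ 2 := by positivity
      rw [hnorm] at this
      norm_num at this
    · exact h4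
  classical
  obtain ⟨h, hh⟩ : ∃ h : Ω → ℂ, h = fun ω => if ‖(y : Ω → ℂ) ω‖ = a then (a : ℂ)⁻¹ * y ω else 1 := ⟨_, rfl⟩
  have hae : ∀ᵐ ω ∂μ, h ω = (a : ℂ)⁻¹ * (y : Ω → ℂ) ω := by
    filter_upwards [ha] with ω hω
    have hω' : ‖(y : Ω → ℂ) ω‖ = a := hω
    rw [hh]
    simp only
    rw [if_pos hω']
  have haT : ∀ᵐ ω ∂μ, h (T ω) = (a : ℂ)⁻¹ * (y : Ω → ℂ) (T ω) := hT.toMeasurePreserving.quasiMeasurePreserving.ae hae
  refine ⟨h, a, ?_, ?_, ?_, ha0, ?_⟩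
  · rw [hh]
    exact Measurable.ite (measurableSet_eq_fun hym.norm measurable_const) (hym.const_mul _) measurable_const
  · intro ω
    rw [hh]
    simp only
    split_ifs with h3
    · rw [norm_mul, norm_inv, Complex.norm_real, Real.norm_eq_abs, abs_of_pos ha0, h3, inv_mul_cancel₀ ha0.ne']
    · exact norm_one
  · filter_upwards [hae, haT, h1] with ω h3 h4 h5
    rw [h4, h3, h5]
    ring
  · have h3 : ⟪y, x⟫_ℂ = ∫ ω, (starRingEnd ℂ) ((y : Ω → ℂ) ω) * f ω ∂μ := by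
      rw [L2.inner_def, hx]
      refine integral_congr_ae ?_
      filter_upwards [(memLp_of_bdd (μ := μ) hf hC).coeFn_toLp] with ω hω
      rw [hω]
      simp only [RCLike.inner_apply]
      ring
    have h4 : ∫ ω, (starRingEnd ℂ) (h ω) * f ω ∂μ = (a : ℂ)⁻¹ * ∫ ω, (starRingEnd ℂ) ((y : Ω → ℂ) ω) * f ω ∂μ := by
      rw [← integral_const_mul]
      refine integral_congr_ae ?_
      filter_upwards [hae] with ω hω
      rw [hω, map_mul, map_inv₀, Complex.conj_ofReal, mul_assoc]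
    rw [h4, ← h3, hinn]
    have h5 : ((‖y‖ : ℂ)) ^ 2 = (a : ℂ) ^ 2 := by exact_mod_cast hnorm
    rw [h5]
    have : (a : ℂ) ≠ 0 := by exact_mod_cast ha0.ne'
    field_simp

end Pool.Agent.Helper46.HT
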