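import Pool.Agent.Helper46.HS.Base

/-!
# HT (helper46): `X` is measurable automatically
-/

set_option autoImplicit false

namespace Pool.Agent.Helper46.HT

open Finset MeasureTheory ProbabilityTheory Filter Topology
open Pool.Agent.Helper46.HR Pool.Agent.Helper46.HS

variable {Ω : Type*} [MeasurableSpace Ω] {E : Type*} [MeasurableSpace E] {μ : Measure Ω} {p q : ℝ} {T : Ω ≃ᵐ Ω} {ξ : Ω → E}
    {φ φ' : E → ℝ → ℝ} {X : Ω → ℝ} {C r K ε : ℝ}

theorem X_meas (h : Con p q φ φ' C r K ε) (hξ : Measurable ξ) (hφ : Measurable (Function.uncurry φ))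
    (hXI : ∀ ω, X ω ∈ Set.Icc p q) (hX : ∀ ω, X ω = φ (ξ ω) (X (T ω))) : Measurable X := by
  have h1 : ∀ (k : ℕ) ω, X ω = pcm φ (pst T ξ (T^[k] ω)) k (X (T^[k] ω)) := by
    intro k ω
    induction k with
    | zero => rfl
    | succ k ih =>
      rw [Function.iterate_succ_apply', pcm_T, ← hX]
      exact ih
  have hp : p ∈ Set.Icc p q := ⟨le_rfl, h.hpq.le⟩
  have hpst : Measurable (pst T ξ) := by
    rw [measurable_pi_iff]
    intro j
    exact hξ.comp (T.symm.measurable.iterate (j + 1))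
  refine measurable_of_tendsto_metrizable (f := fun (k : ℕ) ω => pcm φ (pst T ξ (T^[k] ω)) k p) (fun k => ?_) ?_
  · exact (pcm_measurable hφ k).comp ((hpst.comp (T.measurable.iterate k)).prodMk measurable_const)
  · rw [tendsto_pi_nhds]
    intro ω
    rw [tendsto_iff_dist_tendsto_zero]
    have h2 : Tendsto (fun k : ℕ => C * r ^ k) atTop (𝓝 0) := by
      have := (tendsto_pow_atTop_nhds_zero_of_lt_one h.hr0.le h.hr1).const_mul C
      rwa [mul_zero] at this
    refine squeeze_zero (fun _ => dist_nonneg) (fun k => ?_) h2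
    rw [Real.dist_eq]
    rw [h1 k ω]
    exact h.pcm_small _ k hp (hXI _)

end Pool.Agent.Helper46.HT
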