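import Pool.Agent.Helper46.HT.Defs
import Pool.Agent.Helper32.HP.Defs

/-!
# HT-C6 (helper17): from the exact charts to the stationary ones

`|‖Psi k ω t‖^2 - ‖psi m (pst (T^k ω)) t‖^2| ≤ 4 π |t| exp(dc) dc (r^ε)^m` for `k ≥ m` (`Con.rd_close`; `nrm` is `± rd .. z p`, the
sign depends on the orientation only: use `|e(t a) - e(t b)|` after multiplication with the sign, or
`‖psi (-t)‖ = ‖psi t‖`, `psi_neg`; for `k` and `m` the signs may differ).  The window `[u-1, v+1]` contains at most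
`B` of the numbers `Y - sc k ω` (`sc_growth`) and of the numbers `Y - σ - S_k` (`S_growth`).  `sc k - S_k → σ`, and
`qS` is Lipschitz in `y` on bounded sets.
-/

set_option autoImplicit false

namespace Pool.Agent.Helper46.HT

open Finset MeasureTheory ProbabilityTheory Filter Topology
open Pool.Agent.Helper46.HR Pool.Agent.Helper46.HS
open Pool.Agent.Helper59.RE (e norm_e e_add e_sub conj_e continuous_e e_zero norm_e_sub)
open Pool.Agent.Helper32.HP (IsQ)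

variable {Ω : Type*} [MeasurableSpace Ω] {E : Type*} [MeasurableSpace E] {μ : Measure Ω} {p q : ℝ} {T : Ω ≃ᵐ Ω} {ξ : Ω → E}
    {φ φ' : E → ℝ → ℝ} {X : Ω → ℝ} {C r K ε : ℝ}

/-- points of a growing sequence in a window -/
private theorem win17 {f : ℕ → ℝ} {L c : ℝ} (hL : 0 < L) (hf : ∀ k l : ℕ, l * L - c ≤ f (k + l) - f k) {a b : ℝ}
    (hab : a ≤ b) : ∃ W : Finset ℕ, (∀ k, a < f k → f k < b → k ∈ W) ∧ (∀ k ∈ W, a < f k ∧ f k < b) ∧
      (W.card : ℝ) ≤ (b - a + c) / L + 1 := by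
  classical
  have hc : 0 ≤ c := by
    have := hf 0 0
    simp only [Nat.cast_zero, zero_mul, add_zero, sub_self] at this
    linarith
  have h0 : 0 ≤ (b - a + c) / L := div_nonneg (by linarith) hL.le
  by_cases hP : ∃ k, a < f k ∧ f k < b
  · obtain ⟨k0, hk0, hmin⟩ : ∃ k0, (a < f k0 ∧ f k0 < b) ∧ ∀ k, a < f k ∧ f k < b → k0 ≤ k :=
      ⟨Nat.find hP, Nat.find_spec hP, fun k hk => Nat.find_min' hP hk⟩
    refine ⟨(Finset.Icc k0 (k0 + ⌊(b - a + c) / L⌋₊)).filter (fun k => a < f k ∧ f k < b), ?_, ?_, ?_⟩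
    · intro k h1 h2
      rw [mem_filter, Finset.mem_Icc]
      refine ⟨⟨hmin k ⟨h1, h2⟩, ?_⟩, h1, h2⟩
      obtain ⟨l, rfl⟩ := Nat.exists_eq_add_of_le (hmin k ⟨h1, h2⟩)
      have h3 := hf k0 l
      have h4 : l ≤ ⌊(b - a + c) / L⌋₊ := by
        apply Nat.le_floor
        rw [le_div_iff₀ hL]
        linarith [hk0.1]
      omega
    · intro k hk
      exact (mem_filter.1 hk).2
    · refine (Nat.cast_le.2 (card_filter_le _ _)).trans ?_
      rw [Nat.card_Icc]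
      have h5 : k0 + ⌊(b - a + c) / L⌋₊ + 1 - k0 = ⌊(b - a + c) / L⌋₊ + 1 := by omega
      rw [h5]
      push_cast
      linarith [Nat.floor_le h0]
  · refine ⟨∅, fun k h1 h2 => absurd ⟨k, h1, h2⟩ hP, fun k hk => absurd hk (Finset.notMem_empty k), ?_⟩
    rw [card_empty, Nat.cast_zero]
    linarith

/-- the characteristic function without the orientation -/
private theorem psi_rd17 (h : Con p q φ φ' C r K ε) [IsProbabilityMeasure μ] (m : ℕ) (π : ℕ → E) (t : ℝ) :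
    ‖psi μ p q T ξ φ X m π t‖ = ‖∫ z, e (t * rd p q φ π m (clp p q z) p) ∂(kap μ T ξ X π)‖ := by
  rcases le_total (pcm φ π m p) (pcm φ π m q) with h1 | h1
  · have h2 : ∀ z, nrm p q φ π m z = rd p q φ π m (clp p q z) p := by
      intro z
      unfold nrm rd
      have h3 := h.pcm_between π m (clp_mem h.hpq.le z)
      rw [Set.uIcc_of_le h1] at h3
      rw [abs_of_nonneg (by linarith [h3.1])]
    unfold psi
    simp only [h2]
  · have h2 : ∀ z, nrm p q φ π m z = -rd p q φ π m (clp p q z) p := by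
      intro z
      unfold nrm rd
      have h3 := h.pcm_between π m (clp_mem h.hpq.le z)
      rw [Set.uIcc_of_ge h1] at h3
      rw [abs_of_nonpos (by linarith [h3.2]), neg_div, neg_neg]
    have h3 : psi μ p q T ξ φ X m π t = (starRingEnd ℂ) (∫ z, e (t * rd p q φ π m (clp p q z) p) ∂(kap μ T ξ X π)) := by
      unfold psi
      rw [← integral_conj]
      congr 1
      funext z
      rw [h2, conj_e, mul_neg]
    rw [h3, Complex.norm_conj]

private theorem psi_diff17 (h : Con p q φ φ' C r K ε) (hφ : Measurable (Function.uncurry φ)) [IsProbabilityMeasure μ]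
    {m k : ℕ} (hmk : m ≤ k) (π : ℕ → E) (t : ℝ) :
    |‖psi μ p q T ξ φ X k π t‖ - ‖psi μ p q T ξ φ X m π t‖| ≤
      2 * Real.pi * (|t| * (Real.exp (dc C r K ε) * (dc C r K ε * (r ^ ε) ^ m))) := by
  rw [psi_rd17 h, psi_rd17 h]
  refine (abs_norm_sub_norm_le _ _).trans ?_
  have hrn : ∀ j z, rd p q φ π j (clp p q z) p = |nrm p q φ π j z| := by
    intro j z
    unfold rd nrm
    rw [abs_div, abs_of_pos (h.len_pos π j)]
  have hi : ∀ j, Integrable (fun z => e (t * rd p q φ π j (clp p q z) p)) (kap μ T ξ X π) := by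
    intro j
    simp only [hrn]
    refine (integrable_const (1 : ℝ)).mono' ?_ (Eventually.of_forall fun x => (norm_e _).le)
    exact (continuous_e.measurable.comp ((nrm_measurable' hφ p q j π).abs.const_mul t)).aestronglyMeasurable
  rw [← integral_sub (hi k) (hi m)]
  refine (norm_integral_le_of_norm_le_const
    (C := 2 * Real.pi * (|t| * (Real.exp (dc C r K ε) * (dc C r K ε * (r ^ ε) ^ m)))) (Eventually.of_forall fun z => ?_)).trans ?_
  · refine (norm_e_sub _ _).trans ?_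
    rw [← mul_sub, abs_mul]
    have h1 := h.rd_close π hmk (clp_mem h.hpq.le z) (⟨le_rfl, h.hpq.le⟩ : p ∈ Set.Icc p q)
    have hpi := Real.pi_pos
    gcongr
  · simp

private theorem exp_lip17 {a b R : ℝ} (ha : a ≤ R) (hb : b ≤ R) : |Real.exp a - Real.exp b| ≤ Real.exp R * |a - b| := by
  wlog hab : b ≤ a generalizing a b
  · rw [abs_sub_comm, abs_sub_comm a b]
    exact this hb ha (le_of_lt (not_le.1 hab))
  rw [abs_of_nonneg (sub_nonneg.2 (Real.exp_le_exp.2 hab)), abs_of_nonneg (sub_nonneg.2 hab)]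
  have h1 := Real.add_one_le_exp (b - a)
  have h2 : Real.exp b = Real.exp a * Real.exp (b - a) := by
    rw [← Real.exp_add]
    congr 1
    ring
  have h3 : Real.exp a ≤ Real.exp R := Real.exp_le_exp.2 ha
  have h4 := Real.exp_pos a
  rw [h2]
  nlinarith [mul_nonneg (sub_nonneg.2 h3) (sub_nonneg.2 hab), mul_le_mul_of_nonneg_left h1 h4.le]

private theorem sq_diff17 {a b : ℝ} (ha : 0 ≤ a) (ha1 : a ≤ 1) (hb : 0 ≤ b) (hb1 : b ≤ 1) : |a ^ 2 - b ^ 2| ≤ 2 * |a - b| := by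
  have h1 : a ^ 2 - b ^ 2 = (a + b) * (a - b) := by ring
  rw [h1, abs_mul, abs_of_nonneg (by linarith)]
  exact mul_le_mul_of_nonneg_right (by linarith) (abs_nonneg _)

private theorem qS_lip17 (h : Con p q φ φ' C r K ε) (hφ : Measurable (Function.uncurry φ)) [IsProbabilityMeasure μ]
    (m : ℕ) (u v : ℝ) (ω : Ω) (y y' : ℝ) :
    |qS μ p q T ξ φ X m u v ω y - qS μ p q T ξ φ X m u v ω y'| ≤ (1 + 4 * Real.pi * Real.exp (v + 1)) * |y - y'| := by
  have hpi := Real.pi_pos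
  have hP0 : ∀ y, 0 ≤ ‖psi μ p q T ξ φ X m (pst T ξ ω) (Real.exp y)‖ ^ 2 := fun y => sq_nonneg _
  have hP1 : ∀ y, ‖psi μ p q T ξ φ X m (pst T ξ ω) (Real.exp y)‖ ^ 2 ≤ 1 := fun y =>
    pow_le_one₀ (norm_nonneg _) (psi_norm _ _ _)
  have hpos : (0 : ℝ) ≤ 4 * Real.pi * Real.exp (v + 1) * |y - y'| := by positivity
  -- one point outside of the window
  have hout : ∀ a b : ℝ, v + 1 ≤ b → |qS μ p q T ξ φ X m u v ω a - qS μ p q T ξ φ X m u v ω b| ≤ |a - b| := by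
    intro a b hb
    unfold qS
    have h0 := bump_eq_zero (p := u) (q := v) (Or.inr hb)
    rw [h0, zero_mul, sub_zero, abs_of_nonneg (mul_nonneg (bump_nonneg _ _ _) (hP0 a))]
    have h1 := bump_lip u v a b
    rw [h0, sub_zero, abs_of_nonneg (bump_nonneg _ _ _)] at h1
    calc bump u v a * ‖psi μ p q T ξ φ X m (pst T ξ ω) (Real.exp a)‖ ^ 2 ≤ bump u v a * 1 :=
          mul_le_mul_of_nonneg_left (hP1 a) (bump_nonneg _ _ _)
      _ ≤ |a - b| := by rw [mul_one]; exact h1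
  rcases le_or_gt (v + 1) y' with h1 | h1
  · refine (hout y y' h1).trans ?_
    linarith
  rcases le_or_gt (v + 1) y with h2 | h2
  · rw [abs_sub_comm, abs_sub_comm y y']
    refine (hout y' y h2).trans ?_
    rw [abs_sub_comm y y'] at hpos
    linarith
  have h3 := psi_lip (T := T) (ξ := ξ) (X := X) (μ := μ) h hφ m (pst T ξ ω) (Real.exp y) (Real.exp y')
  have h4 := exp_lip17 h2.le h1.le
  have h5 := abs_norm_sub_norm_le (psi μ p q T ξ φ X m (pst T ξ ω) (Real.exp y)) (psi μ p q T ξ φ X m (pst T ξ ω) (Real.exp y'))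
  have h6 := sq_diff17 (norm_nonneg (psi μ p q T ξ φ X m (pst T ξ ω) (Real.exp y))) (psi_norm _ _ _)
    (norm_nonneg (psi μ p q T ξ φ X m (pst T ξ ω) (Real.exp y'))) (psi_norm _ _ _)
  have h7 : |‖psi μ p q T ξ φ X m (pst T ξ ω) (Real.exp y)‖ ^ 2 - ‖psi μ p q T ξ φ X m (pst T ξ ω) (Real.exp y')‖ ^ 2| ≤
      4 * Real.pi * Real.exp (v + 1) * |y - y'| := by
    have h8 : 2 * Real.pi * 1 * |Real.exp y - Real.exp y'| ≤ 2 * Real.pi * 1 * (Real.exp (v + 1) * |y - y'|) :=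
      mul_le_mul_of_nonneg_left h4 (by positivity)
    linarith
  unfold qS
  obtain ⟨P, hP⟩ : ∃ P, P = ‖psi μ p q T ξ φ X m (pst T ξ ω) (Real.exp y)‖ ^ 2 := ⟨_, rfl⟩
  obtain ⟨P', hP'⟩ : ∃ P', P' = ‖psi μ p q T ξ φ X m (pst T ξ ω) (Real.exp y')‖ ^ 2 := ⟨_, rfl⟩
  have hPa := hP0 y
  have hPb := hP1 y
  rw [← hP] at h7 hPa hPb ⊢
  rw [← hP'] at h7 ⊢
  have h8 := bump_lip u v y y'
  have h9 : bump u v y * P - bump u v y' * P' = (bump u v y - bump u v y') * P + bump u v y' * (P - P') := by ring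
  rw [h9]
  refine (abs_add_le _ _).trans ?_
  rw [abs_mul, abs_mul, abs_of_nonneg hPa, abs_of_nonneg (bump_nonneg u v y')]
  have h10 : |bump u v y - bump u v y'| * P ≤ |y - y'| * 1 := mul_le_mul h8 hPb hPa (abs_nonneg _)
  have h11 : bump u v y' * |P - P'| ≤ 1 * (4 * Real.pi * Real.exp (v + 1) * |y - y'|) :=
    mul_le_mul (bump_le_one _ _ _) h7 (abs_nonneg _) zero_le_one
  linarith

theorem qS_isQ (h : Con p q φ φ' C r K ε) (hS : Prc μ p q T ξ φ X) [IsProbabilityMeasure μ] (m : ℕ) (u v : ℝ)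
    (hu : 1 ≤ u) (huv : u ≤ v) : ∃ Λ : ℝ, 0 ≤ Λ ∧ IsQ (qS μ p q T ξ φ X m u v) Λ (v + 1) := by
  have hpi := Real.pi_pos
  refine ⟨1 + 4 * Real.pi * Real.exp (v + 1), by positivity, ?_, fun ω y y' => qS_lip17 h hS.hφ m u v ω y y', ?_, ?_, ?_⟩
  · intro y
    unfold qS
    exact (((psi_meas hS.hφ m).comp (hS.mpst.prodMk measurable_const)).norm.pow_const 2).const_mul _
  · intro ω y
    exact mul_nonneg (bump_nonneg _ _ _) (sq_nonneg _)
  · intro ω y
    exact mul_le_one₀ (bump_le_one _ _ _) (sq_nonneg _) (pow_le_one₀ (norm_nonneg _) (psi_norm _ _ _))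
  · intro ω y hy
    unfold qS
    rw [bump_eq_zero (hy.imp (fun h1 => by linarith) fun h1 => h1), zero_mul]

/-- one term -/
private theorem term17 (h : Con p q φ φ' C r K ε) (hφ : Measurable (Function.uncurry φ)) [IsProbabilityMeasure μ]
    {m k : ℕ} (hmk : m ≤ k) (u v : ℝ) (ω : Ω) (x x' : ℝ) :
    bump u v x * ‖psi μ p q T ξ φ X k (pst T ξ ω) (Real.exp x)‖ ^ 2 ≤ qS μ p q T ξ φ X m u v ω x' +
      (4 * Real.pi * Real.exp (v + 1) * (Real.exp (dc C r K ε) * (dc C r K ε * (r ^ ε) ^ m)) +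
        (1 + 4 * Real.pi * Real.exp (v + 1)) * |x - x'|) := by
  have hpi := Real.pi_pos
  obtain ⟨h1, h2⟩ := rε h
  have hD := dc_nonneg h (ξ ω)
  have h3 := (abs_le.1 (qS_lip17 (T := T) (ξ := ξ) (X := X) (μ := μ) h hφ m u v ω x x')).2
  have h4 : bump u v x * ‖psi μ p q T ξ φ X k (pst T ξ ω) (Real.exp x)‖ ^ 2 ≤ qS μ p q T ξ φ X m u v ω x +
      4 * Real.pi * Real.exp (v + 1) * (Real.exp (dc C r K ε) * (dc C r K ε * (r ^ ε) ^ m)) := by
    rcases le_or_gt (v + 1) x with h5 | h5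
    · rw [bump_eq_zero (Or.inr h5), zero_mul]
      have : 0 ≤ qS μ p q T ξ φ X m u v ω x := mul_nonneg (bump_nonneg _ _ _) (sq_nonneg _)
      positivity
    · have h6 := psi_diff17 (T := T) (ξ := ξ) (X := X) (μ := μ) h hφ hmk (pst T ξ ω) (Real.exp x)
      rw [abs_of_pos (Real.exp_pos x)] at h6
      have h7 := sq_diff17 (norm_nonneg (psi μ p q T ξ φ X k (pst T ξ ω) (Real.exp x))) (psi_norm _ _ _)
        (norm_nonneg (psi μ p q T ξ φ X m (pst T ξ ω) (Real.exp x))) (psi_norm _ _ _)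
      have h8 : Real.exp x ≤ Real.exp (v + 1) := Real.exp_le_exp.2 h5.le
      have h9 : 0 ≤ Real.exp (dc C r K ε) * (dc C r K ε * (r ^ ε) ^ m) := by positivity
      have h10 := mul_le_mul_of_nonneg_right h8 h9
      have h11 : ‖psi μ p q T ξ φ X k (pst T ξ ω) (Real.exp x)‖ ^ 2 ≤ ‖psi μ p q T ξ φ X m (pst T ξ ω) (Real.exp x)‖ ^ 2 +
          4 * Real.pi * Real.exp (v + 1) * (Real.exp (dc C r K ε) * (dc C r K ε * (r ^ ε) ^ m)) := by
        have h12 := (abs_le.1 h7).2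
        have h13 := mul_le_mul_of_nonneg_left h10 (show 0 ≤ 2 * Real.pi by positivity)
        linarith
      have h12 := mul_le_mul_of_nonneg_left h11 (bump_nonneg u v x)
      have h13 : bump u v x * (4 * Real.pi * Real.exp (v + 1) * (Real.exp (dc C r K ε) * (dc C r K ε * (r ^ ε) ^ m))) ≤
          1 * (4 * Real.pi * Real.exp (v + 1) * (Real.exp (dc C r K ε) * (dc C r K ε * (r ^ ε) ^ m))) :=
        mul_le_mul_of_nonneg_right (bump_le_one _ _ _) (by positivity)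
      unfold qS
      linarith
  linarith

theorem transfer (h : Con p q φ φ' C r K ε) (hS : Prc μ p q T ξ φ X) [IsProbabilityMeasure μ] (u v : ℝ)
    (hu : 1 ≤ u) (huv : u ≤ v) (κ : ℝ) (hκ : 0 < κ) : ∃ m₀ : ℕ, ∀ m : ℕ, m₀ ≤ m → ∀ (ω : Ω) (σ : ℝ),
      Tendsto (fun k => sc (rho p q T ξ φ) k ω - Sm (tau p q T ξ φ) T k ω) atTop (𝓝 σ) → ∀ᶠ Y : ℝ in atTop,
        Gs (rho p q T ξ φ) (Psi μ p q T ξ φ X) u v ω Y ≤ Gf T (tau p q T ξ φ) (qS μ p q T ξ φ X m u v) ω (Y - σ) + κ := by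
  classical
  have hpi := Real.pi_pos
  obtain ⟨hr1, hr2⟩ := rε h
  have hL : 0 < Real.log (1 / r) := Real.log_pos (by rw [one_div]; exact (one_lt_inv₀ h.hr0).2 h.hr1)
  obtain ⟨L, hLd⟩ : ∃ L, L = Real.log (1 / r) := ⟨_, rfl⟩
  rw [← hLd] at hL
  obtain ⟨c, hcd⟩ : ∃ c, c = dc C r K ε + Real.log (C / (q - p)) := ⟨_, rfl⟩
  obtain ⟨c', hcd'⟩ : ∃ c', c' = dc C r K ε + Real.log (C / (q - p)) + dc C r K ε / (1 - r ^ ε) := ⟨_, rfl⟩
  obtain ⟨B, hBd⟩ : ∃ B, B = ((v - u + 2 + c) / L + 1) + ((v - u + 2 + c') / L + 1) := ⟨_, rfl⟩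
  obtain ⟨B', hB'd⟩ : ∃ B' : ℝ, B' = max B 1 := ⟨_, rfl⟩
  have hB'0 : 0 < B' := by rw [hB'd]; exact lt_of_lt_of_le one_pos (le_max_right _ _)
  have hBB' : B ≤ B' := by rw [hB'd]; exact le_max_left _ _
  obtain ⟨Λ, hΛ⟩ : ∃ Λ : ℝ, Λ = 1 + 4 * Real.pi * Real.exp (v + 1) := ⟨_, rfl⟩
  have hΛ0 : 0 < Λ := by rw [hΛ]; positivity
  have hlim : Tendsto (fun m : ℕ => 4 * Real.pi * Real.exp (v + 1) * (Real.exp (dc C r K ε) * (dc C r K ε * (r ^ ε) ^ m)))
      atTop (𝓝 0) := by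
    have h1 := (((tendsto_pow_atTop_nhds_zero_of_lt_one hr1.le hr2).const_mul (dc C r K ε)).const_mul
      (Real.exp (dc C r K ε))).const_mul (4 * Real.pi * Real.exp (v + 1))
    simpa using h1
  obtain ⟨m₀, hm₀⟩ := eventually_atTop.1 (hlim.eventually (gt_mem_nhds (show 0 < κ / (2 * B') by positivity)))
  refine ⟨m₀, fun m hm ω σ hσ => ?_⟩
  have hc1 := hm₀ m hm
  obtain ⟨c₁, hc₁⟩ : ∃ c₁, c₁ = 4 * Real.pi * Real.exp (v + 1) * (Real.exp (dc C r K ε) * (dc C r K ε * (r ^ ε) ^ m)) := ⟨_, rfl⟩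
  rw [← hc₁] at hc1
  obtain ⟨η, hη⟩ : ∃ η, η = κ / (2 * B' * Λ) := ⟨_, rfl⟩
  have hη0 : 0 < η := by rw [hη]; positivity
  obtain ⟨k₁, hk₁⟩ := eventually_atTop.1 (hσ.eventually (Ioo_mem_nhds (show σ - η < σ by linarith) (show σ < σ + η by linarith)))
  obtain ⟨k₂, hk₂⟩ : ∃ k₂, k₂ = max m k₁ := ⟨_, rfl⟩
  obtain ⟨R, hR⟩ := ((range k₂).image fun k => sc (rho p q T ξ φ) k ω).exists_le
  obtain ⟨R', hR'⟩ := ((range k₂).image fun k => σ + Sm (tau p q T ξ φ) T k ω).exists_le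
  have hRa : ∀ k, k < k₂ → sc (rho p q T ξ φ) k ω ≤ R := fun k hk =>
    hR _ (mem_image_of_mem (fun k => sc (rho p q T ξ φ) k ω) (mem_range.2 hk))
  have hRb : ∀ k, k < k₂ → σ + Sm (tau p q T ξ φ) T k ω ≤ R' := fun k hk =>
    hR' _ (mem_image_of_mem (fun k => σ + Sm (tau p q T ξ φ) T k ω) (mem_range.2 hk))
  filter_upwards [eventually_ge_atTop (R + v + 1), eventually_ge_atTop (R' + v + 1)] with Y hY1 hY2
  -- the two windows
  obtain ⟨W₁, hW1, hW1', hW1c⟩ := win17 (f := fun k => sc (rho p q T ξ φ) k ω) (L := L) (c := c) hL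
    (fun k l => by rw [hLd, hcd]; exact sc_growth h k l ω) (a := Y - v - 1) (b := Y - u + 1) (by linarith)
  obtain ⟨W₂, hW2, hW2', hW2c⟩ := win17 (f := fun k => Sm (tau p q T ξ φ) T k ω) (L := L) (c := c') hL
    (fun k l => by rw [hLd, hcd']; exact S_growth h k l ω) (a := Y - σ - v - 1) (b := Y - σ - u + 1) (by linarith)
  have hk : ∀ k ∈ W₁ ∪ W₂, k₂ ≤ k := by
    intro k hk
    by_contra hlt
    rw [not_le] at hlt
    rcases mem_union.1 hk with h1 | h1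
    · have h2 := (hW1' k h1).1
      have h3 := hRa k hlt
      linarith
    · have h2 := (hW2' k h1).1
      have h3 := hRb k hlt
      linarith
  have hcard : (((W₁ ∪ W₂).card : ℕ) : ℝ) ≤ B' := by
    have h1 : (((W₁ ∪ W₂).card : ℕ) : ℝ) ≤ W₁.card + W₂.card := by exact_mod_cast card_union_le W₁ W₂
    have h2 : Y - u + 1 - (Y - v - 1) + c = v - u + 2 + c := by ring
    have h3 : Y - σ - u + 1 - (Y - σ - v - 1) + c' = v - u + 2 + c' := by ring
    rw [h2] at hW1c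
    rw [h3] at hW2c
    linarith
  have hG1 : Gs (rho p q T ξ φ) (Psi μ p q T ξ φ X) u v ω Y = ∑ k ∈ W₁ ∪ W₂,
      bump u v (Y - sc (rho p q T ξ φ) k ω) * ‖Psi μ p q T ξ φ X k ω (Real.exp (Y - sc (rho p q T ξ φ) k ω))‖ ^ 2 := by
    unfold Gs
    apply tsum_eq_sum
    intro k hk
    have h1 : k ∉ W₁ := fun h1 => hk (mem_union_left _ h1)
    rcases le_or_gt (Y - sc (rho p q T ξ φ) k ω) (u - 1) with h2 | h2
    · rw [bump_eq_zero (Or.inl h2), zero_mul]
    rcases le_or_gt (v + 1) (Y - sc (rho p q T ξ φ) k ω) with h3 | h3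
    · rw [bump_eq_zero (Or.inr h3), zero_mul]
    exact absurd (hW1 k (by linarith) (by linarith)) h1
  have hG2 : Gf T (tau p q T ξ φ) (qS μ p q T ξ φ X m u v) ω (Y - σ) = ∑ k ∈ W₁ ∪ W₂,
      qS μ p q T ξ φ X m u v (T^[k] ω) (Y - σ - Sm (tau p q T ξ φ) T k ω) := by
    unfold Gf
    apply tsum_eq_sum
    intro k hk
    have h1 : k ∉ W₂ := fun h1 => hk (mem_union_right _ h1)
    unfold qS
    rcases le_or_gt (Y - σ - Sm (tau p q T ξ φ) T k ω) (u - 1) with h2 | h2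
    · rw [bump_eq_zero (Or.inl h2), zero_mul]
    rcases le_or_gt (v + 1) (Y - σ - Sm (tau p q T ξ φ) T k ω) with h3 | h3
    · rw [bump_eq_zero (Or.inr h3), zero_mul]
    exact absurd (hW2 k (by linarith) (by linarith)) h1
  rw [hG1, hG2]
  have hterm : ∀ k ∈ W₁ ∪ W₂,
      bump u v (Y - sc (rho p q T ξ φ) k ω) * ‖Psi μ p q T ξ φ X k ω (Real.exp (Y - sc (rho p q T ξ φ) k ω))‖ ^ 2 ≤
        qS μ p q T ξ φ X m u v (T^[k] ω) (Y - σ - Sm (tau p q T ξ φ) T k ω) + (c₁ + Λ * η) := by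
    intro k hk'
    have hk2 := hk k hk'
    have hkm : m ≤ k := by rw [hk₂] at hk2; exact (le_max_left _ _).trans hk2
    have hkk : k₁ ≤ k := by rw [hk₂] at hk2; exact (le_max_right _ _).trans hk2
    have h1 := term17 (T := T) (ξ := ξ) (X := X) (μ := μ) h hS.hφ hkm u v (T^[k] ω) (Y - sc (rho p q T ξ φ) k ω)
      (Y - σ - Sm (tau p q T ξ φ) T k ω)
    rw [← hc₁, ← hΛ] at h1
    have h2 := hk₁ k hkk
    have h3 : |Y - sc (rho p q T ξ φ) k ω - (Y - σ - Sm (tau p q T ξ φ) T k ω)| ≤ η := by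
      rw [abs_le]
      constructor <;> linarith [h2.1, h2.2]
    have h4 := mul_le_mul_of_nonneg_left h3 hΛ0.le
    refine h1.trans ?_
    linarith
  refine (sum_le_sum hterm).trans ?_
  rw [sum_add_distrib, sum_const, nsmul_eq_mul]
  have h1 : (((W₁ ∪ W₂).card : ℕ) : ℝ) * (c₁ + Λ * η) ≤ B' * (κ / (2 * B') + Λ * η) := by
    have h2 : 0 ≤ κ / (2 * B') + Λ * η := by positivity
    refine (mul_le_mul_of_nonneg_left (show c₁ + Λ * η ≤ κ / (2 * B') + Λ * η by linarith) (Nat.cast_nonneg _)).trans ?_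
    exact mul_le_mul_of_nonneg_right hcard h2
  have h2 : B' * (κ / (2 * B') + Λ * η) = κ := by
    rw [hη]
    field_simp
    norm_num
  linarith

end Pool.Agent.Helper46.HT
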