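import Pool.Agent.Helper46.HT.Defs
import Pool.Agent.Helper82.HS.Atom
import Pool.Agent.Helper82.HP.Wiener
import Pool.Agent.Helper82.FK.VC2

/-!
# HT-C3 (helper82): the conditional characteristic functions are small in the mean, uniformly in the chart

`∫_d^(d+W) |psi m π (e^y)|^2 dy ≤ e^W (1/R) ∫_0^R |psi m π t|^2 dt`, `R = e^(d+W)`, and this is at most
`e^W ∬ min(1, 1/(π R |nrm m z - nrm m w|)) dκ dκ ≤ e^W ∬ min(1, C'/(R |z - w|)) dκ(z) dκ(w)`, since
`|nrm m z - nrm m w| = rd m z w ≥ e^(-dc) |z - w|/(q-p)` for `z, w` in `[p,q]` (`Con.rd_lower`; `κ = kap π` lives on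
`[p,q]` for almost every past).  It does not depend on `m` and tends to the sum of the squares of the atoms, `= 0`.
-/

set_option autoImplicit false

namespace Pool.Agent.Helper46.HT

open Finset MeasureTheory ProbabilityTheory Filter Topology
open Pool.Agent.Helper46.HR Pool.Agent.Helper46.HS
open Pool.Agent.Helper59.RE (e norm_e e_add e_sub conj_e continuous_e e_zero)

variable {Ω : Type*} [MeasurableSpace Ω] {E : Type*} [MeasurableSpace E] {μ : Measure Ω} {p q : ℝ} {T : Ω ≃ᵐ Ω} {ξ : Ω → E}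
    {φ φ' : E → ℝ → ℝ} {X : Ω → ℝ} {C r K ε : ℝ}

/-- the kernel -/
noncomputable def Hd (d W z : ℝ) : ℂ := ∫ y in d..(d + W), e (Real.exp y * z)

theorem Hd_le {d W : ℝ} (hW : 0 ≤ W) (z : ℝ) : ‖Hd d W z‖ ≤ W := by
  unfold Hd
  have h := intervalIntegral.norm_integral_le_of_norm_le_const (a := d) (b := d + W)
    (f := fun y : ℝ => e (Real.exp y * z)) (C := 1) (fun u _ => (norm_e _).le)
  refine h.trans ?_
  rw [add_sub_cancel_left, abs_of_nonneg hW, one_mul]

theorem Hd_far_pos {d W : ℝ} (hW : 0 ≤ W) {z : ℝ} (hz : 0 < z) : ‖Hd d W z‖ ≤ 1 / (Real.exp d * z) := by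
  have hd : ∀ u : ℝ, HasDerivAt (fun u : ℝ => Real.exp u * z) (Real.exp u * z) u := fun u =>
    (Real.hasDerivAt_exp u).mul_const z
  have hm : 0 < Real.exp d * z := by positivity
  have h := Pool.Agent.Helper82.FK.vc1m (a := d) (b := d + W) (by linarith) (G := fun u => Real.exp u * z)
    (G' := fun u => Real.exp u * z) (G'' := fun u => Real.exp u * z) (fun u _ => hd u) (fun u _ => hd u)
    (by fun_prop) hm (fun u hu => by
      rw [abs_of_pos (by positivity)]
      have := Real.exp_le_exp.2 hu.1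
      gcongr) (fun u _ => by positivity)
  have h5 : Hd d W z = ∫ u in d..(d + W), Pool.Agent.Helper82.FK.e (Real.exp u * z) := by
    unfold Hd
    simp only [Pool.Agent.Helper82.HP.e_eq_FK]
  rw [h5]
  refine h.trans ?_
  rw [div_div, div_le_div_iff₀ (by positivity) hm]
  have := Real.pi_gt_three
  nlinarith

theorem Hd_far {d W : ℝ} (hW : 0 ≤ W) {z : ℝ} (hz : z ≠ 0) : ‖Hd d W z‖ ≤ 1 / (Real.exp d * |z|) := by
  rcases lt_or_gt_of_ne hz with h | h
  · have h1 : Hd d W z = (starRingEnd ℂ) (Hd d W (-z)) := by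
      unfold Hd
      have h2 : ∀ y, e (Real.exp y * z) = (starRingEnd ℂ) (e (Real.exp y * -z)) := fun y => by
        rw [conj_e]
        congr 1
        ring
      simp_rw [h2, intervalIntegral.intervalIntegral_eq_integral_uIoc]
      rw [integral_conj]
      split_ifs <;> simp
    rw [h1, Complex.norm_conj, abs_of_neg h]
    exact Hd_far_pos hW (by linarith)
  · rw [abs_of_pos h]
    exact Hd_far_pos hW h

/-- the square of the modulus as a double integral -/
theorem sq_eqF (ν : Measure ℝ) [IsProbabilityMeasure ν] (F : ℝ → ℝ) (t : ℝ) :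
    ((‖∫ x, e (t * F x) ∂ν‖ ^ 2 : ℝ) : ℂ) = ∫ z : ℝ × ℝ, e (t * (F z.1 - F z.2)) ∂(ν.prod ν) := by
  have h1 : ((‖∫ x, e (t * F x) ∂ν‖ ^ 2 : ℝ) : ℂ) = (∫ x, e (t * F x) ∂ν) * (starRingEnd ℂ) (∫ x, e (t * F x) ∂ν) := by
    rw [Complex.mul_conj, Complex.normSq_eq_norm_sq]
  rw [h1, ← integral_conj, ← integral_prod_mul]
  refine integral_congr_ae (Eventually.of_forall fun z => ?_)
  simp only
  rw [← e_sub]
  congr 1
  ring

/-- the bound for one past -/
theorem one_past {ν : Measure ℝ} [IsProbabilityMeasure ν] {F : ℝ → ℝ} (hF : Measurable F) {p q c : ℝ}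
    (hν : ν (Set.Icc p q)ᶜ = 0) (hc : 0 < c)
    (hFl : ∀ u ∈ Set.Icc p q, ∀ v ∈ Set.Icc p q, c * |u - v| ≤ |F u - F v|) {W : ℝ} (hW : 0 ≤ W) (d : ℝ)
    {δ : ℝ} (hδ : 0 < δ) :
    ∫ y in d..(d + W), ‖∫ x, e (Real.exp y * F x) ∂ν‖ ^ 2 ≤
      W * (ν.prod ν).real {z : ℝ × ℝ | |z.1 - z.2| ≤ δ} + 1 / (Real.exp d * (c * δ)) := by
  have hfub : ((∫ y in d..(d + W), ‖∫ x, e (Real.exp y * F x) ∂ν‖ ^ 2 : ℝ) : ℂ) =
      ∫ z : ℝ × ℝ, Hd d W (F z.1 - F z.2) ∂(ν.prod ν) := by
    rw [← intervalIntegral.integral_ofReal]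
    simp_rw [sq_eqF]
    rw [intervalIntegral.integral_of_le (by linarith : d ≤ d + W), integral_integral_swap]
    · refine integral_congr_ae (Eventually.of_forall fun z => ?_)
      simp only
      unfold Hd
      rw [intervalIntegral.integral_of_le (by linarith : d ≤ d + W)]
    · refine Integrable.mono' (g := fun _ => (1 : ℝ)) (integrable_const _) ?_ (Eventually.of_forall fun z => ?_)
      · apply Measurable.aestronglyMeasurable
        show Measurable fun q : ℝ × (ℝ × ℝ) => e (Real.exp q.1 * (F q.2.1 - F q.2.2))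
        apply continuous_e.measurable.comp
        exact (Real.measurable_exp.comp measurable_fst).mul
          ((hF.comp (measurable_fst.comp measurable_snd)).sub (hF.comp (measurable_snd.comp measurable_snd)))
      · simp only [Function.uncurry]
        rw [norm_e]
  have hA : MeasurableSet {z : ℝ × ℝ | |z.1 - z.2| ≤ δ} :=
    measurableSet_le (by fun_prop) measurable_const
  have h1 : ∫ y in d..(d + W), ‖∫ x, e (Real.exp y * F x) ∂ν‖ ^ 2 ≤
      ‖∫ z : ℝ × ℝ, Hd d W (F z.1 - F z.2) ∂(ν.prod ν)‖ := by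
    rw [← hfub, Complex.norm_real]
    exact le_abs_self _
  refine h1.trans ?_
  have hb : 0 ≤ 1 / (Real.exp d * (c * δ)) := by positivity
  have h2 : ‖∫ z : ℝ × ℝ, Hd d W (F z.1 - F z.2) ∂(ν.prod ν)‖ ≤
      ∫ z : ℝ × ℝ, ({z : ℝ × ℝ | |z.1 - z.2| ≤ δ}.indicator (fun _ => W) z + 1 / (Real.exp d * (c * δ))) ∂(ν.prod ν) := by
    refine norm_integral_le_of_norm_le (((integrable_const W).indicator hA).add (integrable_const _)) ?_
    have hfst : ∀ᵐ z ∂(ν.prod ν), z.1 ∈ Set.Icc p q :=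
      (Measure.quasiMeasurePreserving_fst (μ := ν) (ν := ν)).ae (show ∀ᵐ x ∂ν, x ∈ Set.Icc p q from hν)
    have hsnd : ∀ᵐ z ∂(ν.prod ν), z.2 ∈ Set.Icc p q :=
      (Measure.quasiMeasurePreserving_snd (μ := ν) (ν := ν)).ae (show ∀ᵐ x ∂ν, x ∈ Set.Icc p q from hν)
    filter_upwards [hfst, hsnd] with z hz1 hz2
    by_cases hz : |z.1 - z.2| ≤ δ
    · rw [Set.indicator_of_mem (show z ∈ {z : ℝ × ℝ | |z.1 - z.2| ≤ δ} from hz)]
      have := Hd_le (d := d) hW (F z.1 - F z.2)
      linarith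
    · rw [Set.indicator_of_notMem (show z ∉ {z : ℝ × ℝ | |z.1 - z.2| ≤ δ} from hz), zero_add]
      push Not at hz
      have h3 := hFl z.1 hz1 z.2 hz2
      have h4 : c * δ ≤ |F z.1 - F z.2| := by
        refine le_trans ?_ h3
        gcongr
      have h5 : 0 < |F z.1 - F z.2| := lt_of_lt_of_le (by positivity) h4
      refine (Hd_far hW (abs_pos.1 h5)).trans ?_
      gcongr
  refine h2.trans (le_of_eq ?_)
  rw [integral_add ((integrable_const W).indicator hA) (integrable_const _), integral_indicator_const _ hA,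
    smul_eq_mul, integral_const, smul_eq_mul]
  simp only [probReal_univ, one_mul]
  ring

theorem wiener_small (h : Con p q φ φ' C r K ε) (hS : Prc μ p q T ξ φ X) [IsProbabilityMeasure μ]
    (hna : ∀ᵐ ω ∂μ, ∀ z : ℝ, kap μ T ξ X (pst T ξ ω) {z} = 0) (W : ℝ) (hW : 0 ≤ W) (κ : ℝ) (hκ : 0 < κ) :
    ∃ d₀ : ℝ, ∀ d : ℝ, d₀ ≤ d → ∀ m : ℕ,
      ∫ ω, (∫ y in d..(d + W), ‖psi μ p q T ξ φ X m (pst T ξ ω) (Real.exp y)‖ ^ 2) ∂μ ≤ κ := by
  classical
  set c : ℝ := Real.exp (-dc C r K ε) / (q - p) with hc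
  have hqp : 0 < q - p := sub_pos.2 h.hpq
  have hc0 : 0 < c := by positivity
  have hsupp := Pool.Agent.Helper82.HS.kap_supp hS
  have hFl : ∀ (m : ℕ) (π : ℕ → E), ∀ u ∈ Set.Icc p q, ∀ v ∈ Set.Icc p q,
      c * |u - v| ≤ |nrm p q φ π m u - nrm p q φ π m v| := by
    intro m π u hu v hv
    have h1 := h.rd_lower π m hu hv
    have h2 : nrm p q φ π m u - nrm p q φ π m v = (pcm φ π m u - pcm φ π m v) / len p q φ π m := by
      unfold nrm
      rw [clp_eq hu, clp_eq hv]
      ring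
    rw [h2, abs_div, abs_of_pos (h.len_pos π m), hc]
    have h3 : rd p q φ π m u v = |pcm φ π m u - pcm φ π m v| / len p q φ π m := rfl
    rw [← h3]
    refine le_trans (le_of_eq ?_) h1
    ring
  -- the double kernel
  set κ₂ := (kap μ T ξ X) ×ₖ (kap μ T ξ X) with hκ₂
  set A : ℕ → Set (ℝ × ℝ) := fun n => {z : ℝ × ℝ | |z.1 - z.2| ≤ 1 / ((n : ℝ) + 1)} with hA
  have hAm : ∀ n, MeasurableSet (A n) := fun n => measurableSet_le (by fun_prop) measurable_const
  set Dn : ℕ → Ω → ℝ := fun n ω => (κ₂ (pst T ξ ω)).real (A n) with hDn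
  have hDm : ∀ n, Measurable (Dn n) := fun n =>
    ((Kernel.measurable_coe κ₂ (hAm n)).comp hS.mpst).ennreal_toReal
  have hD1 : ∀ n ω, ‖Dn n ω‖ ≤ 1 := fun n ω => by
    rw [Real.norm_eq_abs, abs_of_nonneg measureReal_nonneg]
    exact measureReal_le_one
  have hDlim : ∀ᵐ ω ∂μ, Tendsto (fun n => Dn n ω) atTop (𝓝 0) := by
    filter_upwards [hna] with ω hω
    have hanti : Antitone A := by
      intro m n hmn z hz
      have h1 : |z.1 - z.2| ≤ 1 / ((n : ℝ) + 1) := hz
      refine h1.trans ?_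
      have : (m : ℝ) ≤ n := by exact_mod_cast hmn
      exact one_div_le_one_div_of_le (by positivity) (by linarith)
    have h2 := tendsto_measure_iInter_atTop (μ := κ₂ (pst T ξ ω)) (fun n => (hAm n).nullMeasurableSet) hanti
      ⟨0, measure_ne_top _ _⟩
    have h3 : ⋂ n, A n = {z : ℝ × ℝ | z.1 - z.2 = 0} := by
      ext z
      simp only [Set.mem_iInter, hA, Set.mem_ofPred_eq]
      constructor
      · intro hz
        have h4 : |z.1 - z.2| ≤ 0 := ge_of_tendsto' tendsto_one_div_add_atTop_nhds_zero_nat hz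
        exact abs_nonpos_iff.1 h4
      · intro hz n
        rw [hz, abs_zero]
        positivity
    have h4 : κ₂ (pst T ξ ω) {z : ℝ × ℝ | z.1 - z.2 = 0} = 0 := by
      have hm : MeasurableSet {z : ℝ × ℝ | z.1 - z.2 = 0} :=
        (isClosed_eq (by fun_prop) continuous_const).measurableSet
      rw [hκ₂, Kernel.prod_apply, Measure.prod_apply hm, lintegral_eq_zero_iff (measurable_measure_prodMk_left hm)]
      refine Eventually.of_forall fun x => ?_
      show kap μ T ξ X (pst T ξ ω) (Prod.mk x ⁻¹' {z : ℝ × ℝ | z.1 - z.2 = 0}) = 0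
      have h5 : Prod.mk x ⁻¹' {z : ℝ × ℝ | z.1 - z.2 = 0} = {x} := by
        ext y
        simp only [Set.mem_preimage, Set.mem_singleton_iff, Set.mem_ofPred_eq]
        constructor
        · intro h6
          linarith
        · intro h6
          rw [h6, sub_self]
      rw [h5]
      exact hω x
    rw [h3, h4] at h2
    have h5 := (ENNReal.tendsto_toReal ENNReal.zero_ne_top).comp h2
    exact h5
  have hint : Tendsto (fun n => ∫ ω, Dn n ω ∂μ) atTop (𝓝 0) := by
    have h1 := tendsto_integral_of_dominated_convergence (fun _ : Ω => (1 : ℝ)) (F := Dn) (f := fun _ => (0 : ℝ))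
      (fun n => (hDm n).aestronglyMeasurable) (integrable_const _) (fun n => Eventually.of_forall fun ω => hD1 n ω)
      hDlim
    rwa [integral_zero] at h1
  obtain ⟨n, hn⟩ : ∃ n, W * ∫ ω, Dn n ω ∂μ ≤ κ / 2 := by
    have h1 := hint.const_mul W
    rw [mul_zero] at h1
    exact (h1.eventually (ge_mem_nhds (by positivity : (0 : ℝ) < κ / 2))).exists
  set δ : ℝ := 1 / ((n : ℝ) + 1) with hδ
  have hδ0 : 0 < δ := by positivity
  refine ⟨Real.log (2 / (κ * (c * δ))), fun d hd m => ?_⟩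
  have hed : 1 / (Real.exp d * (c * δ)) ≤ κ / 2 := by
    have h1 : 2 / (κ * (c * δ)) ≤ Real.exp d := by
      rw [← Real.exp_log (by positivity : 0 < 2 / (κ * (c * δ)))]
      exact Real.exp_le_exp.2 hd
    rw [div_le_iff₀ (by positivity)] at h1
    rw [div_le_iff₀ (by positivity)]
    nlinarith
  have hDi : Integrable (fun ω => W * Dn n ω + 1 / (Real.exp d * (c * δ))) μ := by
    refine Integrable.add (Integrable.const_mul ?_ _) (integrable_const _)
    exact (integrable_const (1 : ℝ)).mono' (hDm n).aestronglyMeasurable (Eventually.of_forall fun ω => hD1 n ω)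
  have hDi' : Integrable (Dn n) μ :=
    (integrable_const (1 : ℝ)).mono' (hDm n).aestronglyMeasurable (Eventually.of_forall fun ω => hD1 n ω)
  have h1 : ∫ ω, (∫ y in d..(d + W), ‖psi μ p q T ξ φ X m (pst T ξ ω) (Real.exp y)‖ ^ 2) ∂μ ≤
      ∫ ω, (W * Dn n ω + 1 / (Real.exp d * (c * δ))) ∂μ := by
    refine integral_mono_of_nonneg (Eventually.of_forall fun ω => ?_) hDi ?_
    · exact intervalIntegral.integral_nonneg (by linarith) fun y _ => sq_nonneg _
    · filter_upwards [hsupp] with ω hω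
      have h2 := one_past (ν := kap μ T ξ X (pst T ξ ω)) (nrm_measurable' hS.hφ p q m (pst T ξ ω)) hω hc0
        (hFl m (pst T ξ ω)) hW d hδ0
      have h3 : Dn n ω = ((kap μ T ξ X (pst T ξ ω)).prod (kap μ T ξ X (pst T ξ ω))).real
          {z : ℝ × ℝ | |z.1 - z.2| ≤ δ} := by
        rw [hDn, hκ₂]
        simp only [Kernel.prod_apply]
        rfl
      rw [h3]
      exact h2
  refine h1.trans ?_
  rw [integral_add (hDi'.const_mul _) (integrable_const _), integral_const_mul, integral_const, smul_eq_mul]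
  simp only [probReal_univ, one_mul]
  linarith

end Pool.Agent.Helper46.HT
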