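import Pool.Agent.Helper46.HT.WeylA
import Pool.Agent.Helper46.HT.Wien
import Pool.Agent.Helper46.HT.Dich
import Pool.Agent.Helper46.HT.Cross
import Pool.Agent.Helper46.HT.Trans
import Pool.Agent.Helper46.HT.Flow

/-!
# HT-C7 (helper46): Weyl sums

`Gr (exp 1) c₀ B₂ δ Z 0 0 Df x` (Helper32/HP/Defs.lean) is the growth condition with the rate outside of `Z`: the first
alternative of `Gr` is impossible for `β₀ = 0`.
-/

set_option autoImplicit false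

namespace Pool.Agent.Helper46.HT

open Finset MeasureTheory ProbabilityTheory Filter Topology
open Pool.Agent.Helper46.HR Pool.Agent.Helper46.HS
open Pool.Agent.Helper59.RE (e norm_e e_add e_sub conj_e continuous_e e_zero)
open Pool.Agent.Helper32.HP (IsQ JJ Gr GrL)
open Pool.Agent.Helper59.HP (ex)

variable {Ω : Type*} [MeasurableSpace Ω] {E : Type*} [MeasurableSpace E] {μ : Measure Ω} {p q : ℝ} {T : Ω ≃ᵐ Ω} {ξ : Ω → E}
    {φ φ' : E → ℝ → ℝ} {X : Ω → ℝ} {C r K ε : ℝ}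

theorem grL46 {b c₀ B₂ δ : ℝ} {E : Set ℝ} {β₀ s₀ : ℝ} {Df : ℕ → ℝ → ℝ} {x : ℝ}
    (h : Gr b c₀ B₂ δ E β₀ s₀ Df x) : GrL b c₀ B₂ δ Df x := by
  obtain ⟨β, hβ, h1, h2, h3, h4⟩ := h
  refine ⟨β, hβ, h1, h2, h3, ?_⟩
  rcases h4 with ⟨-, -, h4⟩ | ⟨-, h4⟩
  · have h5 := ((h4.comp (tendsto_add_atTop_nat 1)).sub h4).add_const (Real.log β)
    simp only [sub_zero, zero_add] at h5
    refine h5.congr fun n => ?_
    simp only [Function.comp_apply]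
    push_cast
    ring
  · exact h4

theorem sum_le_eventually {f g : ℕ → ℝ} (hg : ∀ n, 0 ≤ g n) (h : ∀ᶠ n : ℕ in atTop, f n ≤ g n) :
    ∃ C₁ : ℝ, ∀ N : ℕ, ∑ n ∈ range N, f n ≤ C₁ + ∑ n ∈ range N, g n := by
  classical
  obtain ⟨n₁, hn₁⟩ := eventually_atTop.1 h
  refine ⟨∑ n ∈ range n₁, |f n|, fun N => ?_⟩
  have h1 : ∀ n ∈ range N, f n ≤ (if n < n₁ then |f n| else 0) + g n := by
    intro n _
    split_ifs with h2
    · linarith [le_abs_self (f n), hg n]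
    · linarith [hn₁ n (not_lt.1 h2)]
  refine (sum_le_sum h1).trans ?_
  rw [sum_add_distrib]
  apply add_le_add _ le_rfl
  rw [← sum_filter]
  apply sum_le_sum_of_subset_of_nonneg
  · intro n hn
    rw [mem_filter] at hn
    exact mem_range.2 hn.2
  · exact fun _ _ _ => abs_nonneg _

theorem weylT (h : Con p q φ φ' C r K ε) (hS : Prc μ p q T ξ φ X) [IsProbabilityMeasure μ] (hE : Ergodic T μ)
    (hi : Integrable (fun ω => Real.log |φ' (ξ ω) (X (T ω))|) μ)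
    (hX : ∀ f : (ℕ → E) → ℝ, Measurable f → ¬ (X =ᵐ[μ] fun ω => f (pst T ξ ω))) :
    ∃ Z : Set ℝ, Z.Countable ∧ (∀ t ∈ Z, ∃ m : ℤ, m ≠ 0 ∧ ∃ h : Ω → ℂ, Measurable h ∧ (∀ ω, ‖h ω‖ = 1) ∧
        ∀ᵐ ω ∂μ, h (T ω) = ex (m / t * tau p q T ξ φ ω) * h ω) ∧
      ∀ (D : ℕ) (a : ℕ → ℕ), StrictMono a → (∀ n, a n ≤ D * (n + 1)) →
      ∀ (c : ℕ → ℝ) (u v : ℝ) (F Df : ℕ → ℝ → ℝ), (∀ n, Measurable (F n)) → (∀ n, Measurable (Df n)) →
      ∀ δ K B₂ c₀ : ℝ, 0 < δ → 0 ≤ K → 1 ≤ B₂ → 0 < c₀ →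
        (∀ (n : ℕ) (x y : ℝ), x ∈ Set.Icc u v → y ∈ Set.Icc u v →
          |F n y - F n x - Df n x * (y - x)| ≤ K * B₂ ^ n * |y - x| ^ (1 + δ)) →
        Real.log B₂ < (1 + δ) * c₀ * Real.log (Real.exp 1) →
        (∀ᵐ ω ∂μ, X ω ∈ Set.Ioo u v → Gr (Real.exp 1) c₀ B₂ δ Z 0 0 Df (X ω)) →
        ∀ᵐ ω ∂μ, X ω ∈ Set.Ioo u v →
          Tendsto (fun N : ℕ => ‖∑ i ∈ range N, e (F (a i) (X ω) + c i)‖ / N) atTop (𝓝 0) := by
  classical
  have hna := dichotomy h hS hE hX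
  have hN := nest_of_sys h hS
  obtain ⟨τ, hτ⟩ : ∃ τ : Ω → ℝ, τ = tau p q T ξ φ := ⟨_, rfl⟩
  have hτm : Measurable τ := by rw [hτ]; exact tau_measurable h hS
  have hτ0 : ∀ ω, 0 ≤ τ ω := fun ω => by rw [hτ]; exact tau_nonneg h ω
  have hτi : Integrable τ μ := by rw [hτ]; exact tau_integrable h hS hi
  have hlr : 0 < Real.log (1 / r) := Real.log_pos (by rw [lt_div_iff₀ h.hr0]; linarith [h.hr1])
  obtain ⟨D₀, hD₀⟩ : ∃ D₀ : ℝ, ∀ (k : ℕ) ω, Real.log (1 / r) * k - D₀ ≤ Sm τ T k ω := by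
    refine ⟨dc C r K ε + Real.log (C / (q - p)) + dc C r K ε / (1 - r ^ ε), fun k ω => ?_⟩
    have h1 := S_growth (T := T) (ξ := ξ) h 0 k ω
    rw [zero_add] at h1
    have h2 : Ssum (tau p q T ξ φ) T 0 ω = 0 := by
      unfold Ssum
      simp
    have h3 : Ssum (tau p q T ξ φ) T k ω = Sm τ T k ω := by rw [hτ]; rfl
    rw [h2, sub_zero, h3, mul_comm] at h1
    exact h1
  obtain ⟨lam, hlam⟩ : ∃ lam : ℝ, lam = ∫ ω, τ ω ∂μ := ⟨_, rfl⟩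
  have hlam0 : 0 < lam := by
    obtain ⟨k, hk⟩ := exists_nat_gt (D₀ / Real.log (1 / r))
    rw [div_lt_iff₀ hlr] at hk
    have h1 := Sm_integral hE.toMeasurePreserving hτm hτi k
    have h2 : ∫ ω, (Real.log (1 / r) * k - D₀) ∂μ ≤ ∫ ω, Sm τ T k ω ∂μ :=
      integral_mono (integrable_const _) (Sm_int hE.toMeasurePreserving hτi k) fun ω => hD₀ k ω
    rw [h1, integral_const, probReal_univ, one_smul, ← hlam] at h2
    have h3 : 0 < (k : ℝ) * lam := by linarith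
    rcases Nat.eq_zero_or_pos k with h4 | h4
    · rw [h4, Nat.cast_zero, zero_mul] at h3
      exact absurd h3 (lt_irrefl _)
    · exact (pos_iff_pos_of_mul_pos h3).1 (by exact_mod_cast h4)
  -- the exceptional rates
  have hfl : ∀ i : ℕ × ℕ × ℕ, ∃ Z : Set ℝ, (Z.Countable ∧ ∀ t ∈ Z, ∃ m : ℤ, m ≠ 0 ∧ ∃ h : Ω → ℂ, Measurable h ∧
        (∀ ω, ‖h ω‖ = 1) ∧ ∀ᵐ ω ∂μ, h (T ω) = ex (m / t * τ ω) * h ω) ∧
      ∀ᵐ ω ∂μ, 1 ≤ (i.1 : ℝ) - i.2.1 → ∀ δ : ℝ, 0 < δ → δ ∉ Z →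
      ∀ y : ℕ → ℝ, Tendsto (fun n : ℕ => y (n + 1) - y n) atTop (𝓝 δ) → ∀ ε : ℝ, 0 < ε → ∀ᶠ N : ℕ in atTop,
        ∑ n ∈ range N, Gf T τ (qS μ p q T ξ φ X i.2.2 ((i.1 : ℝ) - i.2.1) ((i.1 : ℝ) + 3)) ω (y n) ≤
          N * (JJ μ (qS μ p q T ξ φ X i.2.2 ((i.1 : ℝ) - i.2.1) ((i.1 : ℝ) + 3)) ((i.1 : ℝ) + 3 + 1) / lam + ε) := by
    intro i
    by_cases hi1 : 1 ≤ (i.1 : ℝ) - i.2.1
    · have hM0 : (0 : ℝ) ≤ i.2.1 := Nat.cast_nonneg _
      obtain ⟨Λ, hΛ, hq⟩ := qS_isQ h hS i.2.2 ((i.1 : ℝ) - i.2.1) ((i.1 : ℝ) + 3) hi1 (by linarith)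
      obtain ⟨Z, hZ1, hZ3, hZ2⟩ := free_flow hE hτm hτ0 hτi hlr hD₀ hΛ (by positivity) hq
      refine ⟨Z, ⟨hZ1, hZ3⟩, ?_⟩
      filter_upwards [hZ2] with ω hω _
      rw [hlam]
      exact hω
    · exact ⟨∅, ⟨Set.countable_empty, fun t ht => absurd ht (Set.notMem_empty t)⟩,
        Eventually.of_forall fun ω h' => absurd h' hi1⟩
  choose Z hZc hZ using hfl
  refine ⟨⋃ i, Z i, Set.countable_iUnion fun i => (hZc i).1, ?_, ?_⟩
  · intro t ht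
    obtain ⟨i, hi⟩ := Set.mem_iUnion.1 ht
    rw [← hτ]
    exact (hZc i).2 t hi
  intro D a ha haD c u v F Df hF hDf δ K' B₂ c₀ hδ hK hB hc₀ hlin h1 hgr
  rw [Real.log_exp, mul_one] at h1
  -- the law of large numbers
  have hL : ∀ᵐ ω ∂μ, ∀ d M : ℕ, X ω ∈ Set.Ioo u v → ∀ ε : ℝ, 0 < ε → ∀ᶠ N : ℕ in atTop,
      ‖∑ i ∈ range N, e (F (a i) (X ω) + c i)‖ ^ 2 ≤
        N * (2 * ∑ n ∈ range (a N), (Gs (rho p q T ξ φ) (Psi μ p q T ξ φ X) ((d : ℝ) - M) (d + 3) ω (Real.log |Df n (X ω)|) +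
          cri (rho p q T ξ φ) ((d : ℝ) - M) d ω (Real.log |Df n (X ω)|))) + ε * (N : ℝ) ^ 2 := by
    rw [ae_all_iff]
    intro d
    rw [ae_all_iff]
    intro M
    exact nest_lln hN a ha D haD c u v F Df hF hDf δ K' B₂ c₀ hδ hK hB hc₀ hlin h1 (by
      filter_upwards [hgr] with ω hω hX
      exact grL46 (hω hX)) d ((d : ℝ) - M)
  have hcr := cross hE hτm hτ0 hτi (by rw [← hlam]; exact hlam0)
  have hZ' := ae_all_iff.2 hZ
  filter_upwards [hL, hcr, hZ', hgr] with ω h2 h3 h4 h5 hXuv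
  obtain ⟨β, hβ1, hβ2, hβ3, hβ4, hβ5⟩ := h5 hXuv
  have hlβ : 0 < Real.log β := Real.log_pos hβ1
  obtain ⟨hβZ, hβ6⟩ : Real.log β ∉ (⋃ i, Z i) ∧
      Tendsto (fun n : ℕ => Real.log |Df (n + 1) (X ω)| - Real.log |Df n (X ω)|) atTop (𝓝 (Real.log β)) := by
    rcases hβ5 with ⟨rfl, -, -⟩ | ⟨h6, h7⟩
    · exact absurd hβ1 (by norm_num)
    · rw [Real.log_exp, div_one] at h6
      exact ⟨h6, h7⟩
  obtain ⟨σ, hσ⟩ := sigma_exists (T := T) (ξ := ξ) h ω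
  have hσ' : Tendsto (fun k => sc (rho p q T ξ φ) k ω - Sm τ T k ω) atTop (𝓝 σ) := by
    rw [hτ]
    exact hσ
  obtain ⟨Y, hY⟩ : ∃ Y : ℕ → ℝ, Y = fun n => Real.log |Df n (X ω)| := ⟨_, rfl⟩
  have hYinc : Tendsto (fun n : ℕ => Y (n + 1) - Y n) atTop (𝓝 (Real.log β)) := by
    rw [hY]
    exact hβ6
  have hYt : Tendsto Y atTop atTop := (Pool.Agent.Helper59.HP.seq_bounds hlβ hYinc).2
  refine final46 D a ha haD (fun N => ‖∑ i ∈ range N, e (F (a i) (X ω) + c i)‖) (fun N => norm_nonneg _)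
    (fun (i : ℕ × ℕ) n => 2 * (Gs (rho p q T ξ φ) (Psi μ p q T ξ φ X) ((i.1 : ℝ) - i.2) (i.1 + 3) ω (Y n) +
      cri (rho p q T ξ φ) ((i.1 : ℝ) - i.2) i.1 ω (Y n))) ?_ ?_
  · intro i ε hε
    filter_upwards [h2 i.1 i.2 hXuv ε hε] with N hN
    rw [← mul_sum, hY]
    exact hN
  intro κ hκ
  obtain ⟨M₀, hM₀⟩ := h3 (κ / 8) (by positivity) (Real.log β) hlβ
  obtain ⟨M, hM⟩ := exists_nat_ge M₀
  obtain ⟨d₀, hd₀⟩ := wiener_small h hS hna ((M : ℝ) + 5) (by positivity) (κ * lam / 32) (by positivity)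
  obtain ⟨d, hd⟩ := exists_nat_ge (max ((M : ℝ) + 1) (d₀ + M + 1))
  have hd1 : (M : ℝ) + 1 ≤ d := (le_max_left _ _).trans hd
  have hd2 : d₀ + M + 1 ≤ d := (le_max_right _ _).trans hd
  have hu1 : 1 ≤ (d : ℝ) - M := by linarith
  have huv : (d : ℝ) - M ≤ d + 3 := by
    have : (0 : ℝ) ≤ M := Nat.cast_nonneg _
    linarith
  obtain ⟨m, hm⟩ := transfer h hS ((d : ℝ) - M) ((d : ℝ) + 3) hu1 huv (κ / 32) (by positivity)
  have hJ : JJ μ (qS μ p q T ξ φ X m ((d : ℝ) - M) ((d : ℝ) + 3)) ((d : ℝ) + 3 + 1) ≤ κ * lam / 32 := by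
    refine (JJ_qS h hS m _ _ hu1 huv).trans ?_
    have h6 := hd₀ ((d : ℝ) - M - 1) (by linarith) m
    have h7 : (d : ℝ) - M - 1 + (M + 5) = d + 3 + 1 := by ring
    rw [h7] at h6
    exact h6
  refine ⟨(d, M), ?_⟩
  -- the crossings
  have hcr2 := hM₀ M hM (fun k => sc (rho p q T ξ φ) k ω) σ hσ' Y hYinc d
  -- the free sum
  have hfr := h4 (d, M, m) hu1 (Real.log β) hlβ (fun hh => hβZ (Set.mem_iUnion.2 ⟨_, hh⟩)) (fun n => Y n - σ)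
    (hYinc.congr fun n => by ring) (κ / 32) (by positivity)
  have htr : ∀ᶠ n : ℕ in atTop, Gs (rho p q T ξ φ) (Psi μ p q T ξ φ X) ((d : ℝ) - M) (d + 3) ω (Y n) ≤
      Gf T τ (qS μ p q T ξ φ X m ((d : ℝ) - M) ((d : ℝ) + 3)) ω (Y n - σ) + κ / 32 := by
    have h6 := hm m le_rfl ω σ hσ
    rw [← hτ] at h6
    exact hYt.eventually h6
  have hG0 : ∀ n, 0 ≤ Gf T τ (qS μ p q T ξ φ X m ((d : ℝ) - M) ((d : ℝ) + 3)) ω (Y n - σ) + κ / 32 := by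
    intro n
    have : 0 ≤ Gf T τ (qS μ p q T ξ φ X m ((d : ℝ) - M) ((d : ℝ) + 3)) ω (Y n - σ) := tsum_nonneg fun k =>
      mul_nonneg (bump_nonneg _ _ _) (sq_nonneg _)
    positivity
  obtain ⟨C₁, hC₁⟩ := sum_le_eventually hG0 htr
  filter_upwards [hcr2, hfr, tendsto_natCast_atTop_atTop.eventually_ge_atTop (C₁ * (32 / κ))] with N h6 h7 h8
  have hN0 : (0 : ℝ) ≤ N := Nat.cast_nonneg N
  have hC2 : C₁ ≤ N * (κ / 32) := by
    have := mul_le_mul_of_nonneg_right h8 (show 0 ≤ κ / 32 by positivity)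
    have e1 : C₁ * (32 / κ) * (κ / 32) = C₁ := by field_simp
    linarith
  have h9 := hC₁ N
  rw [sum_add_distrib, sum_const, card_range, nsmul_eq_mul] at h9
  have h10 : JJ μ (qS μ p q T ξ φ X m ((d : ℝ) - M) ((d : ℝ) + 3)) ((d : ℝ) + 3 + 1) / lam ≤ κ / 32 := by
    rw [div_le_iff₀ hlam0]
    linarith
  have h11 : (N : ℝ) * (JJ μ (qS μ p q T ξ φ X m ((d : ℝ) - M) ((d : ℝ) + 3)) ((d : ℝ) + 3 + 1) / lam + κ / 32) ≤
      N * (κ / 32 + κ / 32) := by gcongr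
  have h12 : ∑ n ∈ range N, cri (rho p q T ξ φ) ((d : ℝ) - M) d ω (Y n) ≤ κ / 8 * N := by
    refine le_trans (le_of_eq ?_) h6
    unfold cri
    rw [sum_ite, sum_const_zero, add_zero, sum_const, nsmul_eq_mul, mul_one]
    rfl
  rw [← mul_sum, sum_add_distrib]
  linarith

/-- the values of `X` have no atoms -/
theorem X_ne (h : Con p q φ φ' C r K ε) (hS : Prc μ p q T ξ φ X) [IsProbabilityMeasure μ] (hE : Ergodic T μ)
    (hX : ∀ f : (ℕ → E) → ℝ, Measurable f → ¬ (X =ᵐ[μ] fun ω => f (pst T ξ ω))) (x : ℝ) : ∀ᵐ ω ∂μ, X ω ≠ x := by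
  have hna := dichotomy h hS hE hX
  have h1 := base hS 0 (fun _ y => if y = x then (1 : ℂ) else 0) (Measurable.ite ((measurable_snd) (measurableSet_singleton x))
    measurable_const measurable_const) 1 (fun s y => by split_ifs <;> simp)
  have h2 : ∀ᵐ ω ∂μ, (∫ y, (if y = x then (1 : ℂ) else 0) ∂(kap μ T ξ X (pst T ξ (T^[0] ω)))) = 0 := by
    filter_upwards [hna] with ω hω
    have h3 : ∀ᵐ y ∂(kap μ T ξ X (pst T ξ (T^[0] ω))), (if y = x then (1 : ℂ) else 0) = 0 := by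
      have h4 : kap μ T ξ X (pst T ξ (T^[0] ω)) {x} = 0 := hω x
      rw [ae_iff]
      refine measure_mono_null ?_ h4
      intro y hy
      by_contra h5
      apply hy
      exact if_neg h5
    rw [integral_congr_ae h3, integral_zero]
  rw [integral_congr_ae h2, integral_zero] at h1
  have h3 : ∫ ω, (if X ω = x then (1 : ℂ) else 0) ∂μ = ((μ.real {ω | X ω = x} : ℝ) : ℂ) := by
    have hms : MeasurableSet {ω | X ω = x} := hS.hXm (measurableSet_singleton x)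
    have h4 : (fun ω => if X ω = x then (1 : ℂ) else 0) = Set.indicator {ω | X ω = x} fun _ => (1 : ℂ) := by
      funext ω
      by_cases h5 : X ω = x
      · rw [if_pos h5, Set.indicator_of_mem (show ω ∈ {ω | X ω = x} from h5)]
      · rw [if_neg h5, Set.indicator_of_notMem (show ω ∉ {ω | X ω = x} from h5)]
    rw [h4, integral_indicator hms, setIntegral_const, Complex.real_smul, mul_one]
  have h4 : ((μ.real {ω | X ω = x} : ℝ) : ℂ) = 0 := h3.symm.trans h1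
  have h5 : μ.real {ω | X ω = x} = 0 := by exact_mod_cast h4
  rw [measureReal_eq_zero_iff] at h5
  exact measure_eq_zero_iff_ae_notMem.1 h5

end Pool.Agent.Helper46.HT
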