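import Pool.Agent.Helper46.HR.NLLN
import Pool.Agent.Helper46.HT.Defs
import Pool.Agent.Helper32.HP.Defs

/-!
# HT-C7: preparations for the Weyl sums
-/

set_option autoImplicit false

namespace Pool.Agent.Helper46.HT

open Finset MeasureTheory ProbabilityTheory Filter Topology
open Pool.Agent.Helper46.HR Pool.Agent.Helper46.HS
open Pool.Agent.Helper59.RE (e norm_e e_add e_sub conj_e continuous_e e_zero)
open Pool.Agent.Helper32.HP (IsQ JJ)

variable {Ω : Type*} [MeasurableSpace Ω] {E : Type*} [MeasurableSpace E] {μ : Measure Ω} {p q : ℝ} {T : Ω ≃ᵐ Ω} {ξ : Ω → E}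
    {φ φ' : E → ℝ → ℝ} {X : Ω → ℝ} {C r K ε : ℝ}

theorem final46 {ι : Type*} (D : ℕ) (a : ℕ → ℕ) (ha : StrictMono a) (haD : ∀ n, a n ≤ D * (n + 1)) (S : ℕ → ℝ)
    (hS0 : ∀ N, 0 ≤ S N) (q : ι → ℕ → ℝ)
    (h1 : ∀ m : ι, ∀ ε : ℝ, 0 < ε → ∀ᶠ N : ℕ in atTop, S N ^ 2 ≤ N * (∑ n ∈ range (a N), q m n) + ε * (N : ℝ) ^ 2)
    (h2 : ∀ κ : ℝ, 0 < κ → ∃ m : ι, ∀ᶠ M : ℕ in atTop, ∑ n ∈ range M, q m n ≤ M * κ) :
    Tendsto (fun N : ℕ => S N / N) atTop (𝓝 0) := by
  rw [Metric.tendsto_atTop']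
  intro ε hε
  obtain ⟨κ, hκ⟩ : ∃ κ : ℝ, κ = ε ^ 2 / (2 * (2 * (D : ℝ) + 1)) := ⟨_, rfl⟩
  have hD0 : (0 : ℝ) ≤ D := Nat.cast_nonneg _
  have hκ0 : 0 < κ := by rw [hκ]; positivity
  obtain ⟨m, hm⟩ := h2 κ hκ0
  have hta : Tendsto a atTop atTop := ha.tendsto_atTop
  have hev := ((h1 m κ hκ0).and (hta.eventually hm)).and (eventually_ge_atTop 1)
  obtain ⟨N₀, hN₀⟩ := hev.exists_forall_of_atTop
  refine ⟨N₀, fun N hN => ?_⟩
  obtain ⟨⟨h3, h4⟩, h5⟩ := hN₀ N hN.le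
  have hN1 : (1 : ℝ) ≤ N := by exact_mod_cast h5
  have hN0 : (0 : ℝ) < N := by linarith
  have h6 : (a N : ℝ) ≤ D * (N + 1) := by exact_mod_cast haD N
  have h7 : S N ^ 2 ≤ (2 * D + 1) * κ * (N : ℝ) ^ 2 := by
    calc S N ^ 2 ≤ N * (∑ n ∈ range (a N), q m n) + κ * (N : ℝ) ^ 2 := h3
      _ ≤ N * ((a N : ℝ) * κ) + κ * (N : ℝ) ^ 2 := by gcongr
      _ ≤ N * ((D * (N + 1)) * κ) + κ * (N : ℝ) ^ 2 := by gcongr
      _ ≤ N * ((D * (N + N)) * κ) + κ * (N : ℝ) ^ 2 := by gcongr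
      _ = _ := by ring
  have h8 : (2 * D + 1) * κ = ε ^ 2 / 2 := by
    rw [hκ]
    field_simp
  rw [h8] at h7
  rw [Real.dist_eq, sub_zero, abs_of_nonneg (div_nonneg (hS0 N) hN0.le), div_lt_iff₀ hN0]
  apply lt_of_pow_lt_pow_left₀ 2 (by positivity)
  calc S N ^ 2 ≤ ε ^ 2 / 2 * (N : ℝ) ^ 2 := h7
    _ < (ε * N) ^ 2 := by
      rw [mul_pow]
      have : 0 < ε ^ 2 * (N : ℝ) ^ 2 := by positivity
      linarith

theorem psi_continuous (h : Con p q φ φ' C r K ε) (hφ : Measurable (Function.uncurry φ)) [IsProbabilityMeasure μ] (m : ℕ)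
    (π : ℕ → E) : Continuous fun y : ℝ => ‖psi μ p q T ξ φ X m π (Real.exp y)‖ ^ 2 := by
  have h1 : LipschitzWith (Real.toNNReal (2 * Real.pi * 1)) (psi μ p q T ξ φ X m π) := by
    refine LipschitzWith.of_dist_le_mul fun t t' => ?_
    rw [dist_eq_norm, Real.dist_eq, Real.coe_toNNReal _ (by positivity)]
    exact psi_lip h hφ m π t t'
  exact (h1.continuous.comp Real.continuous_exp).norm.pow 2

/-- the mean of the weight -/
theorem JJ_qS (h : Con p q φ φ' C r K ε) (hS : Prc μ p q T ξ φ X) [IsProbabilityMeasure μ] (m : ℕ) (u v : ℝ)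
    (hu : 1 ≤ u) (huv : u ≤ v) : JJ μ (qS μ p q T ξ φ X m u v) (v + 1) ≤
      ∫ ω, (∫ y in (u - 1)..(v + 1), ‖psi μ p q T ξ φ X m (pst T ξ ω) (Real.exp y)‖ ^ 2) ∂μ := by
  have hc : ∀ ω, Continuous fun y : ℝ => ‖psi μ p q T ξ φ X m (pst T ξ ω) (Real.exp y)‖ ^ 2 := fun ω =>
    psi_continuous h hS.hφ m _
  have hbc : Continuous (bump u v) := by
    unfold bump
    fun_prop
  have hle1 : ∀ ω y, ‖psi μ p q T ξ φ X m (pst T ξ ω) (Real.exp y)‖ ^ 2 ≤ 1 := fun ω y =>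
    pow_le_one₀ (norm_nonneg _) (psi_norm _ _ _)
  -- measurability of the right side
  have hm : StronglyMeasurable fun ω => ∫ y in (u - 1)..(v + 1), ‖psi μ p q T ξ φ X m (pst T ξ ω) (Real.exp y)‖ ^ 2 := by
    have h1 : Measurable fun z : Ω × ℝ => ‖psi μ p q T ξ φ X m (pst T ξ z.1) (Real.exp z.2)‖ ^ 2 :=
      ((psi_meas hS.hφ m).comp ((hS.mpst.comp measurable_fst).prodMk (Real.measurable_exp.comp measurable_snd))).norm.pow_const 2
    have h2 := h1.stronglyMeasurable.integral_prod_right' (ν := volume.restrict (Set.Ioc (u - 1) (v + 1)))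
    have hle : u - 1 ≤ v + 1 := by linarith
    simp only [intervalIntegral.integral_of_le hle]
    exact h2
  have hle : u - 1 ≤ v + 1 := by linarith
  have hgi : Integrable (fun ω => ∫ y in (u - 1)..(v + 1), ‖psi μ p q T ξ φ X m (pst T ξ ω) (Real.exp y)‖ ^ 2) μ := by
    refine (integrable_const (v + 1 - (u - 1))).mono' hm.aestronglyMeasurable (Eventually.of_forall fun ω => ?_)
    have h3 := intervalIntegral.norm_integral_le_of_norm_le_const (a := u - 1) (b := v + 1) (C := 1)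
      (f := fun y => ‖psi μ p q T ξ φ X m (pst T ξ ω) (Real.exp y)‖ ^ 2) (fun y _ => by
        rw [Real.norm_eq_abs, abs_of_nonneg (by positivity)]
        exact hle1 ω y)
    rw [one_mul, abs_of_nonneg (by linarith)] at h3
    exact h3
  unfold JJ
  have hqc : ∀ ω, Continuous fun y : ℝ => qS μ p q T ξ φ X m u v ω y := fun ω => by
    unfold qS
    exact hbc.mul (hc ω)
  have hq0 : ∀ ω y, 0 ≤ qS μ p q T ξ φ X m u v ω y := fun ω y => mul_nonneg (bump_nonneg _ _ _) (sq_nonneg _)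
  refine integral_mono_of_nonneg (Eventually.of_forall fun ω => ?_) hgi (Eventually.of_forall fun ω => ?_)
  · exact intervalIntegral.integral_nonneg (by linarith) fun y _ => hq0 ω y
  · show ∫ y in (0 : ℝ)..(v + 1), qS μ p q T ξ φ X m u v ω y ≤
      ∫ y in (u - 1)..(v + 1), ‖psi μ p q T ξ φ X m (pst T ξ ω) (Real.exp y)‖ ^ 2
    rw [← intervalIntegral.integral_add_adjacent_intervals ((hqc ω).intervalIntegrable 0 (u - 1))
      ((hqc ω).intervalIntegrable (u - 1) (v + 1))]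
    have h4 : ∫ y in (0 : ℝ)..(u - 1), qS μ p q T ξ φ X m u v ω y = 0 := by
      rw [intervalIntegral.integral_congr (g := fun _ => (0 : ℝ))]
      · simp
      · intro y hy
        rw [Set.uIcc_of_le (by linarith)] at hy
        show bump u v y * _ = 0
        rw [bump_eq_zero (Or.inl hy.2), zero_mul]
    rw [h4, zero_add]
    apply intervalIntegral.integral_mono_on hle ((hqc ω).intervalIntegrable _ _) ((hc ω).intervalIntegrable _ _)
    intro y _
    unfold qS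
    exact mul_le_of_le_one_left (sq_nonneg _) (bump_le_one _ _ _)

end Pool.Agent.Helper46.HT
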